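import Pool.Agent.Helper25.BG.Grid

/-! Module BG-Adj: values at neighbouring points are adjacent.

Write `W' k j V s = (W k (j, ⟨V, s⟩)).val`, `N t` = set of the vertices of the cube of `t` (`ver_inj`: the sum over
`c` is a sum over `N t`; outside `N t` the levels vanish by `hat_supp`, so it is also the sum over
`N t ∪ N t'`, of at most `2 * 2 ^ r` vertices). Let `m ≤ m'` (else exchange; `E` is symmetric);
so `V m ⊆ V m'`. Apply `Φ.compat` to `U = V m`, `V = V m'`. For `s ∈ F (V m')` the difference of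
the two positions is `(x' - x) + 2 (loc' - loc) + 2 (η' - η)`, which is odd, and
`loc' s - loc (res s)` is a sum over `k ∈ N t ∪ N t'`, `j ∈ sg κ t ∪ sg κ t'` (all `j ≤ m'`) of
`min (lev κ k t' j) (W' k j) - min (lev κ k t j) (W' k j)` (the level is `0` for `j` not in
`sg`), each of absolute value at most 1 (`lev_lip`). So it is at most
`1 + 2 * (2 * 2 ^ r * r) + 2 = R`. -/

set_option autoImplicit false
set_option linter.all false

namespace Pool.Agent.Helper25.BG

/-- the support -/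
def sg {r : ℕ} (κ : ℕ) (t : Fin r → ℕ) : Finset (Fin r) := Finset.univ.filter fun j => κ < t j

/-- the levels at `t` -/
def lv {r : ℕ} (M κ : ℕ) (t : Fin r → ℕ) : Cp r → Fin r → ℕ := fun c j =>
  lev M κ (ver (cube M t) c) t j

/-- the samples that the cube `a` sees -/
def smp {J : Type} {P : Psh J} {M r : ℕ} (W : (Fin r → ℕ) → (Fin r × Pt P → ZMod M))
    (a : Fin r → ℕ) : Ix P r → ZMod M := fun p => W (ver a p.1) p.2

open Classical in
private noncomputable def adjG {J : Type} {P : Psh J} {M r : ℕ} (V : Fin r → Finset J)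
    (W : (Fin r → ℕ) → (Fin r × Pt P → ZMod M)) (κ : ℕ) (m' : Fin r) (s : P.F (V m'))
    (t k : Fin r → ℕ) (j : Fin r) : ℕ :=
  if h : V j ⊆ V m' then min (lev M κ k t j) (W k (j, ⟨V j, P.res h s⟩)).val else 0

private lemma adj_lev_zero {M κ r : ℕ} {t : Fin r → ℕ} {j : Fin r} (k : Fin r → ℕ)
    (hj : j ∉ sg κ t) : lev M κ k t j = 0 := by
  have h1 : ¬ κ < t j := by
    intro h
    exact hj (Finset.mem_filter.2 ⟨Finset.mem_univ _, h⟩)
  unfold lev
  have h2 : t j - κ = 0 := by omega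
  rw [h2]
  exact Nat.min_zero _

private lemma adjG_zero_lev {J : Type} {P : Psh J} {M r : ℕ} (V : Fin r → Finset J)
    (W : (Fin r → ℕ) → (Fin r × Pt P → ZMod M)) (κ : ℕ) (m' : Fin r) (s : P.F (V m'))
    (t k : Fin r → ℕ) (j : Fin r) (h : lev M κ k t j = 0) : adjG V W κ m' s t k j = 0 := by
  unfold adjG
  split_ifs
  · rw [h]
    exact Nat.zero_min _
  · rfl

private lemma adjG_lip {J : Type} {P : Psh J} {M r : ℕ} (V : Fin r → Finset J)
    (W : (Fin r → ℕ) → (Fin r × Pt P → ZMod M)) (κ : ℕ) (m' : Fin r) (s : P.F (V m'))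
    {t t' : Fin r → ℕ} (ht : Nb t t') (k : Fin r → ℕ) (j : Fin r) :
    adjG V W κ m' s t k j ≤ adjG V W κ m' s t' k j + 1 := by
  have h1 : lev M κ k t j ≤ lev M κ k t' j + 1 := lev_lip ht κ k j
  unfold adjG
  split_ifs
  · omega
  · omega

private lemma adj_loc {J : Type} {P : Psh J} {M r : ℕ} (hM : 0 < M) (V : Fin r → Finset J)
    (hV : Monotone V) (W : (Fin r → ℕ) → (Fin r × Pt P → ZMod M)) (κ : ℕ) {t : Fin r → ℕ}
    {m m' : Fin r} (hmax : ∀ j ∈ sg κ t, j ≤ m) (hmm : V m ⊆ V m') (s : P.F (V m'))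
    (S : Finset (Fin r → ℕ)) (hS : ∀ c, ver (cube M t) c ∈ S) :
    loc P V (sg κ t) (lv M κ t) (smp W (cube M t)) m (P.res hmm s) =
      ∑ k ∈ S, ∑ j, adjG V W κ m' s t k j := by
  classical
  have h1 : ∀ c : Cp r, (∑ j ∈ sg κ t, if h : V j ⊆ V m then
      min (lv M κ t c j) (smp W (cube M t) (c, j, ⟨V j, P.res h (P.res hmm s)⟩)).val else 0) =
      ∑ j, adjG V W κ m' s t (ver (cube M t) c) j := by
    intro c
    rw [← Finset.sum_subset (Finset.subset_univ (sg κ t))
      (fun j _ hj => adjG_zero_lev V W κ m' s t (ver (cube M t) c) j (adj_lev_zero _ hj))]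
    refine Finset.sum_congr rfl fun j hj => ?_
    have hjm : V j ⊆ V m := hV (hmax j hj)
    unfold adjG
    rw [dif_pos hjm, dif_pos (hjm.trans hmm), P.res_res]
    rfl
  unfold loc
  rw [Finset.sum_congr rfl fun c _ => h1 c]
  have h2 : ∑ c, ∑ j, adjG V W κ m' s t (ver (cube M t) c) j =
      ∑ k ∈ Finset.univ.image (ver (cube M t)), ∑ j, adjG V W κ m' s t k j := by
    rw [Finset.sum_image]
    intro a _ b _ hab
    exact ver_inj (cube M t) hab
  rw [h2]
  refine Finset.sum_subset ?_ ?_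
  · intro k hk
    obtain ⟨c, -, rfl⟩ := Finset.mem_image.1 hk
    exact hS c
  · intro k _ hk
    refine Finset.sum_eq_zero fun j _ => ?_
    refine adjG_zero_lev V W κ m' s t k j ?_
    by_contra h3
    have h4 : hat M k t ≠ 0 := by
      intro h5
      apply h3
      unfold lev
      rw [h5]
      exact Nat.zero_min _
    obtain ⟨c, hc⟩ := hat_supp hM h4
    exact hk (Finset.mem_image.2 ⟨c, Finset.mem_univ _, hc.symm⟩)

private lemma adj_aux {J : Type} {P : Psh J} {M R K r : ℕ} (hM : 0 < M)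
    (hR : R = 2 ^ (r + 2) * r + 3)
    {H : Type} {E : H → H → Prop} (Φ : Fam P M R K E)
    {v : Finset J} (V : Fin r → Finset J) (hV : Monotone V) (hv : ∀ i, v ⊆ V i)
    (hK : ∀ i, (V i).card ≤ K) (W : (Fin r → ℕ) → (Fin r × Pt P → ZMod M)) (κ : ℕ)
    {t t' : Fin r → ℕ} (ht : Nb t t') {m m' : Fin r} (hmm' : m ≤ m')
    (hmax : ∀ j ∈ sg κ t, j ≤ m) (hmax' : ∀ j ∈ sg κ t', j ≤ m') {x x' : P.F v → Bool}
    (hx : ∀ q, x q ≠ x' q) {u u' : H}
    (h : Val Φ V (sg κ t) (lv M κ t) m (hv m) x (smp W (cube M t)) u)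
    (h' : Val Φ V (sg κ t') (lv M κ t') m' (hv m') x' (smp W (cube M t')) u') : E u u' := by
  classical
  obtain ⟨η, rfl⟩ := h
  obtain ⟨η', rfl⟩ := h'
  have hmm : V m ⊆ V m' := hV hmm'
  refine Φ.compat hmm (hK m') _ _ ?_
  intro s
  set S : Finset (Fin r → ℕ) := Finset.univ.image (ver (cube M t)) ∪
    Finset.univ.image (ver (cube M t')) with hSdef
  have hcard : S.card ≤ 2 * 2 ^ r := by
    have h1 : (Finset.univ.image (ver (cube M t))).card ≤ 2 ^ r := by
      refine Finset.card_image_le.trans ?_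
      rw [Finset.card_univ, Fintype.card_fun, Fintype.card_bool, Fintype.card_fin]
    have h2 : (Finset.univ.image (ver (cube M t'))).card ≤ 2 ^ r := by
      refine Finset.card_image_le.trans ?_
      rw [Finset.card_univ, Fintype.card_fun, Fintype.card_bool, Fintype.card_fin]
    have h3 := Finset.card_union_le (Finset.univ.image (ver (cube M t)))
      (Finset.univ.image (ver (cube M t')))
    rw [← hSdef] at h3
    omega
  have hL := adj_loc hM V hV W κ hmax hmm s S (fun c =>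
    Finset.mem_union_left _ (Finset.mem_image.2 ⟨c, Finset.mem_univ _, rfl⟩))
  have hL' := adj_loc hM V hV W κ hmax' (Finset.Subset.refl (V m')) s S (fun c =>
    Finset.mem_union_right _ (Finset.mem_image.2 ⟨c, Finset.mem_univ _, rfl⟩))
  rw [P.res_self] at hL'
  have hB : ∀ {t t' : Fin r → ℕ}, Nb t t' → ∑ k ∈ S, ∑ j, adjG V W κ m' s t k j ≤
      (∑ k ∈ S, ∑ j, adjG V W κ m' s t' k j) + 2 * 2 ^ r * r := by
    intro t t' ht
    calc ∑ k ∈ S, ∑ j, adjG V W κ m' s t k j
        ≤ ∑ k ∈ S, ∑ j, (adjG V W κ m' s t' k j + 1) :=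
          Finset.sum_le_sum fun k _ => Finset.sum_le_sum fun j _ => adjG_lip V W κ m' s ht k j
      _ = (∑ k ∈ S, ∑ j, adjG V W κ m' s t' k j) + S.card * r := by
          simp only [Finset.sum_add_distrib, Finset.sum_const, Finset.card_univ, Fintype.card_fin,
            smul_eq_mul, mul_one]
      _ ≤ _ := by
          have := Nat.mul_le_mul_right r hcard
          omega
  have h1 := hB ht
  have h2 := hB ht.symm
  rw [← hL, ← hL'] at h1 h2
  set L := loc P V (sg κ t) (lv M κ t) (smp W (cube M t)) m (P.res hmm s) with hLd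
  set L' := loc P V (sg κ t') (lv M κ t') (smp W (cube M t')) m' s with hLd'
  have hR' : R = 2 * (2 * 2 ^ r * r) + 3 := by
    rw [hR, pow_add]
    ring
  have hxq := hx (P.res (hv m') s)
  have hres : P.res (hv m) (P.res hmm s) = P.res (hv m') s := P.res_res _ _ _
  show Thk M R ((((x (P.res (hv m) (P.res hmm s))).toNat + 2 * L +
    2 * (η (P.res hmm s)).toNat : ℕ) : ZMod M)) ((((x' (P.res (hv m') s)).toNat + 2 * L' +
    2 * (η' s).toNat : ℕ) : ZMod M))
  rw [hres]
  have hb : ∀ b : Bool, b.toNat ≤ 1 := fun b => by cases b <;> decide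
  have he := hb (η (P.res hmm s))
  have he' := hb (η' s)
  set B := 2 * 2 ^ r * r with hBd
  have hbb : ((x (P.res (hv m') s)).toNat = 0 ∧ (x' (P.res (hv m') s)).toNat = 1) ∨
      ((x (P.res (hv m') s)).toNat = 1 ∧ (x' (P.res (hv m') s)).toNat = 0) := by
    revert hxq
    cases x (P.res (hv m') s) <;> cases x' (P.res (hv m') s) <;> simp
  refine ⟨(((x' (P.res (hv m') s)).toNat + 2 * L' + 2 * (η' s).toNat : ℕ) : ℤ) -
    (((x (P.res (hv m') s)).toNat + 2 * L + 2 * (η (P.res hmm s)).toNat : ℕ) : ℤ), ?_, ?_, ?_⟩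
  · rcases hbb with ⟨h3, h4⟩ | ⟨h3, h4⟩
    · rw [h3, h4]
      refine ⟨(L' : ℤ) + ((η' s).toNat : ℤ) - L - ((η (P.res hmm s)).toNat : ℤ), ?_⟩
      push_cast
      ring
    · rw [h3, h4]
      refine ⟨(L' : ℤ) + ((η' s).toNat : ℤ) - L - ((η (P.res hmm s)).toNat : ℤ) - 1, ?_⟩
      push_cast
      ring
  · rw [abs_le, hR']
    rcases hbb with ⟨h3, h4⟩ | ⟨h3, h4⟩
    · rw [h3, h4]
      push_cast
      constructor <;> omega
    · rw [h3, h4]
      push_cast
      constructor <;> omega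
  · push_cast
    ring

theorem adj {J : Type} {P : Psh J} {M R K r : ℕ} (hM : 0 < M) (hR : R = 2 ^ (r + 2) * r + 3)
    {H : Type} {E : H → H → Prop} (hE : ∀ u v, E u v → E v u) (Φ : Fam P M R K E)
    {v : Finset J} (V : Fin r → Finset J) (hV : Monotone V) (hv : ∀ i, v ⊆ V i)
    (hK : ∀ i, (V i).card ≤ K) (W : (Fin r → ℕ) → (Fin r × Pt P → ZMod M)) (κ : ℕ)
    {t t' : Fin r → ℕ} (ht : Nb t t') {m m' : Fin r} (hm : m ∈ sg κ t) (hmax : ∀ j ∈ sg κ t, j ≤ m)
    (hm' : m' ∈ sg κ t') (hmax' : ∀ j ∈ sg κ t', j ≤ m') {x x' : P.F v → Bool}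
    (hx : ∀ q, x q ≠ x' q) {u u' : H}
    (h : Val Φ V (sg κ t) (lv M κ t) m (hv m) x (smp W (cube M t)) u)
    (h' : Val Φ V (sg κ t') (lv M κ t') m' (hv m') x' (smp W (cube M t')) u') : E u u' := by
  rcases le_total m m' with hmm | hmm
  · exact adj_aux hM hR Φ V hV hv hK W κ ht hmm hmax hmax' hx h h'
  · exact hE _ _ (adj_aux hM hR Φ V hV hv hK W κ ht.symm hmm hmax' hmax
      (fun q => (hx q).symm) h' h)

end Pool.Agent.Helper25.BG
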