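import Pool.Agent.Helper25.BG.Defs

/-! Module BG-An0: averages -/

set_option autoImplicit false
set_option linter.all false

namespace Pool.Agent.Helper25.BG

theorem av_eq {α : Type} [Fintype α] (f : α → ℝ) : av f = (∑ a, f a) / Fintype.card α := by
  unfold av
  rw [finsum_eq_sum_of_fintype, Nat.card_eq_fintype_card]

theorem av_const {α : Type} [Finite α] [Nonempty α] (c : ℝ) : av (fun _ : α => c) = c := by
  have := Fintype.ofFinite α
  rw [av_eq, Finset.sum_const, nsmul_eq_mul, Finset.card_univ]
  have : (Fintype.card α : ℝ) ≠ 0 := by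
    have := Fintype.card_pos (α := α)
    positivity
  field_simp

theorem av_add {α : Type} [Finite α] (f g : α → ℝ) : av (fun a => f a + g a) = av f + av g := by
  have := Fintype.ofFinite α
  rw [av_eq, av_eq, av_eq, Finset.sum_add_distrib, add_div]

theorem av_sub {α : Type} [Finite α] (f g : α → ℝ) : av (fun a => f a - g a) = av f - av g := by
  have := Fintype.ofFinite α
  rw [av_eq, av_eq, av_eq, Finset.sum_sub_distrib, sub_div]

theorem av_mul_left {α : Type} [Finite α] (c : ℝ) (f : α → ℝ) :
    av (fun a => c * f a) = c * av f := by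
  have := Fintype.ofFinite α
  rw [av_eq, av_eq, ← Finset.mul_sum, mul_div_assoc]

theorem av_mul_right {α : Type} [Finite α] (c : ℝ) (f : α → ℝ) :
    av (fun a => f a * c) = av f * c := by
  have := av_mul_left c f
  simp only [mul_comm c] at this
  exact this

theorem av_sum {α ι : Type} [Finite α] (s : Finset ι) (f : ι → α → ℝ) :
    av (fun a => ∑ i ∈ s, f i a) = ∑ i ∈ s, av (f i) := by
  have := Fintype.ofFinite α
  simp only [av_eq]
  rw [Finset.sum_comm, Finset.sum_div]

theorem av_nonneg {α : Type} [Finite α] {f : α → ℝ} (h : ∀ a, 0 ≤ f a) : 0 ≤ av f := by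
  have := Fintype.ofFinite α
  rw [av_eq]
  exact div_nonneg (Finset.sum_nonneg fun a _ => h a) (Nat.cast_nonneg _)

theorem av_mono {α : Type} [Finite α] {f g : α → ℝ} (h : ∀ a, f a ≤ g a) : av f ≤ av g := by
  have h1 : 0 ≤ av (fun a => g a - f a) := av_nonneg fun a => sub_nonneg.2 (h a)
  rw [av_sub] at h1
  linarith

theorem av_equiv {α β : Type} (e : α ≃ β) (f : β → ℝ) : av (fun a => f (e a)) = av f := by
  unfold av
  rw [finsum_comp_equiv e, Nat.card_congr e]

theorem av_prod {α β : Type} [Finite α] [Finite β] (f : α → β → ℝ) :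
    av (fun p : α × β => f p.1 p.2) = av fun a => av fun b => f a b := by
  have := Fintype.ofFinite α
  have := Fintype.ofFinite β
  simp only [av_eq]
  rw [Fintype.card_prod, ← Finset.sum_div, Fintype.sum_prod_type, div_div]
  push_cast
  rw [mul_comm (Fintype.card α : ℝ)]

theorem av_comm {α β : Type} [Finite α] [Finite β] (f : α → β → ℝ) :
    (av fun a => av fun b => f a b) = av fun b => av fun a => f a b := by
  rw [← av_prod, ← av_prod, ← av_equiv (Equiv.prodComm α β)]
  rfl

/-- Jensen -/
theorem av_sq_le {α : Type} [Finite α] (f : α → ℝ) : av f ^ 2 ≤ av fun a => f a ^ 2 := by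
  rcases isEmpty_or_nonempty α with h | h
  · unfold av
    simp
  have h1 : 0 ≤ av (fun a => (f a - av f) ^ 2) := av_nonneg fun a => sq_nonneg _
  have h2 : av (fun a => (f a - av f) ^ 2) = (av fun a => f a ^ 2) - av f ^ 2 := by
    have e : (fun a => (f a - av f) ^ 2) = fun a => (f a ^ 2 - (2 * av f) * f a) + av f ^ 2 := by
      funext a
      ring
    rw [e, av_add, av_sub, av_mul_left, av_const]
    ring
  linarith

theorem av_shift {G : Type} [AddCommGroup G] (f : G → ℝ) (a : G) :
    av (fun x => f (x + a)) = av f := av_equiv (Equiv.addRight a) f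

theorem av_of_isEmpty {α : Type} [IsEmpty α] (f : α → ℝ) : av f = 0 := by
  unfold av
  simp

theorem av_single_le {α : Type} [Finite α] {f : α → ℝ} (h : ∀ a, 0 ≤ f a) (a : α) :
    f a ≤ av f * Nat.card α := by
  have := Fintype.ofFinite α
  have : Nonempty α := ⟨a⟩
  rw [av_eq, Nat.card_eq_fintype_card, div_mul_cancel₀]
  · exact Finset.single_le_sum (fun a _ => h a) (Finset.mem_univ a)
  · have := Fintype.card_pos (α := α)
    positivity

/-- a positive average has a positive value -/
theorem av_pos_exists {α : Type} [Finite α] {f : α → ℝ} (h : 0 < av f) : ∃ a, 0 < f a := by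
  by_contra hcon
  push Not at hcon
  have h1 : 0 ≤ av (fun a => - f a) := av_nonneg fun a => by linarith [hcon a]
  have h2 : av (fun a => - f a) = - av f := by
    have := av_mul_left (-1) f
    simpa using this
  linarith

/-- the average of an indicator function -/
theorem av_ind {α : Type} [Finite α] (p : α → Prop) [DecidablePred p] :
    av (fun a => if p a then (1 : ℝ) else 0) = ({a | p a}.ncard : ℝ) / Nat.card α := by
  have := Fintype.ofFinite α
  rw [av_eq, Nat.card_eq_fintype_card, Finset.sum_boole]
  congr 2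
  rw [Set.ncard_eq_toFinset_card', Set.toFinset_setOf]

/-- Markov -/
theorem av_markov {α : Type} [Finite α] {f : α → ℝ} (h : ∀ a, 0 ≤ f a) (c : ℝ) :
    c * ({a | c ≤ f a}.ncard : ℝ) ≤ av f * Nat.card α := by
  classical
  rcases isEmpty_or_nonempty α with h0 | h0
  · have : {a | c ≤ f a} = ∅ := Set.eq_empty_of_isEmpty _
    rw [this]
    simp
  have h1 : av (fun a => if c ≤ f a then c else 0) ≤ av f := av_mono fun a => by
    split_ifs with h2
    · exact h2
    · exact h a
  have h2 : av (fun a => if c ≤ f a then c else 0) =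
      c * (({a | c ≤ f a}.ncard : ℝ) / Nat.card α) := by
    rw [← av_ind, ← av_mul_left]
    congr 1
    funext a
    split_ifs <;> simp
  have h3 : (0 : ℝ) < Nat.card α := by
    exact_mod_cast Nat.card_pos
  rw [h2] at h1
  calc c * ({a | c ≤ f a}.ncard : ℝ) = c * (({a | c ≤ f a}.ncard : ℝ) / Nat.card α) *
        Nat.card α := by field_simp
    _ ≤ av f * Nat.card α := mul_le_mul_of_nonneg_right h1 h3.le

end Pool.Agent.Helper25.BG
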