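import Pool.Agent.Helper25.BG.An0

/-! Module BG-An1: noise operators and full averages (all elementary).

All operators are averages over random shifts, `g ↦ av fun t => g (ω + θ t)`; it is convenient to
prove the facts (commutation, contraction by `av_sq_le` and `av_shift`, `av_comm`) once for such
operators. `Tn_Tn`: for `U`, `U'` disjoint the map `(η, η') ↦ (η on U and η' elsewhere,
η' on U and η elsewhere)` is an involution of the pairs, and
`bsh U η + bsh U' η' = bsh (U ∪ U') (η on U, η' elsewhere)`. Same for `En_En`. -/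

set_option autoImplicit false
set_option linter.all false

namespace Pool.Agent.Helper25.BG

section

variable {A : Type} [Finite A] {M : ℕ} [NeZero M]

/-- averages over random shifts -/
private theorem shop_comm {S T : Type} [Finite S] [Finite T] (θ : S → A → ZMod M)
    (θ' : T → A → ZMod M) (g : (A → ZMod M) → ℝ) (ω : A → ZMod M) :
    (av fun s => av fun t => g (ω + θ s + θ' t)) = av fun t => av fun s => g (ω + θ' t + θ s) := by
  rw [av_comm]
  congr 1
  funext t
  congr 1
  funext s
  rw [add_right_comm]

private theorem shop_sq_le {S : Type} [Finite S] [Nonempty S] (θ : S → A → ZMod M)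
    (g : (A → ZMod M) → ℝ) : (av fun ω => (av fun s => g (ω + θ s)) ^ 2) ≤ av fun ω => g ω ^ 2 := by
  have h1 : (av fun ω => (av fun s => g (ω + θ s)) ^ 2) ≤
      av fun ω : A → ZMod M => av fun s => g (ω + θ s) ^ 2 := by
    apply av_mono
    intro ω
    exact av_sq_le _
  have h2 : (av fun ω : A → ZMod M => av fun s => g (ω + θ s) ^ 2) = av fun ω => g ω ^ 2 := by
    rw [av_comm]
    have h3 : (fun s => av fun ω : A → ZMod M => g (ω + θ s) ^ 2) =
        fun _ : S => av fun ω => g ω ^ 2 := by
      funext s
      exact av_shift (fun ω => g ω ^ 2) (θ s)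
    rw [h3, av_const]
  rw [h2] at h1
  exact h1

open Classical in
/-- the swap of two functions outside of `U` -/
private noncomputable def swp {B : Type} (U : Set A) : ((A → B) × (A → B)) ≃ ((A → B) × (A → B)) where
  toFun p := (fun a => if a ∈ U then p.1 a else p.2 a, fun a => if a ∈ U then p.2 a else p.1 a)
  invFun p := (fun a => if a ∈ U then p.1 a else p.2 a, fun a => if a ∈ U then p.2 a else p.1 a)
  left_inv p := by
    apply Prod.ext
    · funext a
      by_cases h : a ∈ U <;> simp [h]
    · funext a
      by_cases h : a ∈ U <;> simp [h]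
  right_inv p := by
    apply Prod.ext
    · funext a
      by_cases h : a ∈ U <;> simp [h]
    · funext a
      by_cases h : a ∈ U <;> simp [h]

open Classical in
private theorem av_swp {B : Type} [Finite B] [Nonempty B] (U : Set A) (F : (A → B) → ℝ) :
    (av fun p : A → B => av fun p' : A → B => F (fun a => if a ∈ U then p a else p' a)) = av F := by
  rw [← av_prod]
  have h1 := av_equiv (swp (B := B) U) (fun p : (A → B) × (A → B) => F p.1)
  have h2 : (fun p : (A → B) × (A → B) => F ((swp U p).1)) =
      fun p : (A → B) × (A → B) => F (fun a => if a ∈ U then p.1 a else p.2 a) := rfl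
  rw [h2] at h1
  rw [h1]
  have h3 := av_prod (fun (p p' : A → B) => F p)
  rw [h3]
  congr 1
  funext p
  exact av_const _

theorem sq_nonneg' (g : (A → ZMod M) → ℝ) : 0 ≤ sq g := by
  unfold sq
  exact av_nonneg fun ω => sq_nonneg _

theorem Tn_empty (g : (A → ZMod M) → ℝ) : Tn ∅ g = g := by
  funext ω
  unfold Tn
  have h : (fun η : A → Bool => g (ω + bsh ∅ η)) = fun _ => g ω := by
    funext η
    have : (bsh ∅ η : A → ZMod M) = 0 := by
      funext a
      simp [bsh]
    rw [this, add_zero]
  rw [h, av_const]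

theorem Tn_Tn {U U' : Set A} (h : Disjoint U U') (g : (A → ZMod M) → ℝ) :
    Tn U (Tn U' g) = Tn (U ∪ U') g := by
  classical
  funext ω
  unfold Tn
  rw [← av_swp U (fun η : A → Bool => g (ω + bsh (U ∪ U') η))]
  congr 1
  funext η
  congr 1
  funext η'
  congr 1
  rw [add_assoc]
  congr 1
  funext a
  have h1 : a ∈ U → a ∉ U' := fun h2 h3 => Set.disjoint_left.1 h h2 h3
  simp only [bsh, Pi.add_apply, Set.mem_union]
  by_cases h2 : a ∈ U
  · have h3 := h1 h2
    simp [h2, h3]
  · by_cases h3 : a ∈ U'
    · simp [h2, h3]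
    · simp [h2, h3]

theorem Tn_comm (U U' : Set A) (g : (A → ZMod M) → ℝ) : Tn U (Tn U' g) = Tn U' (Tn U g) := by
  funext ω
  unfold Tn
  exact shop_comm _ _ g ω

theorem sq_Tn_le (U : Set A) (g : (A → ZMod M) → ℝ) : sq (Tn U g) ≤ sq g := by
  unfold sq Tn
  exact shop_sq_le _ g

theorem Tn_sub (U : Set A) (g g' : (A → ZMod M) → ℝ) :
    Tn U (fun ω => g ω - g' ω) = fun ω => Tn U g ω - Tn U g' ω := by
  funext ω
  unfold Tn
  exact av_sub _ _

theorem Tn_shift (U : Set A) (g : (A → ZMod M) → ℝ) (a : A → ZMod M) :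
    Tn U (fun ω => g (ω + a)) = fun ω => Tn U g (ω + a) := by
  funext ω
  unfold Tn
  congr 1
  funext η
  rw [add_right_comm]

theorem sq_shift (g : (A → ZMod M) → ℝ) (a : A → ZMod M) : sq (fun ω => g (ω + a)) = sq g := by
  unfold sq
  exact av_shift (fun ω => g ω ^ 2) a

theorem En_empty (g : (A → ZMod M) → ℝ) : En ∅ g = g := by
  funext ω
  unfold En
  refine Eq.trans ?_ (av_const (α := A → ZMod M) (g ω))
  congr 1
  funext ζ
  congr 1
  funext a
  simp

theorem En_En {U U' : Set A} (h : Disjoint U U') (g : (A → ZMod M) → ℝ) :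
    En U (En U' g) = En (U ∪ U') g := by
  funext ω
  unfold En
  symm
  refine Eq.trans (av_swp U _).symm ?_
  symm
  congr 1
  funext ζ
  congr 1
  funext ζ'
  congr 1
  rw [add_assoc]
  congr 1
  funext a
  have h1 : a ∈ U → a ∉ U' := fun h2 h3 => Set.disjoint_left.1 h h2 h3
  simp only [Pi.add_apply, Set.mem_union]
  by_cases h2 : a ∈ U
  · have h3 := h1 h2
    simp [h2, h3]
  · by_cases h3 : a ∈ U'
    · simp [h2, h3]
    · simp [h2, h3]

theorem En_Tn_comm (U U' : Set A) (g : (A → ZMod M) → ℝ) : En U (Tn U' g) = Tn U' (En U g) := by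
  funext ω
  unfold En Tn
  exact shop_comm _ _ g ω

theorem En_comm (U U' : Set A) (g : (A → ZMod M) → ℝ) : En U (En U' g) = En U' (En U g) := by
  funext ω
  unfold En
  exact shop_comm _ _ g ω

theorem sq_En_le (U : Set A) (g : (A → ZMod M) → ℝ) : sq (En U g) ≤ sq g := by
  unfold sq En
  exact shop_sq_le _ g

theorem En_sub (U : Set A) (g g' : (A → ZMod M) → ℝ) :
    En U (fun ω => g ω - g' ω) = fun ω => En U g ω - En U g' ω := by
  funext ω
  unfold En
  exact av_sub _ _

/-- invariance -/
theorem En_shift {U : Set A} (g : (A → ZMod M) → ℝ) {a : A → ZMod M} (ha : ∀ j, j ∉ U → a j = 0)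
    (ω : A → ZMod M) : En U g (ω + a) = En U g ω := by
  classical
  unfold En
  rw [← av_shift (fun ζ : A → ZMod M => g (ω + fun j => if j ∈ U then ζ j else 0)) a]
  congr 1
  funext ζ
  congr 1
  rw [add_assoc]
  congr 1
  funext j
  simp only [Pi.add_apply]
  by_cases h : j ∈ U
  · simp [h, add_comm]
  · simp [h, ha j h]

theorem En_Tn_self (U : Set A) (g : (A → ZMod M) → ℝ) : En U (Tn U g) = En U g := by
  rw [En_Tn_comm]
  funext ω
  unfold Tn
  have h : (fun η : A → Bool => En U g (ω + bsh U η)) = fun _ => En U g ω := by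
    funext η
    apply En_shift
    intro j hj
    simp [bsh, hj]
  rw [h, av_const]

/-- Pythagoras -/
theorem sq_sub_En (U : Set A) (g : (A → ZMod M) → ℝ) :
    sq (fun ω => g ω - En U g ω) = sq g - sq (En U g) := by
  classical
  have key : (av fun ω => g ω * En U g ω) = av fun ω => En U g ω ^ 2 := by
    have h1 : ∀ ζ : A → ZMod M,
        (av fun ω : A → ZMod M => g (ω + fun j => if j ∈ U then ζ j else 0) * En U g ω) =
        av fun ω => g ω * En U g ω := by
      intro ζ
      rw [← av_shift (fun ω : A → ZMod M => g ω * En U g ω) (fun j => if j ∈ U then ζ j else 0)]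
      congr 1
      funext ω
      rw [En_shift g _ ω]
      intro j hj
      simp [hj]
    have h2 : (av fun ζ : A → ZMod M => av fun ω : A → ZMod M =>
        g (ω + fun j => if j ∈ U then ζ j else 0) * En U g ω) = av fun ω => g ω * En U g ω := by
      have h3 : (fun ζ : A → ZMod M => av fun ω : A → ZMod M =>
          g (ω + fun j => if j ∈ U then ζ j else 0) * En U g ω) =
          fun _ => av fun ω => g ω * En U g ω := by
        funext ζ
        exact h1 ζ
      rw [h3, av_const]
    rw [← h2, av_comm]
    congr 1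
    funext ω
    rw [av_mul_right, pow_two]
    rfl
  unfold sq
  have e : (fun ω => (g ω - En U g ω) ^ 2) =
      fun ω => (g ω ^ 2 - 2 * (g ω * En U g ω)) + En U g ω ^ 2 := by
    funext ω
    ring
  rw [e, av_add, av_sub, av_mul_left, key]
  ring

end

end Pool.Agent.Helper25.BG
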