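import Pool.Agent.Helper25.BG.An1

/-! Module BG-An2: influences of blocks.

`defect`: `sq h - sq (Tn S h) = 1/2 * av over ω, η, η' of (h (ω + bsh S η) - h (ω + bsh S η'))^2`.
`defect_mono`: apply `sq_Tn_le` to the function `ω ↦ h (ω + bsh S η) - h (ω + bsh S η')` for fixed
`η, η'`. `Wt_sum`: induction on `T`: with `S0` the union of the `S q`, `q ∈ T`,
`∑ q ∈ T, Wt g U (S q) ≤ sq (Tn (U \ S0) g) - sq (Tn U g)`; the step (new `q1`, `S1 = S q1` disjoint
from `S0`) is `defect_mono` for `h = Tn (U \ (S0 ∪ S1)) g`: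
`Tn (U \ S1) g = Tn S0 h`, `Tn U g = Tn S1 (Tn S0 h)`, `Tn (U \ S0) g = Tn S1 h`. -/

set_option autoImplicit false
set_option linter.all false

namespace Pool.Agent.Helper25.BG

section

variable {A : Type} [Finite A] {M : ℕ} [NeZero M]

private theorem An2_defect (S : Set A) (h : (A → ZMod M) → ℝ) :
    (av fun η : A → Bool => av fun η' : A → Bool =>
      sq (fun ω : A → ZMod M => h (ω + bsh S η) - h (ω + bsh S η'))) =
      2 * (sq h - sq (Tn S h)) := by
  have e1 : ∀ η η' : A → Bool,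
      sq (fun ω : A → ZMod M => h (ω + bsh S η) - h (ω + bsh S η')) =
        (sq h + sq h) - 2 * av (fun ω : A → ZMod M => h (ω + bsh S η) * h (ω + bsh S η')) := by
    intro η η'
    have a1 : sq h = av fun ω : A → ZMod M => h (ω + bsh S η) ^ 2 :=
      (sq_shift h (bsh S η)).symm
    have a2 : sq h = av fun ω : A → ZMod M => h (ω + bsh S η') ^ 2 :=
      (sq_shift h (bsh S η')).symm
    have a3 : sq (fun ω : A → ZMod M => h (ω + bsh S η) - h (ω + bsh S η')) =
        av fun ω : A → ZMod M => (h (ω + bsh S η) ^ 2 + h (ω + bsh S η') ^ 2) -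
          2 * (h (ω + bsh S η) * h (ω + bsh S η')) := by
      unfold sq
      congr 1
      funext ω
      ring
    rw [a3, av_sub, av_add, av_mul_left, ← a1, ← a2]
  have e2 : (av fun η : A → Bool => av fun η' : A → Bool =>
      av (fun ω : A → ZMod M => h (ω + bsh S η) * h (ω + bsh S η'))) = sq (Tn S h) := by
    have b1 : ∀ η : A → Bool, (av fun η' : A → Bool =>
        av (fun ω : A → ZMod M => h (ω + bsh S η) * h (ω + bsh S η'))) =
        av fun ω : A → ZMod M => h (ω + bsh S η) * Tn S h ω := by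
      intro η
      rw [av_comm]
      congr 1
      funext ω
      rw [av_mul_left]
      rfl
    simp only [b1]
    rw [av_comm]
    unfold sq
    congr 1
    funext ω
    rw [av_mul_right, pow_two]
    rfl
  have e3 : (av fun η : A → Bool => av fun η' : A → Bool =>
      sq (fun ω : A → ZMod M => h (ω + bsh S η) - h (ω + bsh S η'))) =
      av fun η : A → Bool => av fun η' : A → Bool =>
        (sq h + sq h) - 2 * av (fun ω : A → ZMod M => h (ω + bsh S η) * h (ω + bsh S η')) := by
    congr 1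
    funext η
    congr 1
    funext η'
    exact e1 η η'
  rw [e3]
  have e4 : ∀ η : A → Bool, (av fun η' : A → Bool =>
        (sq h + sq h) - 2 * av (fun ω : A → ZMod M => h (ω + bsh S η) * h (ω + bsh S η'))) =
      (sq h + sq h) - 2 * av fun η' : A → Bool =>
        av (fun ω : A → ZMod M => h (ω + bsh S η) * h (ω + bsh S η')) := by
    intro η
    rw [av_sub, av_const, av_mul_left]
  simp only [e4]
  rw [av_sub, av_const, av_mul_left, e2]
  ring

theorem defect_mono (S S' : Set A) (h : (A → ZMod M) → ℝ) :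
    sq (Tn S' h) - sq (Tn S (Tn S' h)) ≤ sq h - sq (Tn S h) := by
  have h1 := An2_defect S h
  have h2 := An2_defect S (Tn S' h)
  have h3 : (av fun η : A → Bool => av fun η' : A → Bool =>
      sq (fun ω : A → ZMod M => Tn S' h (ω + bsh S η) - Tn S' h (ω + bsh S η'))) ≤
      av fun η : A → Bool => av fun η' : A → Bool =>
      sq (fun ω : A → ZMod M => h (ω + bsh S η) - h (ω + bsh S η')) := by
    refine av_mono fun η => av_mono fun η' => ?_
    have e : (fun ω : A → ZMod M => Tn S' h (ω + bsh S η) - Tn S' h (ω + bsh S η')) =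
        Tn S' (fun ω : A → ZMod M => h (ω + bsh S η) - h (ω + bsh S η')) := by
      rw [Tn_sub S' (fun ω => h (ω + bsh S η)) (fun ω => h (ω + bsh S η')),
        Tn_shift, Tn_shift]
    rw [e]
    exact sq_Tn_le _ _
  linarith

theorem Wt_nonneg (g : (A → ZMod M) → ℝ) {U S : Set A} (h : S ⊆ U) : 0 ≤ Wt g U S := by
  have e : Tn U g = Tn S (Tn (U \ S) g) := by
    rw [Tn_Tn Set.disjoint_sdiff_right, Set.union_diff_cancel h]
  unfold Wt
  rw [e]
  linarith [sq_Tn_le S (Tn (U \ S) g)]

theorem Wt_mono (g : (A → ZMod M) → ℝ) {U S S' : Set A} (h' : S' ⊆ S) (h : S ⊆ U) :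
    Wt g U S' ≤ Wt g U S := by
  have e : Tn (U \ S') g = Tn (S \ S') (Tn (U \ S) g) := by
    rw [Tn_Tn]
    · congr 1
      ext x
      simp only [Set.mem_diff, Set.mem_union]
      constructor
      · rintro ⟨h1, h2⟩
        by_cases h3 : x ∈ S
        · exact Or.inl ⟨h3, h2⟩
        · exact Or.inr ⟨h1, h3⟩
      · rintro (⟨h1, h2⟩ | ⟨h1, h2⟩)
        · exact ⟨h h1, h2⟩
        · exact ⟨h1, fun h3 => h2 (h' h3)⟩
    · rw [Set.disjoint_left]
      rintro x ⟨h1, -⟩ ⟨-, h2⟩
      exact h2 h1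
  unfold Wt
  rw [e]
  linarith [sq_Tn_le (S \ S') (Tn (U \ S) g)]

private theorem An2_sum {Q : Type} (g : (A → ZMod M) → ℝ) {U : Set A} (S : Q → Set A)
    (hS : ∀ q, S q ⊆ U) (hd : ∀ q q', q ≠ q' → Disjoint (S q) (S q')) (T : Finset Q) :
    ∑ q ∈ T, Wt g U (S q) ≤ sq (Tn (U \ ⋃ q ∈ T, S q) g) - sq (Tn U g) := by
  classical
  induction T using Finset.induction_on with
  | empty => simp
  | insert q1 T hq ih =>
    rw [Finset.sum_insert hq]
    set S0 : Set A := ⋃ q ∈ T, S q with hS0
    have hU : (⋃ q ∈ insert q1 T, S q) = S q1 ∪ S0 := by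
      rw [Finset.set_biUnion_insert]
    have hS0U : S0 ⊆ U := by
      rw [hS0]
      exact Set.iUnion₂_subset fun q _ => hS q
    have hdis : Disjoint (S q1) S0 := by
      rw [hS0, Set.disjoint_iUnion₂_right]
      intro q hqT
      refine hd q1 q ?_
      rintro rfl
      exact hq hqT
    rw [hU]
    set h := Tn (U \ (S q1 ∪ S0)) g with hh
    have hdl := Set.disjoint_left.1 hdis
    have e1 : Tn (U \ S q1) g = Tn S0 h := by
      rw [hh, Tn_Tn]
      · congr 1
        ext x
        simp only [Set.mem_diff, Set.mem_union]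
        constructor
        · rintro ⟨h1, h2⟩
          by_cases h3 : x ∈ S0
          · exact Or.inl h3
          · exact Or.inr ⟨h1, fun h4 => h4.elim h2 h3⟩
        · rintro (h1 | ⟨h1, h2⟩)
          · exact ⟨hS0U h1, fun h4 => hdl h4 h1⟩
          · exact ⟨h1, fun h4 => h2 (Or.inl h4)⟩
      · rw [Set.disjoint_left]
        rintro x h1 ⟨-, h2⟩
        exact h2 (Or.inr h1)
    have e2 : Tn (U \ S0) g = Tn (S q1) h := by
      rw [hh, Tn_Tn]
      · congr 1
        ext x
        simp only [Set.mem_diff, Set.mem_union]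
        constructor
        · rintro ⟨h1, h2⟩
          by_cases h3 : x ∈ S q1
          · exact Or.inl h3
          · exact Or.inr ⟨h1, fun h4 => h4.elim h3 h2⟩
        · rintro (h1 | ⟨h1, h2⟩)
          · exact ⟨hS q1 h1, fun h4 => hdl h1 h4⟩
          · exact ⟨h1, fun h4 => h2 (Or.inr h4)⟩
      · rw [Set.disjoint_left]
        rintro x h1 ⟨-, h2⟩
        exact h2 (Or.inl h1)
    have e3 : Tn U g = Tn (S q1) (Tn S0 h) := by
      rw [← e1, Tn_Tn Set.disjoint_sdiff_right, Set.union_diff_cancel (hS q1)]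
    have h3 := defect_mono (S q1) S0 h
    have h4 : Wt g U (S q1) = sq (Tn S0 h) - sq (Tn (S q1) (Tn S0 h)) := by
      unfold Wt
      rw [e1, e3]
    rw [e2] at ih
    rw [h4]
    rw [e3] at ih ⊢
    linarith

theorem Wt_sum {Q : Type} (g : (A → ZMod M) → ℝ) {U : Set A} (S : Q → Set A)
    (hS : ∀ q, S q ⊆ U) (hd : ∀ q q', q ≠ q' → Disjoint (S q) (S q')) (T : Finset Q) :
    ∑ q ∈ T, Wt g U (S q) ≤ sq g := by
  have h1 := An2_sum g S hS hd T
  have h2 := sq_Tn_le (U \ ⋃ q ∈ T, S q) g
  have h3 := sq_nonneg' (Tn U g)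
  linarith

end

end Pool.Agent.Helper25.BG
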