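import Pool.Agent.Helper25.BG.An2

/-! Module BG-An3: invariance of functions with small influence.

`gap_one` (one coordinate `a`): `Tn {a} h ω = (h ω + h (ω + Pi.single a 1)) / 2`, so
`sq h - sq (Tn {a} h) = 1/4 av (h (ω + e_a) - h ω)^2`; and
`sq h - sq (En {a} h) = 1/2 av over ω, t of (h (ω + t e_a) - h ω)^2 ≤ M^2/2 av (h (ω + e_a) - h ω)^2`
(`t e_a` in at most `M` steps; Cauchy-Schwarz and `av_shift`).
`gap`: induction on the finite set `S`. Write `c = 1/(2 M^2)`. With `k = Tn S h`:
`sq (Tn {a} k) ≤ (1-c) sq k + c sq (En {a} k)`, `En {a} (Tn S h) = Tn S (En {a} h)`, the induction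
hypothesis for `h` and for `En {a} h`, and the inequality
`sq (En S h) + sq (En {a} h) ≤ sq h + sq (En (insert a S) h)` (`anova`: `sq_En_le S` applied to
`h - En {a} h`, and `sq_sub_En {a}` for `h` and for `En S h`).
`Wt_gap`: `h = Tn (U \ S) g`, `Tn U g = Tn S h`; `X = sq (Tn S h) - sq (En S h)`,
`Y = sq h - sq (En S h)`, `Wt g U S = Y - X`, `X ≤ (1-c) Y`, so `X ≤ 2 M^2 (Y - X)`; and
`Tn S h - En S h` has square norm `X` (`sq_sub_En`, `En_Tn_self`); `En S h` is invariant under the
shift by `a` (`En_shift`); `(x + y)^2 ≤ 2 x^2 + 2 y^2`. (`M` odd is not needed.) -/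

set_option autoImplicit false
set_option linter.all false

namespace Pool.Agent.Helper25.BG

section

variable {A : Type} [Finite A] {M : ℕ} [NeZero M]

open Classical in
/-- the noise operator of one coordinate -/
private theorem an3_Tn_one (a : A) (h : (A → ZMod M) → ℝ) (ω : A → ZMod M) :
    Tn {a} h ω = (h ω + h (ω + fun j => if j ∈ ({a} : Set A) then (1 : ZMod M) else 0)) / 2 := by
  classical
  have hinv : Function.Involutive (fun η : A → Bool => Function.update η a (!(η a))) := by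
    intro η
    funext j
    by_cases hj : j = a
    · subst hj; simp
    · simp [Function.update_of_ne hj]
  have h1 : Tn {a} h ω = av fun η : A → Bool =>
      h (ω + bsh {a} (Function.update η a (!(η a)))) :=
    (av_equiv hinv.toPerm (fun η : A → Bool => h (ω + bsh {a} η))).symm
  have h2 : ∀ η : A → Bool, h (ω + bsh {a} η) +
      h (ω + bsh {a} (Function.update η a (!(η a)))) =
      h ω + h (ω + fun j => if j ∈ ({a} : Set A) then (1 : ZMod M) else 0) := by
    intro η
    rcases Bool.eq_false_or_eq_true (η a) with h3 | h3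
    · have e1 : bsh {a} η = (fun j => if j ∈ ({a} : Set A) then (1 : ZMod M) else 0) := by
        funext j
        unfold bsh
        by_cases hj : j = a
        · subst hj; simp [h3]
        · simp [hj]
      have e2 : bsh {a} (Function.update η a (!(η a))) = (0 : A → ZMod M) := by
        funext j
        unfold bsh
        by_cases hj : j = a
        · subst hj; simp [h3]
        · simp [hj]
      rw [e1, e2, add_zero, add_comm]
    · have e1 : bsh {a} (Function.update η a (!(η a))) =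
          (fun j => if j ∈ ({a} : Set A) then (1 : ZMod M) else 0) := by
        funext j
        unfold bsh
        by_cases hj : j = a
        · subst hj; simp [h3]
        · simp [hj]
      have e2 : bsh {a} η = (0 : A → ZMod M) := by
        funext j
        unfold bsh
        by_cases hj : j = a
        · subst hj; simp [h3]
        · simp [hj]
      rw [e1, e2, add_zero]
  have h4 : Tn {a} h ω + Tn {a} h ω =
      h ω + h (ω + fun j => if j ∈ ({a} : Set A) then (1 : ZMod M) else 0) := by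
    nth_rewrite 2 [h1]
    show av _ + av _ = _
    rw [← av_add]
    rw [show (fun η : A → Bool => h (ω + bsh {a} η) +
      h (ω + bsh {a} (Function.update η a (!(η a))))) = fun _ =>
      h ω + h (ω + fun j => if j ∈ ({a} : Set A) then (1 : ZMod M) else 0) from funext h2]
    exact av_const _
  linarith

/-- shifting in steps -/
private theorem an3_steps (h : (A → ZMod M) → ℝ) (e : A → ZMod M) (n : ℕ) :
    av (fun ω => (h (ω + n • e) - h ω) ^ 2) ≤
      (n : ℝ) ^ 2 * av (fun ω => (h (ω + e) - h ω) ^ 2) := by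
  have h1 : ∀ ω, h (ω + n • e) - h ω =
      ∑ k ∈ Finset.range n, (h (ω + (k + 1) • e) - h (ω + k • e)) := by
    intro ω
    rw [Finset.sum_range_sub (fun k => h (ω + k • e)) n, zero_smul, add_zero]
  have h2 : ∀ ω, (h (ω + n • e) - h ω) ^ 2 ≤
      (n : ℝ) * ∑ k ∈ Finset.range n, (h (ω + k • e + e) - h (ω + k • e)) ^ 2 := by
    intro ω
    rw [h1 ω]
    have h3 := sq_sum_le_card_mul_sum_sq (s := Finset.range n)
      (f := fun k => h (ω + (k + 1) • e) - h (ω + k • e))
    rw [Finset.card_range] at h3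
    refine h3.trans (le_of_eq ?_)
    congr 1
    refine Finset.sum_congr rfl fun k _ => ?_
    rw [add_smul, one_smul, add_assoc]
  refine (av_mono h2).trans ?_
  rw [av_mul_left, av_sum]
  have h4 : ∀ k ∈ Finset.range n,
      av (fun ω => (h (ω + k • e + e) - h (ω + k • e)) ^ 2) =
        av (fun ω => (h (ω + e) - h ω) ^ 2) := fun k _ =>
    av_shift (fun ω => (h (ω + e) - h ω) ^ 2) (k • e)
  rw [Finset.sum_congr rfl h4, Finset.sum_const, Finset.card_range, nsmul_eq_mul]
  apply le_of_eq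
  ring

private theorem an3_val (t : ZMod M) :
    ((t.val : ℕ) : ℝ) ^ 2 + (((-t).val : ℕ) : ℝ) ^ 2 ≤ (M : ℝ) ^ 2 := by
  rw [ZMod.neg_val]
  split_ifs with h
  · subst h
    simp
  · have h1 : t.val ≤ M := (ZMod.val_lt t).le
    rw [Nat.cast_sub h1]
    have h2 : ((t.val : ℕ) : ℝ) ≤ M := by exact_mod_cast h1
    have h3 : (0 : ℝ) ≤ ((t.val : ℕ) : ℝ) := Nat.cast_nonneg _
    nlinarith

private theorem an3_c_nonneg : (0 : ℝ) ≤ 1 / (2 * (M : ℝ) ^ 2) := by positivity

private theorem an3_M_pos : (1 : ℝ) ≤ (M : ℝ) := by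
  exact_mod_cast Nat.one_le_iff_ne_zero.2 (NeZero.ne M)

private theorem an3_c_le : 1 / (2 * (M : ℝ) ^ 2) ≤ 1 := by
  have h1 := an3_M_pos (M := M)
  rw [div_le_one (by positivity)]
  nlinarith

theorem gap_one (a : A) (h : (A → ZMod M) → ℝ) :
    sq (Tn {a} h) ≤ (1 - 1 / (2 * (M : ℝ) ^ 2)) * sq h + 1 / (2 * (M : ℝ) ^ 2) * sq (En {a} h) := by
  classical
  set e : A → ZMod M := fun j => if j ∈ ({a} : Set A) then (1 : ZMod M) else 0 with he
  set D : ℝ := av (fun ω => (h (ω + e) - h ω) ^ 2) with hD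
  have hM := an3_M_pos (M := M)
  have hD0 : 0 ≤ D := av_nonneg fun ω => sq_nonneg _
  -- the noise
  have h1 : sq (Tn {a} h) = sq h - D / 4 := by
    have e1 : (fun ω => Tn {a} h ω ^ 2) = fun ω =>
        ((1 / 2) * h ω ^ 2 + (1 / 2) * h (ω + e) ^ 2) - (1 / 4) * (h (ω + e) - h ω) ^ 2 := by
      funext ω
      rw [an3_Tn_one a h ω]
      ring
    show av _ = _
    rw [e1, av_sub, av_add, av_mul_left, av_mul_left, av_mul_left,
      av_shift (fun ω => h ω ^ 2) e, ← hD]
    show 1 / 2 * sq h + 1 / 2 * sq h - 1 / 4 * D = sq h - D / 4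
    ring
  -- the full average
  have h2 : sq h - sq (En {a} h) ≤ (M : ℝ) ^ 2 / 2 * D := by
    rw [← sq_sub_En]
    have e1 : ∀ ω, (h ω - En {a} h ω) ^ 2 ≤ av fun ζ : A → ZMod M =>
        (h (ω + (ζ a).val • e) - h ω) ^ 2 := by
      intro ω
      have e2 : En {a} h ω = av fun ζ : A → ZMod M => h (ω + (ζ a).val • e) := by
        unfold En
        congr 1
        funext ζ
        congr 2
        funext j
        by_cases hj : j = a
        · subst hj
          simp [he, ZMod.natCast_zmod_val]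
        · simp [he, hj]
      have e3 : h ω - En {a} h ω = av fun ζ : A → ZMod M => h ω - h (ω + (ζ a).val • e) := by
        rw [av_sub, av_const, e2]
      rw [e3]
      refine (av_sq_le _).trans (le_of_eq ?_)
      congr 1
      funext ζ
      ring
    refine (av_mono e1).trans ?_
    rw [av_comm]
    have e4 : ∀ ζ : A → ZMod M, av (fun ω => (h (ω + (ζ a).val • e) - h ω) ^ 2) ≤
        (((ζ a).val : ℕ) : ℝ) ^ 2 * D := fun ζ => an3_steps h e _
    refine (av_mono e4).trans ?_
    rw [av_mul_right]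
    refine mul_le_mul_of_nonneg_right ?_ hD0
    have e5 : av (fun ζ : A → ZMod M => ((((-ζ) a).val : ℕ) : ℝ) ^ 2) =
        av (fun ζ : A → ZMod M => (((ζ a).val : ℕ) : ℝ) ^ 2) :=
      av_equiv (Equiv.neg (A → ZMod M)) (fun ζ : A → ZMod M => (((ζ a).val : ℕ) : ℝ) ^ 2)
    have e6 : av (fun ζ : A → ZMod M => (((ζ a).val : ℕ) : ℝ) ^ 2 +
        ((((-ζ) a).val : ℕ) : ℝ) ^ 2) ≤ (M : ℝ) ^ 2 := by
      have e7 : av (fun ζ : A → ZMod M => (((ζ a).val : ℕ) : ℝ) ^ 2 +
        ((((-ζ) a).val : ℕ) : ℝ) ^ 2) ≤ av (fun _ : A → ZMod M => (M : ℝ) ^ 2) :=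
        av_mono fun ζ => an3_val (ζ a)
      rwa [av_const] at e7
    rw [av_add, e5] at e6
    linarith
  -- conclusion
  rw [h1]
  have h3 : 1 / (2 * (M : ℝ) ^ 2) * (sq h - sq (En {a} h)) ≤ D / 4 := by
    calc 1 / (2 * (M : ℝ) ^ 2) * (sq h - sq (En {a} h))
        ≤ 1 / (2 * (M : ℝ) ^ 2) * ((M : ℝ) ^ 2 / 2 * D) :=
          mul_le_mul_of_nonneg_left h2 an3_c_nonneg
      _ = D / 4 := by
          have : (M : ℝ) ≠ 0 := by positivity
          field_simp
          ring
  linarith

theorem anova (S S' : Set A) (h : (A → ZMod M) → ℝ) :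
    sq (En S h) + sq (En S' h) ≤ sq h + sq (En S (En S' h)) := by
  have h1 := sq_sub_En S' h
  have h2 := sq_En_le S (fun ω => h ω - En S' h ω)
  rw [En_sub, En_comm S S' h, sq_sub_En S' (En S h), h1] at h2
  rw [En_comm S S' h]
  linarith

theorem gap (S : Set A) (h : (A → ZMod M) → ℝ) :
    sq (Tn S h) ≤ (1 - 1 / (2 * (M : ℝ) ^ 2)) * sq h + 1 / (2 * (M : ℝ) ^ 2) * sq (En S h) := by
  have hc0 := an3_c_nonneg (M := M)
  have hc1 := an3_c_le (M := M)
  set c : ℝ := 1 / (2 * (M : ℝ) ^ 2) with hc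
  have key : ∀ T : Set A, T.Finite → ∀ h : (A → ZMod M) → ℝ,
      sq (Tn T h) ≤ (1 - c) * sq h + c * sq (En T h) := by
    intro T hT
    induction T, hT using Set.Finite.induction_on with
    | empty =>
      intro h
      rw [Tn_empty, En_empty]
      apply le_of_eq
      ring
    | @insert a T haT hT ih =>
      intro h
      have hdis : Disjoint ({a} : Set A) T := Set.disjoint_singleton_left.2 haT
      have e1 : Tn (insert a T) h = Tn {a} (Tn T h) := by
        rw [Tn_Tn hdis, Set.singleton_union]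
      have e2 : En (insert a T) h = En T (En {a} h) := by
        rw [En_comm, En_En hdis, Set.singleton_union]
      have h1 := gap_one a (Tn T h)
      rw [← hc, En_Tn_comm] at h1
      have h2 := ih h
      have h3 := ih (En {a} h)
      have h4 := anova T {a} h
      rw [← e2] at h3 h4
      rw [e1]
      have h5 : (1 - c) * sq (Tn T h) ≤ (1 - c) * ((1 - c) * sq h + c * sq (En T h)) :=
        mul_le_mul_of_nonneg_left h2 (by linarith)
      have h6 : c * sq (Tn T (En {a} h)) ≤
          c * ((1 - c) * sq (En {a} h) + c * sq (En (insert a T) h)) :=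
        mul_le_mul_of_nonneg_left h3 hc0
      have h7 : c * (1 - c) * (sq (En T h) + sq (En {a} h)) ≤
          c * (1 - c) * (sq h + sq (En (insert a T) h)) :=
        mul_le_mul_of_nonneg_left h4 (mul_nonneg hc0 (by linarith))
      nlinarith
  exact key S (Set.toFinite S) h

theorem Wt_gap (g : (A → ZMod M) → ℝ) {U S : Set A} (h : S ⊆ U) {a : A → ZMod M}
    (ha : ∀ j, j ∉ S → a j = 0) :
    av (fun ω => (Tn U g (ω + a) - Tn U g ω) ^ 2) ≤ 8 * (M : ℝ) ^ 2 * Wt g U S := by
  have hM := an3_M_pos (M := M)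
  have hdis : Disjoint S (U \ S) := Set.disjoint_sdiff_right
  have hU : Tn U g = Tn S (Tn (U \ S) g) := by
    rw [Tn_Tn hdis, Set.union_diff_cancel h]
  set k : (A → ZMod M) → ℝ := Tn (U \ S) g with hk
  have h1 := gap S k
  have h2 : sq (fun ω => Tn S k ω - En S (Tn S k) ω) = sq (Tn S k) - sq (En S k) := by
    rw [sq_sub_En, En_Tn_self]
  rw [En_Tn_self] at h2
  have h3 : Wt g U S = sq k - sq (Tn S k) := by
    unfold Wt
    rw [hU]
  have h4 : av (fun ω => (Tn U g (ω + a) - Tn U g ω) ^ 2) ≤ 4 * (sq (Tn S k) - sq (En S k)) := by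
    rw [hU]
    have e1 : ∀ ω, (Tn S k (ω + a) - Tn S k ω) ^ 2 ≤
        2 * (Tn S k (ω + a) - En S k (ω + a)) ^ 2 + 2 * (Tn S k ω - En S k ω) ^ 2 := by
      intro ω
      rw [En_shift k ha ω]
      nlinarith [sq_nonneg ((Tn S k (ω + a) - En S k ω) + (Tn S k ω - En S k ω))]
    refine (av_mono e1).trans ?_
    rw [av_add, av_mul_left, av_mul_left,
      av_shift (fun ω => (Tn S k ω - En S k ω) ^ 2) a]
    have e2 : av (fun ω => (Tn S k ω - En S k ω) ^ 2) = sq (Tn S k) - sq (En S k) := h2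
    rw [e2]
    linarith
  have hc : (0 : ℝ) < 2 * (M : ℝ) ^ 2 := by positivity
  -- from the gap
  have h5 : sq (Tn S k) - sq (En S k) ≤ 2 * (M : ℝ) ^ 2 * (sq k - sq (Tn S k)) := by
    have e1 : 2 * (M : ℝ) ^ 2 * sq (Tn S k) ≤
        (2 * (M : ℝ) ^ 2 - 1) * sq k + sq (En S k) := by
      have e2 := mul_le_mul_of_nonneg_left h1 hc.le
      calc 2 * (M : ℝ) ^ 2 * sq (Tn S k) ≤ _ := e2
        _ = (2 * (M : ℝ) ^ 2 - 1) * sq k + sq (En S k) := by
          field_simp
    have e3 : sq (Tn S k) ≤ sq k := sq_Tn_le S k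
    linarith
  rw [h3]
  linarith

end

end Pool.Agent.Helper25.BG
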