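import Pool.Agent.Helper25.BG.Grid

/-! Module BG-Asg: thresholds and assignments.

`ch_card`: if the comparisons `kq M (e q) ≤ t j` have constant truth value for `t` near the cube
`a`, for all `j`, then `asg` is constant. So for `q ∈ Ch` there is `j` and `t, t'` near the cube
with `t j < kq M (e q) ≤ t' j`, whence `a j * (2 M) ≤ kq M (e q) ≤ (a j + 1) * (2 M)`; for a given `j`
there is at most one such `q` (the thresholds differ by at least `2 M + 4` and `e` is injective).
`ch_low`: if `κ0 M n < t (iq q)` then `kq M (e q) ≤ t' (iq q)` for all `t'` near the cube (two points near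
the cube differ by at most `2 M + 1`), so `asg t' q = iq q`. -/

set_option autoImplicit false
set_option linter.all false

namespace Pool.Agent.Helper25.BG

/-- threshold number `e` -/
def kq (M e : ℕ) : ℕ := 2 + e * (2 * M + 4)

/-- some `j` with `p j` -/
noncomputable def pick {r : ℕ} (p : Fin r → Prop) (d : Fin r) : Fin r :=
  letI := Classical.dec (∃ j, p j)
  if h : ∃ j, p j then h.choose else d

/-- the assignment -/
noncomputable def asg {Q : Type} {r : ℕ} (M : ℕ) (e : Q → ℕ) (iq : Q → Fin r) (t : Fin r → ℕ)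
    (q : Q) : Fin r :=
  if kq M (e q) ≤ t (iq q) then iq q else pick (fun j => kq M (e q) ≤ t j) (iq q)

/-- `t` is near the cube `a` -/
def Nr {r : ℕ} (M : ℕ) (a t : Fin r → ℕ) : Prop :=
  ∀ i, a i * (2 * M) ≤ t i + 1 ∧ t i ≤ (a i + 1) * (2 * M)

/-- the elements that change their assignment near the cube `a` -/
def Ch {Q : Type} {r : ℕ} (M : ℕ) (e : Q → ℕ) (iq : Q → Fin r) (a : Fin r → ℕ) : Set Q :=
  {q | ∃ t t', Nr M a t ∧ Nr M a t' ∧ asg M e iq t q ≠ asg M e iq t' q}

section

variable {Q : Type} {r M : ℕ} {e : Q → ℕ} {iq : Q → Fin r}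

theorem nr_cube (hM : 0 < M) (t : Fin r → ℕ) : Nr M (cube M t) t := by
  intro i
  have h1 : t i / (2 * M) * (2 * M) ≤ t i := Nat.div_mul_le_self _ _
  have h2 : t i < (t i / (2 * M) + 1) * (2 * M) := by
    have := Nat.lt_div_mul_add (a := t i) (b := 2 * M) (by omega)
    rw [add_mul, one_mul]
    exact this
  exact ⟨by unfold cube; omega, h2.le⟩

theorem nr_cube' (hM : 0 < M) {t t' : Fin r → ℕ} (h : Nb t t') : Nr M (cube M t') t := by
  intro i
  have h1 : t' i / (2 * M) * (2 * M) ≤ t' i := Nat.div_mul_le_self _ _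
  have h2 : t' i < (t' i / (2 * M) + 1) * (2 * M) := by
    have := Nat.lt_div_mul_add (a := t' i) (b := 2 * M) (by omega)
    rw [add_mul, one_mul]
    exact this
  have h3 := h i
  unfold cube
  constructor
  · omega
  · omega

theorem asg_kq_step {M m n : ℕ} (h : m < n) : kq M m + (2 * M + 4) ≤ kq M n := by
  unfold kq
  have : (m + 1) * (2 * M + 4) ≤ n * (2 * M + 4) := Nat.mul_le_mul_right _ h
  rw [add_mul, one_mul] at this
  omega

theorem asg_two_le (M n : ℕ) : 2 ≤ kq M n := by
  unfold kq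
  omega

theorem asg_pick_spec {r : ℕ} {p : Fin r → Prop} (d : Fin r) (h : ∃ j, p j) : p (pick p d) := by
  unfold pick
  rw [dif_pos h]
  exact h.choose_spec

theorem asg_ch_cross {a : Fin r → ℕ} {q : Q} (hq : q ∈ Ch M e iq a) :
    ∃ j, a j * (2 * M) ≤ kq M (e q) ∧ kq M (e q) ≤ (a j + 1) * (2 * M) := by
  obtain ⟨t, t', ht, ht', hne⟩ := hq
  by_contra hcon
  apply hne
  have key : ∀ j, (kq M (e q) ≤ t j ↔ kq M (e q) ≤ t' j) := by
    intro j
    by_contra hj
    apply hcon
    refine ⟨j, ?_⟩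
    obtain ⟨h1, h2⟩ := ht j
    obtain ⟨h3, h4⟩ := ht' j
    rcases Nat.lt_or_ge (t j) (kq M (e q)) with h5 | h5
    · rcases Nat.lt_or_ge (t' j) (kq M (e q)) with h6 | h6
      · exact absurd ⟨fun h => absurd h (by omega), fun h => absurd h (by omega)⟩ hj
      · exact ⟨by omega, by omega⟩
    · rcases Nat.lt_or_ge (t' j) (kq M (e q)) with h6 | h6
      · exact ⟨by omega, by omega⟩
      · exact absurd ⟨fun _ => h6, fun _ => h5⟩ hj
  unfold asg
  have h1 : (fun j => kq M (e q) ≤ t j) = fun j => kq M (e q) ≤ t' j := by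
    funext j
    exact propext (key j)
  rw [h1]
  simp only [key (iq q)]

theorem ch_card [Finite Q] (he : Function.Injective e) (a : Fin r → ℕ) :
    (Ch M e iq a).ncard ≤ r := by
  have h1 : Function.Injective (fun q : Ch M e iq a => (asg_ch_cross q.2).choose) := by
    intro q q' h
    obtain ⟨h2, h3⟩ := (asg_ch_cross q.2).choose_spec
    obtain ⟨h4, h5⟩ := (asg_ch_cross q'.2).choose_spec
    simp only at h
    rw [← h] at h4 h5
    apply Subtype.ext
    apply he
    rw [add_mul, one_mul] at h3 h5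
    rcases Nat.lt_trichotomy (e q.1) (e q'.1) with h6 | h6 | h6
    · have := asg_kq_step (M := M) h6
      omega
    · exact h6
    · have := asg_kq_step (M := M) h6
      omega
  have h2 := Nat.card_le_card_of_injective _ h1
  rw [Nat.card_coe_set_eq, Nat.card_fin] at h2
  exact h2

theorem ch_low {n : ℕ} {a t : Fin r → ℕ} {q : Q} (hq : q ∈ Ch M e iq a) (ht : Nr M a t)
    (hn : e q < n) : t (iq q) ≤ kq M n := by
  by_contra hcon
  obtain ⟨t1, t2, h1, h2, hne⟩ := hq
  apply hne
  have key : ∀ t', Nr M a t' → asg M e iq t' q = iq q := by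
    intro t' ht'
    unfold asg
    rw [if_pos]
    obtain ⟨h3, h4⟩ := ht (iq q)
    obtain ⟨h5, h6⟩ := ht' (iq q)
    have h7 := asg_kq_step (M := M) hn
    rw [add_mul, one_mul] at h4
    omega
  rw [key t1 h1, key t2 h2]

theorem asg_big {n : ℕ} {t : Fin r → ℕ} {q : Q} (hn : e q < n) (ht : ∃ j, kq M n ≤ t j) :
    2 ≤ t (asg M e iq t q) := by
  have h0 := asg_two_le M (e q)
  unfold asg
  split_ifs with h
  · omega
  · obtain ⟨j, hj⟩ := ht
    have h1 := asg_kq_step (M := M) hn
    have h2 := asg_pick_spec (p := fun j => kq M (e q) ≤ t j) (iq q) ⟨j, by omega⟩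
    omega

end

end Pool.Agent.Helper25.BG
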