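import Pool.Agent.Helper25.BG.Defs

/-! Module BG-BlkB: basic properties of blocks (inductions on the height `h`).

`blk_up`: the label sets `L v' (Y i)`, `L v' (Y j)` are disjoint because a common element `q` would give the
common element `P.res _ q` of `L v (Y i)`, `L v (Y j)` (`S.func`). `hit_up`: a block `X` for `v`
above `u ⊇ v'` is a block for `v'` (`blk_up`); project the common element of `g` and `L v' X`. -/

set_option autoImplicit false
set_option linter.all false

namespace Pool.Agent.Helper25.BG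

section

variable {J : Type} {P : Psh J} {r K : ℕ} {B : ℕ → ℕ} (S : Lab P r K B) (n : ℕ)

theorem blk_abv {v : Finset J} {h : ℕ} {X : Finset (Finset J)} (hX : Blk S n v h X) :
    ∀ U ∈ X, v ⊂ U := by
  induction h generalizing X with
  | zero =>
    obtain ⟨U, hU, rfl⟩ := hX
    intro U' hU'
    rw [Finset.mem_singleton] at hU'
    rw [hU']
    exact hU
  | succ h ih =>
    obtain ⟨Y, W, hvW, hY, hlt, hW, hdis, hmem⟩ := hX
    intro U hU
    rcases (hmem U).1 hU with rfl | ⟨i, hi⟩
    · exact hvW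
    · exact ih (hY i) U hi

theorem blk_card {v : Finset J} {h : ℕ} {X : Finset (Finset J)} (hX : Blk S n v h X) :
    X.card ≤ bs n h := by
  classical
  induction h generalizing X with
  | zero =>
    obtain ⟨U, hU, rfl⟩ := hX
    simp [bs]
  | succ h ih =>
    obtain ⟨Y, W, hvW, hY, hlt, hW, hdis, hmem⟩ := hX
    have h1 : X ⊆ insert W (Finset.univ.biUnion Y) := by
      intro U hU
      rcases (hmem U).1 hU with rfl | ⟨i, hi⟩
      · exact Finset.mem_insert_self _ _
      · exact Finset.mem_insert_of_mem (Finset.mem_biUnion.2 ⟨i, Finset.mem_univ _, hi⟩)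
    have h2 : (Finset.univ.biUnion Y).card ≤ n * bs n h := by
      refine le_trans Finset.card_biUnion_le ?_
      refine le_trans (Finset.sum_le_sum fun i _ => ih (hY i)) ?_
      simp
    refine le_trans (Finset.card_le_card h1) (le_trans (Finset.card_insert_le _ _) ?_)
    show _ ≤ n * bs n h + 1
    omega

theorem blk_top {v : Finset J} {h : ℕ} {X : Finset (Finset J)} (hX : Blk S n v h X) :
    ∃ W ∈ X, ∀ U ∈ X, U ⊆ W := by
  cases h with
  | zero =>
    obtain ⟨U, hU, rfl⟩ := hX
    refine ⟨U, Finset.mem_singleton_self _, ?_⟩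
    intro U' hU'
    rw [Finset.mem_singleton] at hU'
    rw [hU']
  | succ h =>
    obtain ⟨Y, W, hvW, hY, hlt, hW, hdis, hmem⟩ := hX
    refine ⟨W, (hmem W).2 (Or.inl rfl), ?_⟩
    intro U hU
    rcases (hmem U).1 hU with rfl | ⟨i, hi⟩
    · exact Finset.Subset.refl _
    · exact (hW i U hi).subset

theorem blk_up {v v' : Finset J} (hv : v ⊆ v') {h : ℕ} {X : Finset (Finset J)}
    (hX : Blk S n v h X) (hu : ∀ U ∈ X, v' ⊂ U) : Blk S n v' h X := by
  induction h generalizing X with
  | zero =>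
    obtain ⟨U, hU, rfl⟩ := hX
    exact ⟨U, hu U (Finset.mem_singleton_self _), rfl⟩
  | succ h ih =>
    obtain ⟨Y, W, hvW, hY, hlt, hW, hdis, hmem⟩ := hX
    refine ⟨Y, W, hu W ((hmem W).2 (Or.inl rfl)), ?_, hlt, hW, ?_, hmem⟩
    · intro i
      exact ih (hY i) (fun U hU => hu U ((hmem U).2 (Or.inr ⟨i, hU⟩)))
    · intro i j hij
      rw [Set.disjoint_left]
      intro q hqi hqj
      exact Set.disjoint_left.1 (hdis i j hij) (S.func hv (Y i) q hqi) (S.func hv (Y j) q hqj)

theorem good_up {v v' : Finset J} (hv : v ⊆ v') {h a b : ℕ} (hG : Good S n h v a b) :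
    Good S n h v' a b := by
  intro u hu hc
  obtain ⟨X, hX, hA⟩ := hG u (hv.trans hu) hc
  refine ⟨X, blk_up S n hv hX (fun U hU => ?_), hA⟩
  exact lt_of_le_of_lt (show v' ≤ u from hu) (hA U hU).1

theorem hit_mono {v u u' : Finset J} (hu : u ⊆ u') {h b b' : ℕ} (hb : b' ≤ b)
    {g : Finset (P.F v)} (hg : Hit S n h v u b g) : Hit S n h v u' b' g := by
  intro X hX hA
  exact hg X hX (fun U hU => ⟨lt_of_le_of_lt (show u ≤ u' from hu) (hA U hU).1,
    (hA U hU).2.trans hb⟩)

theorem hit_up {v v' u : Finset J} [DecidableEq (P.F v)] (hv : v ⊆ v') (hu : v' ⊆ u) {h b : ℕ}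
    {g : Finset (P.F v')} (hg : Hit S n h v' u b g) : Hit S n h v u b (g.image (P.res hv)) := by
  intro X hX hA
  have hX' : Blk S n v' h X := blk_up S n hv hX
    (fun U hU => lt_of_le_of_lt (show v' ≤ u from hu) (hA U hU).1)
  obtain ⟨q, hq, hqL⟩ := hg X hX' hA
  exact ⟨P.res hv q, Finset.mem_image_of_mem _ hq, S.func hv X q hqL⟩

theorem win_up {v v' : Finset J} (hv : v ⊆ v') {D h a b : ℕ} (hW : Win S n D h v' a b) :
    Win S n D h v a b := by
  classical
  obtain ⟨u, hu, hc, g, hg, hH⟩ := hW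
  exact ⟨u, hv.trans hu, hc, g.image (P.res hv), Finset.card_image_le.trans hg,
    hit_up S n hv hu hH⟩

end

end Pool.Agent.Helper25.BG
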