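import Pool.Agent.Helper25.BG.Defs
import Pool.Agent.Helper94.SWRamsey

/-! Module BG-Chain: the chain lemma.

Use `Pool.Agent.Helper94.SWRamsey.ramsey_general r κ (2 * r - 2)` with `κ = Fin r → Fin (b + 1)` for
`S = Finset.range (k + 1)`. For an `r`-subset `Z` of `range (k+1)` with elements `z 0 < … < z (r-1)`
(`Finset.orderEmbOfFin`), `S.join v (fun i => U (z i))` gives `q Z` with `q Z ∈ L v X` for all `X`
containing the `U (z j)`, `j ≠ i` (for every `i`). Colour of `Z`: the `i`-th component is the number of `q Z`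
in `L v (image U (Z.erase (z i)))`, for a fixed map `P.F v → Fin (b+1)` injective on this set (it
has at most `B (r-1) ≤ b` elements). Let `I` be homogeneous, `|I| = 2r - 2 ≥ r`. If `Z, Z' ⊆ I` are
`r`-sets and `Z' = (Z.erase (z i)) ∪ {z'}` with `z'` also in position `i`, then `q Z = q Z'` (same
number in the same set). Moving the elements down one after the other, `q Z = q Z0` for all `r`-sets `Z ⊆ I`
(`Z0` = the first `r` elements of `I`). Let `Z*` be the last `r - 1` elements of `I`, `q = q Z0`. Both `Z*` and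
the set of the first `r - 1` elements are of the form `Z` minus one element. The first `r-1` elements
are smaller than all of `Z*`. -/

set_option autoImplicit false
set_option linter.all false

namespace Pool.Agent.Helper25.BG

private theorem chain_num {α : Type} [Finite α] (A : Set α) (b : ℕ) :
    ∃ g : α → Fin (b + 1), A.ncard ≤ b → Set.InjOn g A := by
  classical
  by_cases h : A.ncard ≤ b
  · have e : A ≃ Fin (Nat.card A) := Finite.equivFin A
    refine ⟨fun x => if hx : x ∈ A then ⟨(e ⟨x, hx⟩).val, ?_⟩ else 0, fun _ => ?_⟩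
    · have h1 := (e ⟨x, hx⟩).isLt
      have h2 : Nat.card A = A.ncard := Nat.card_coe_set_eq A
      omega
    · intro x hx y hy hxy
      simp only [hx, hy, dif_pos, Fin.mk.injEq] at hxy
      have h2 : e ⟨x, hx⟩ = e ⟨y, hy⟩ := Fin.ext hxy
      exact congrArg Subtype.val (e.injective h2)
  · exact ⟨fun _ => 0, fun h' => absurd h' h⟩

/-- the conclusion of the chain lemma -/
def ChainP {J : Type} {P : Psh J} {r K : ℕ} {B : ℕ → ℕ} (S : Lab P r K B) (k : ℕ) : Prop :=
  ∀ (v : Finset J) (U : ℕ → Finset J), (∀ i j, i < j → j ≤ k → U i ⊂ U j) → v ⊆ U 0 →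
    (∀ i, i ≤ k → (U i).card ≤ K) →
      ∃ Z : Finset ℕ, Z.card = r - 1 ∧ (∀ z ∈ Z, 1 ≤ z ∧ z ≤ k) ∧ ∃ q : P.F v,
        (∀ X : Finset (Finset J), (∀ z ∈ Z, U z ∈ X) → q ∈ S.L v X) ∧
        ∀ X : Finset (Finset J), (∀ j, (∀ z ∈ Z, j < z) → U j ∈ X) → q ∈ S.L v X

theorem chain (r : ℕ) (hr : 2 ≤ r) (b : ℕ) : ∃ k : ℕ, ∀ (J : Type) (P : Psh J) (K : ℕ)
    (B : ℕ → ℕ) (hB : B (r - 1) ≤ b) (S : Lab P r K B), ChainP S k := by
  classical
  obtain ⟨N, hN⟩ := Pool.Agent.Helper94.SWRamsey.ramsey_general r (Fin r → Fin (b + 1)) (2 * r - 2)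
  refine ⟨N + r, ?_⟩
  intro J P K B hB S v U hU hv hK
  set k := N + r with hk
  -- the common labels
  have hU0 : ∀ i, i ≤ k → v ⊆ U i := by
    intro i hi
    rcases Nat.eq_zero_or_pos i with h0 | h0
    · rw [h0]; exact hv
    · exact hv.trans (hU 0 i h0 hi).subset
  have hjoin : ∀ a : Fin r → ℕ, StrictMono a → (∀ i, a i ≤ k) → ∃ q : P.F v,
      ∀ (i : Fin r) (X : Finset (Finset J)), (∀ j, j ≠ i → U (a j) ∈ X) → q ∈ S.L v X := by
    intro a ha hak
    exact S.join v (fun i => U (a i)) (fun i j hij => hU (a i) (a j) (ha hij) (hak j))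
      (fun i => hU0 _ (hak i)) (fun i => hK _ (hak i))
  obtain ⟨q00, -⟩ := hjoin (fun i => i.val) (fun i j hij => hij) (fun i => by
    have := i.isLt
    show i.val ≤ k
    omega)
  have hQ : ∀ a : Fin r → ℕ, ∃ q : P.F v, (StrictMono a ∧ ∀ i, a i ≤ k) →
      ∀ (i : Fin r) (X : Finset (Finset J)), (∀ j, j ≠ i → U (a j) ∈ X) → q ∈ S.L v X := by
    intro a
    by_cases h : StrictMono a ∧ ∀ i, a i ≤ k
    · obtain ⟨q, hq⟩ := hjoin a h.1 h.2
      exact ⟨q, fun _ => hq⟩
    · exact ⟨q00, fun h' => absurd h' h⟩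
  choose Q hQ using hQ
  have hnum : ∀ A : Set (P.F v), ∃ g : P.F v → Fin (b + 1), A.ncard ≤ b → Set.InjOn g A :=
    fun A => chain_num A b
  choose num hnum using hnum
  let Xi : (Fin r → ℕ) → Fin r → Finset (Finset J) := fun a i =>
    ((Finset.univ : Finset (Fin r)).erase i).image (fun j => U (a j))
  have hXi : ∀ a : Fin r → ℕ, StrictMono a → (∀ i, a i ≤ k) → ∀ i, (Xi a i).card = r - 1 := by
    intro a ha hak i
    have hinj : Function.Injective (fun j => U (a j)) := by
      intro j j' hjj
      by_contra hne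
      rcases lt_or_gt_of_ne hne with h | h
      · exact absurd hjj (hU _ _ (ha h) (hak _)).ne
      · exact absurd hjj.symm (hU _ _ (ha h) (hak _)).ne
    rw [Finset.card_image_of_injective _ hinj, Finset.card_erase_of_mem (Finset.mem_univ i),
      Finset.card_univ, Fintype.card_fin]
  let f : Finset ℕ → (Fin r → Fin (b + 1)) := fun Z =>
    if h : Z.card = r then
      fun i => num (S.L v (Xi (Z.orderEmbOfFin h) i)) (Q (Z.orderEmbOfFin h))
    else fun _ => 0
  obtain ⟨T, hTS, hTc, col, hcol⟩ := hN (Finset.range (k + 1)) (by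
    rw [Finset.card_range]; omega) f
  have hTk : ∀ z ∈ T, z ≤ k := fun z hz => by
    have := Finset.mem_range.mp (hTS hz)
    omega
  have hcol' : ∀ a : Fin r → ℕ, StrictMono a → (∀ i, a i ∈ T) → ∀ i,
      num (S.L v (Xi a i)) (Q a) = col i := by
    intro a ha haT i
    have hc : ((Finset.univ : Finset (Fin r)).image a).card = r := by
      rw [Finset.card_image_of_injective _ ha.injective, Finset.card_univ, Fintype.card_fin]
    have h1 := hcol ((Finset.univ : Finset (Fin r)).image a) (by
      intro x hx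
      obtain ⟨j, -, rfl⟩ := Finset.mem_image.mp hx
      exact haT j) hc
    have h2 : a = ((Finset.univ : Finset (Fin r)).image a).orderEmbOfFin hc :=
      Finset.orderEmbOfFin_unique hc (fun x => Finset.mem_image_of_mem _ (Finset.mem_univ x)) ha
    have h3 : f ((Finset.univ : Finset (Fin r)).image a) =
        fun i => num (S.L v (Xi a i)) (Q a) := by
      show (if h : ((Finset.univ : Finset (Fin r)).image a).card = r then _ else _) = _
      rw [dif_pos hc, ← h2]
    rw [h3] at h1
    exact congrFun h1 i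
  -- sliding one element
  have hslide : ∀ a a' : Fin r → ℕ, StrictMono a → StrictMono a' → (∀ i, a i ∈ T) →
      (∀ i, a' i ∈ T) → ∀ i : Fin r, (∀ j, j ≠ i → a j = a' j) → Q a = Q a' := by
    intro a a' ha ha' haT haT' i hij
    have hX : Xi a i = Xi a' i := by
      apply Finset.image_congr
      intro j hj
      have hj' : j ≠ i := (Finset.mem_erase.mp (Finset.mem_coe.mp hj)).1
      show U (a j) = U (a' j)
      rw [hij j hj']
    have h1 := hcol' a ha haT i
    have h2 := hcol' a' ha' haT' i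
    rw [← hX] at h2
    have hb : (S.L v (Xi a i)).ncard ≤ b := by
      refine (S.bound v (Xi a i)).trans ?_
      rw [hXi a ha (fun i => hTk _ (haT i)) i]
      exact hB
    have m1 : Q a ∈ S.L v (Xi a i) := hQ a ⟨ha, fun i => hTk _ (haT i)⟩ i _ (fun j hj =>
      Finset.mem_image_of_mem _ (Finset.mem_erase.mpr ⟨hj, Finset.mem_univ j⟩))
    have m2 : Q a' ∈ S.L v (Xi a i) := by
      rw [hX]
      exact hQ a' ⟨ha', fun i => hTk _ (haT' i)⟩ i _ (fun j hj =>
        Finset.mem_image_of_mem _ (Finset.mem_erase.mpr ⟨hj, Finset.mem_univ j⟩))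
    exact hnum _ hb m1 m2 (h1.trans h2.symm)
  -- enumeration of T
  obtain ⟨t, ht1, ht2⟩ : ∃ t : ℕ → ℕ, (∀ i j, i < j → j < 2 * r - 2 → t i < t j) ∧
      ∀ i, i < 2 * r - 2 → t i ∈ T := by
    refine ⟨fun i => if h : i < 2 * r - 2 then T.orderEmbOfFin hTc ⟨i, h⟩ else 0, ?_, ?_⟩
    · intro i j hij hj
      have hi : i < 2 * r - 2 := hij.trans hj
      simp only [hi, hj, dif_pos]
      exact (T.orderEmbOfFin hTc).strictMono hij
    · intro i hi
      simp only [hi, dif_pos]
      exact Finset.orderEmbOfFin_mem T hTc _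
  -- the intermediate chains
  let am : ℕ → Fin r → ℕ := fun m i => if i.val < m then t i.val else t (r - 2 + i.val)
  have ham : ∀ m, 1 ≤ m → StrictMono (am m) := by
    intro m hm i j hij
    have hij' : i.val < j.val := hij
    have hj := j.isLt
    show (if i.val < m then t i.val else t (r - 2 + i.val)) <
      (if j.val < m then t j.val else t (r - 2 + j.val))
    by_cases h1 : j.val < m
    · rw [if_pos (hij'.trans h1), if_pos h1]
      exact ht1 _ _ hij' (by omega)
    · rw [if_neg h1]
      split_ifs with h2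
      · exact ht1 _ _ (by omega) (by omega)
      · exact ht1 _ _ (by omega) (by omega)
  have hamT : ∀ m i, am m i ∈ T := by
    intro m i
    have hi := i.isLt
    show (if i.val < m then t i.val else t (r - 2 + i.val)) ∈ T
    split_ifs with h2
    · exact ht2 _ (by omega)
    · exact ht2 _ (by omega)
  have hQm : ∀ m, 1 ≤ m → m ≤ r → Q (am m) = Q (am 1) := by
    intro m hm
    induction m, hm using Nat.le_induction with
    | base => intro _; rfl
    | succ m hm ih =>
      intro hmr
      rw [← ih (by omega)]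
      refine hslide _ _ (ham _ (by omega)) (ham _ hm) (hamT _) (hamT _) ⟨m, by omega⟩ ?_
      intro j hj
      have hj' : j.val ≠ m := fun h => hj (Fin.ext h)
      show (if j.val < m + 1 then t j.val else t (r - 2 + j.val)) =
        (if j.val < m then t j.val else t (r - 2 + j.val))
      by_cases h1 : j.val < m
      · rw [if_pos h1, if_pos (by omega)]
      · rw [if_neg h1, if_neg (by omega)]
  have hQr : Q (am r) = Q (am 1) := hQm r (by omega) le_rfl
  have hgood : ∀ m, 1 ≤ m → (StrictMono (am m) ∧ ∀ i, am m i ≤ k) :=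
    fun m hm => ⟨ham m hm, fun i => hTk _ (hamT m i)⟩
  refine ⟨(Finset.Ico (r - 1) (2 * r - 2)).image t, ?_, ?_, Q (am 1), ?_, ?_⟩
  · rw [Finset.card_image_of_injOn, Nat.card_Ico]
    · omega
    · intro x hx y hy hxy
      rw [Finset.mem_coe, Finset.mem_Ico] at hx hy
      by_contra hne
      rcases lt_or_gt_of_ne hne with h | h
      · exact absurd hxy (ht1 _ _ h hy.2).ne
      · exact absurd hxy.symm (ht1 _ _ h hx.2).ne
  · intro z hz
    obtain ⟨i, hi, rfl⟩ := Finset.mem_image.mp hz
    rw [Finset.mem_Ico] at hi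
    have h1 := ht1 0 i (by omega) hi.2
    exact ⟨by omega, hTk _ (ht2 _ hi.2)⟩
  · intro X hX
    refine hQ (am 1) (hgood 1 le_rfl) ⟨0, by omega⟩ X ?_
    intro j hj
    have hj' : j.val ≠ 0 := fun h => hj (Fin.ext h)
    have hjr := j.isLt
    apply hX
    apply Finset.mem_image.mpr
    refine ⟨r - 2 + j.val, Finset.mem_Ico.mpr ⟨by omega, by omega⟩, ?_⟩
    show _ = (if j.val < 1 then t j.val else t (r - 2 + j.val))
    rw [if_neg (by omega)]
  · intro X hX
    rw [← hQr]
    refine hQ (am r) (hgood r (by omega)) ⟨r - 1, by omega⟩ X ?_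
    intro j hj
    have hj' : j.val ≠ r - 1 := fun h => hj (Fin.ext h)
    have hjr := j.isLt
    apply hX
    intro z hz
    obtain ⟨i, hi, rfl⟩ := Finset.mem_image.mp hz
    rw [Finset.mem_Ico] at hi
    show (if j.val < r then t j.val else t (r - 2 + j.val)) < t i
    rw [if_pos hjr]
    exact ht1 _ _ (by omega) hi.2

end Pool.Agent.Helper25.BG
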