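import Pool.Agent.Helper25.BG.Stack

/-! Module BG-StepA: the first case of the step.

`v` = union of the sets of `hno`, `p = 1, …, 1 + L (n+1)`; `v.card ≤ (1 + L (n+1)) * c 1 ≤ c 2 ≤ c (1 * G)`.
By `win_up`, `Win` fails for `v` for all these `p`. `stack` for `a i = c ((1 + j * (n+1) + i) * G)`,
`i ≤ n`, and `c (..) + 1 ≤ c (.. + G)`; Good is monotone in `b`. -/

set_option autoImplicit false
set_option linter.all false

namespace Pool.Agent.Helper25.BG

theorem step_a {J : Type} [Finite J] {P : Psh J} {r K : ℕ} {B : ℕ → ℕ} (S : Lab P r K B)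
    (n D h L G C : ℕ) (hB : Monotone B) (hD : (n - 1) * B (bs n h) ≤ D) (hG : 2 ≤ G)
    (hC : 1 + L * (n + 1) ≤ C) (c : ℕ → ℕ) (hc : ∀ i, C * (c i + 1) ≤ c (i + 1))
    (hcJ : c ((1 + L * (n + 1)) * G) < Nat.card J) (v0 : Finset J)
    (hno : ∀ p, 1 ≤ p → p ≤ 1 + L * (n + 1) → ∃ v', v0 ⊆ v' ∧ v'.card ≤ c 1 ∧
      ¬ Win S n D h v' (c (p * G)) (c ((p + 1) * G))) :
    ∃ v : Finset J, v.card ≤ c (1 * G) ∧ ∀ j, j < L →
      Good S n (h + 1) v (c ((1 + j * (n + 1)) * G)) (c ((1 + (j + 1) * (n + 1)) * G)) := by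
  classical
  -- the sequence `c` is increasing
  have hstep : ∀ i, c i + 1 ≤ c (i + 1) := by
    intro i
    have h1 : 1 ≤ C := by omega
    calc c i + 1 = 1 * (c i + 1) := (one_mul _).symm
      _ ≤ C * (c i + 1) := Nat.mul_le_mul_right _ h1
      _ ≤ c (i + 1) := hc i
  have hmono : Monotone c := monotone_nat_of_le_succ fun i => (Nat.le_succ _).trans (hstep i)
  have hstrict : ∀ i j, i < j → c i + 1 ≤ c j := fun i j hij => (hstep i).trans (hmono hij)
  choose w hw using hno
  let f : ℕ → Finset J := fun p =>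
    if hp : 1 ≤ p ∧ p ≤ 1 + L * (n + 1) then w p hp.1 hp.2 else ∅
  have hf : ∀ p (h1 : 1 ≤ p) (h2 : p ≤ 1 + L * (n + 1)), f p = w p h1 h2 := by
    intro p h1 h2
    simp only [f]
    rw [dif_pos ⟨h1, h2⟩]
  refine ⟨(Finset.Icc 1 (1 + L * (n + 1))).biUnion f, ?_, ?_⟩
  · have h1 : ((Finset.Icc 1 (1 + L * (n + 1))).biUnion f).card ≤ (1 + L * (n + 1)) * c 1 := by
      refine Finset.card_biUnion_le.trans ?_
      calc ∑ p ∈ Finset.Icc 1 (1 + L * (n + 1)), (f p).card
          ≤ ∑ _p ∈ Finset.Icc 1 (1 + L * (n + 1)), c 1 := by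
            apply Finset.sum_le_sum
            intro p hp
            rw [Finset.mem_Icc] at hp
            rw [hf p hp.1 hp.2]
            exact (hw p hp.1 hp.2).2.1
        _ = (1 + L * (n + 1)) * c 1 := by
            rw [Finset.sum_const, Nat.card_Icc, smul_eq_mul, Nat.add_sub_cancel]
    calc ((Finset.Icc 1 (1 + L * (n + 1))).biUnion f).card
        ≤ (1 + L * (n + 1)) * c 1 := h1
      _ ≤ C * (c 1 + 1) := Nat.mul_le_mul hC (Nat.le_succ _)
      _ ≤ c 2 := hc 1
      _ ≤ c (1 * G) := hmono (by omega)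
  · intro j hj
    have hwin : ∀ p, 1 ≤ p → p ≤ 1 + L * (n + 1) →
        ¬ Win S n D h ((Finset.Icc 1 (1 + L * (n + 1))).biUnion f) (c (p * G))
          (c ((p + 1) * G)) := by
      intro p h1 h2 hW
      apply (hw p h1 h2).2.2
      refine win_up S n ?_ hW
      rw [← hf p h1 h2]
      exact Finset.subset_biUnion_of_mem f (Finset.mem_Icc.2 ⟨h1, h2⟩)
    have hjL : (j + 1) * (n + 1) ≤ L * (n + 1) := Nat.mul_le_mul_right _ hj
    have e1 : (j + 1) * (n + 1) = j * (n + 1) + (n + 1) := by ring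
    have key := stack S n D h hB hD (v := (Finset.Icc 1 (1 + L * (n + 1))).biUnion f)
      (fun i => c ((1 + j * (n + 1) + i) * G)) ?_ ?_ ?_
    · simp only [add_zero] at key
      intro u hvu hu
      obtain ⟨X, hX, hXu⟩ := key u hvu hu
      refine ⟨X, hX, fun U hU => ⟨(hXu U hU).1, (hXu U hU).2.trans ?_⟩⟩
      apply hstrict
      have h5 : 1 + (j + 1) * (n + 1) = 1 + j * (n + 1) + n + 1 := by omega
      rw [h5]
      exact Nat.mul_lt_mul_of_pos_right (Nat.lt_succ_self _) (by omega)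
    · intro i
      apply hmono
      exact Nat.mul_le_mul_right _ (by omega)
    · intro i hi
      have := hwin (1 + j * (n + 1) + i) (by omega) (by omega)
      have h6 : 1 + j * (n + 1) + (i + 1) = 1 + j * (n + 1) + i + 1 := by omega
      simp only [h6]
      exact this
    · refine lt_of_le_of_lt (hmono ?_) hcJ
      exact Nat.mul_le_mul_right _ (by omega)

end Pool.Agent.Helper25.BG
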