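import Pool.Agent.Helper25.BG.Defs

/-! Module BG-Extr: a solution from a compatible family of `T`-sets.

`P.res h'` maps `g V` onto `g U`, two sets with `T` elements, hence bijectively. Let `q ∈ g w`. For
`x : J` let `V_x = insert x w` and `s x = ⟨V_x, q_x⟩`, `q_x ∈ g V_x` the element with `res q_x = q`. For `x, y` let
`W = insert x (insert y w)` and `t ∈ g W` the element with `res t = q`: its restriction to `V_x` is in
`g V_x` and restricts to `q`, so it is `q_x`; same for `y`. -/

set_option autoImplicit false
set_option linter.all false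

namespace Pool.Agent.Helper25.BG

open Classical in
theorem extract {J : Type} (P : Psh J) (T : ℕ) (hT : 1 ≤ T) (w : Finset J)
    (g : ∀ V : Finset J, w ⊆ V → V.card ≤ w.card + 2 → Finset (P.F V))
    (hcard : ∀ V h h', (g V h h').card = T)
    (hcomp : ∀ (U V : Finset J) (h : w ⊆ U) (h' : U ⊆ V) (h'' : V.card ≤ w.card + 2),
      (g V (h.trans h') h'').image (P.res h') = g U h ((Finset.card_le_card h').trans h'')) :
    Cons P := by
  have hw : w.card ≤ w.card + 2 := by omega
  obtain ⟨q, hq⟩ : (g w (Finset.Subset.refl w) hw).Nonempty := by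
    rw [← Finset.card_pos, hcard]
    omega
  have hinj : ∀ (V : Finset J) (h : w ⊆ V) (h' : V.card ≤ w.card + 2),
      Set.InjOn (P.res h) (g V h h' : Set (P.F V)) := by
    intro V h h'
    rw [← Finset.card_image_iff, hcard]
    have := hcomp w V (Finset.Subset.refl w) h h'
    rw [this, hcard]
  have hex : ∀ (V : Finset J) (h : w ⊆ V) (h' : V.card ≤ w.card + 2),
      ∃ t ∈ g V h h', P.res h t = q := by
    intro V h h'
    have := hcomp w V (Finset.Subset.refl w) h h'
    rw [← this, Finset.mem_image] at hq
    exact hq
  choose lf hlf1 hlf2 using hex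
  have hc1 : ∀ x, (insert x w).card ≤ w.card + 2 := fun x =>
    (Finset.card_insert_le x w).trans (by omega)
  have hc2 : ∀ x y, (insert x (insert y w)).card ≤ w.card + 2 := fun x y =>
    (Finset.card_insert_le x _).trans (Nat.succ_le_succ (Finset.card_insert_le y w))
  have hres : ∀ (U V : Finset J) (h : w ⊆ U) (h' : U ⊆ V) (h'' : V.card ≤ w.card + 2),
      P.res h' (lf V (h.trans h') h'') = lf U h ((Finset.card_le_card h').trans h'') := by
    intro U V h h' h''
    refine hinj U h ((Finset.card_le_card h').trans h'') ?_ (hlf1 _ _ _) ?_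
    · have := Finset.mem_image_of_mem (P.res h') (hlf1 V (h.trans h') h'')
      rw [hcomp U V h h' h''] at this
      exact this
    · rw [P.res_res, hlf2, hlf2]
  refine ⟨fun x => ⟨insert x w, lf (insert x w) (Finset.subset_insert _ _) (hc1 x)⟩,
    fun x => Finset.mem_insert_self _ _, fun x y => ?_⟩
  have hx : insert x w ⊆ insert x (insert y w) :=
    Finset.insert_subset_insert _ (Finset.subset_insert _ _)
  have hy : insert y w ⊆ insert x (insert y w) := Finset.subset_insert _ _
  refine ⟨insert x (insert y w), hx, hy,
    lf _ ((Finset.subset_insert _ _).trans hy) (hc2 x y), ?_, ?_⟩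
  · exact hres _ _ (Finset.subset_insert _ _) hx (hc2 x y)
  · exact hres _ _ (Finset.subset_insert _ _) hy (hc2 x y)

end Pool.Agent.Helper25.BG
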