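import Pool.Agent.Helper25.BG.Defs

/-! Module BG-HitC: the number of minimum hitting sets (pure combinatorics).

Claim, by induction on `j ≤ T`: for every finset `A` with `A.card + j = T`, the number of hitting sets `g ⊇ A`
with `g.card = T` is at most `b ^ j`. For `j + 1`: `A.card < T`, so by `hmin` some `F ∈ 𝓕` is not met
by `A`; every hitting `g ⊇ A` meets `F` in some `q ∉ A`, so `g ⊇ insert q A`; at most `b` choices of
`q`. For `j = 0` only `g = A`. -/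

set_option autoImplicit false
set_option linter.all false

namespace Pool.Agent.Helper25.BG

open Classical in
private theorem hit_count_aux {α : Type} [Finite α] (𝓕 : Set (Set α)) (b T : ℕ)
    (h𝓕 : ∀ F ∈ 𝓕, F.ncard ≤ b)
    (hmin : ∀ g : Finset α, g.card < T → ∃ F ∈ 𝓕, ∀ q ∈ g, q ∉ F) (j : ℕ) :
    ∀ A : Finset α, A.card + j = T →
      {g : Finset α | A ⊆ g ∧ g.card = T ∧ ∀ F ∈ 𝓕, ∃ q ∈ g, q ∈ F}.ncard ≤ b ^ j := by
  haveI : Fintype α := Fintype.ofFinite α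
  induction j with
  | zero =>
    intro A hA
    have hsub : {g : Finset α | A ⊆ g ∧ g.card = T ∧ ∀ F ∈ 𝓕, ∃ q ∈ g, q ∈ F} ⊆ {A} := by
      rintro g ⟨h1, h2, -⟩
      exact (Finset.eq_of_subset_of_card_le h1 (by omega)).symm
    calc _ ≤ ({A} : Set (Finset α)).ncard := Set.ncard_le_ncard hsub (Set.finite_singleton A)
      _ = b ^ 0 := by simp
  | succ j ih =>
    intro A hA
    obtain ⟨F, hF, hAF⟩ := hmin A (by omega)
    have hFfin : F.Finite := Set.toFinite F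
    have hsub : {g : Finset α | A ⊆ g ∧ g.card = T ∧ ∀ F ∈ 𝓕, ∃ q ∈ g, q ∈ F} ⊆
        ⋃ q ∈ hFfin.toFinset,
          {g : Finset α | insert q A ⊆ g ∧ g.card = T ∧ ∀ F ∈ 𝓕, ∃ q ∈ g, q ∈ F} := by
      rintro g ⟨h1, h2, h3⟩
      obtain ⟨q, hq, hqF⟩ := h3 F hF
      refine Set.mem_iUnion₂.2 ⟨q, hFfin.mem_toFinset.2 hqF, ?_, h2, h3⟩
      exact Finset.insert_subset hq h1
    calc _ ≤ (⋃ q ∈ hFfin.toFinset,
          {g : Finset α | insert q A ⊆ g ∧ g.card = T ∧ ∀ F ∈ 𝓕, ∃ q ∈ g, q ∈ F}).ncard :=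
          Set.ncard_le_ncard hsub (Set.toFinite _)
      _ ≤ ∑ q ∈ hFfin.toFinset,
          {g : Finset α | insert q A ⊆ g ∧ g.card = T ∧ ∀ F ∈ 𝓕, ∃ q ∈ g, q ∈ F}.ncard :=
          Finset.set_ncard_biUnion_le _ _
      _ ≤ ∑ q ∈ hFfin.toFinset, b ^ j := by
          refine Finset.sum_le_sum fun q hq => ih _ ?_
          have hqA : q ∉ A := fun h => hAF q h (hFfin.mem_toFinset.1 hq)
          rw [Finset.card_insert_of_notMem hqA]
          omega
      _ = hFfin.toFinset.card * b ^ j := by simp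
      _ ≤ b * b ^ j := by
          refine Nat.mul_le_mul_right _ ?_
          rw [← Set.ncard_eq_toFinset_card F hFfin]
          exact h𝓕 F hF
      _ = b ^ (j + 1) := by ring

theorem hit_count {α : Type} [Finite α] (𝓕 : Set (Set α)) (b T : ℕ)
    (h𝓕 : ∀ F ∈ 𝓕, F.ncard ≤ b)
    (hmin : ∀ g : Finset α, g.card < T → ∃ F ∈ 𝓕, ∀ q ∈ g, q ∉ F) :
    {g : Finset α | g.card = T ∧ ∀ F ∈ 𝓕, ∃ q ∈ g, q ∈ F}.ncard ≤ b ^ T := by
  have h := hit_count_aux 𝓕 b T h𝓕 hmin T ∅ (by simp)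
  simpa using h

end Pool.Agent.Helper25.BG
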