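import Pool.Agent.Helper25.BG.Defs
import Pool.Agent.Helper77.BG.ML

/-! Module BG-ML: Mittag-Leffler for bounded inverse systems.

All sets `V` below satisfy `v1 ⊆ V`, `V.card ≤ v1.card + mlA E`. `Ev m v` = intersection of the images of
`S V → S v` over `V ⊇ v`, `V.card ≤ v.card + m`.
(a) `Ev m v` contains the image of `S V` for some `V ⊇ v` with `V.card ≤ v.card + E * m` (unions of at
most `E` sets `V`, each removing one more element of `S v`, which has at most `E` elements; images of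
unions are in the intersection of images, by `hmap` and `hπ`). In particular it is nonempty.
(b) `v ⊆ v'`: `π` maps `Ev m v'` to `Ev m v` (replace `V ⊇ v` by `V ∪ v' ⊇ v'`:
`(V ∪ v').card ≤ v'.card + m`).
(c) `v ⊆ v'` and `(v'.card - v.card) + E * m ≤ m'`: every element of `Ev m' v` is the image of an
element of `Ev m v'` (by (a) for `v'`).
`m_i = mlm E i`. `Mx i k` = maximum of `(Ev m_i v).ncard` over `v ⊇ v1`, `v.card ≤ v1.card + k`; it is
increasing in `k`, decreasing in `i`, between `1` and `E`. The numbers `Mx (E - t) (2 t)`, `t = 0, …, E`, increase,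
so two consecutive ones are equal: there are `i < E`, `k ≤ 2E` with `Mx (i+1) k = Mx i k = Mx i (k+2) = e`. Let
`w` attain `Mx (i+1) k`. Then `Ev m_i w = Ev m_{i+1} w` has `e` elements, and for `V ⊇ w` with
`V.card ≤ w.card + 2`, `π : Ev m_i V → Ev m_i w` is onto by (c) and `Ev m_i V` has at most `e`
elements; so it is a bijection. Choose `g_w ∈ Ev m_i w` and let `g V` be its unique preimage in
`Ev m_i V`. -/

set_option autoImplicit false
set_option linter.all false

namespace Pool.Agent.Helper25.BG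

/-- scales -/
def mlm (E : ℕ) : ℕ → ℕ
  | 0 => 0
  | i + 1 => 2 + E * mlm E i + mlm E i

/-- the range -/
def mlA (E : ℕ) : ℕ := 2 * E + 4 + (E + 1) * mlm E (E + 1)

theorem ml_mm_le (E : ℕ) : ∀ i, Pool.Agent.Helper77.BG.mm E i ≤ mlm E i
  | 0 => le_rfl
  | i + 1 => by
    have h := ml_mm_le E i
    have h1 : E * Pool.Agent.Helper77.BG.mm E i ≤ E * mlm E i := Nat.mul_le_mul_left E h
    show 2 + E * Pool.Agent.Helper77.BG.mm E i ≤ 2 + E * mlm E i + mlm E i
    omega

theorem ml_mlm_succ (E i : ℕ) : mlm E i ≤ mlm E (i + 1) := by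
  show mlm E i ≤ 2 + E * mlm E i + mlm E i
  omega

theorem ml_AA_le (E : ℕ) : Pool.Agent.Helper77.BG.AA E ≤ mlA E := by
  have h1 : Pool.Agent.Helper77.BG.mm E E ≤ mlm E (E + 1) :=
    (ml_mm_le E E).trans (ml_mlm_succ E E)
  have h2 : (E + 1) * Pool.Agent.Helper77.BG.mm E E ≤ (E + 1) * mlm E (E + 1) :=
    Nat.mul_le_mul_left _ h1
  unfold Pool.Agent.Helper77.BG.AA mlA
  omega

theorem ml {J : Type} (T : Finset J → Type) (π : ∀ {U V : Finset J}, U ⊆ V → T V → T U)
    (hπ0 : ∀ {V : Finset J} (s : T V), π (Finset.Subset.refl V) s = s)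
    (hπ : ∀ {U V W : Finset J} (h : U ⊆ V) (h' : V ⊆ W) (s : T W),
      π h (π h' s) = π (h.trans h') s)
    (E : ℕ) (v1 : Finset J) (S : ∀ V : Finset J, Set (T V))
    (hfin : ∀ V, v1 ⊆ V → V.card ≤ v1.card + mlA E → (S V).Finite)
    (hne : ∀ V, v1 ⊆ V → V.card ≤ v1.card + mlA E → (S V).Nonempty)
    (hE : ∀ V, v1 ⊆ V → V.card ≤ v1.card + mlA E → (S V).ncard ≤ E)
    (hmap : ∀ {U V : Finset J} (h : U ⊆ V), v1 ⊆ U → V.card ≤ v1.card + mlA E →
      ∀ s ∈ S V, π h s ∈ S U) :
    ∃ w : Finset J, v1 ⊆ w ∧ w.card + 2 ≤ v1.card + mlA E ∧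
      ∃ g : ∀ V : Finset J, w ⊆ V → V.card ≤ w.card + 2 → T V,
        (∀ V h h', g V h h' ∈ S V) ∧
        ∀ (U V : Finset J) (h : w ⊆ U) (h' : U ⊆ V) (h'' : V.card ≤ w.card + 2),
          π h' (g V (h.trans h') h'') = g U h ((Finset.card_le_card h').trans h'') := by
  classical
  have hA := ml_AA_le E
  have hc : ∀ V, v1 ⊆ V → (V \ v1).card ≤ Pool.Agent.Helper77.BG.AA E →
      V.card ≤ v1.card + mlA E := by
    intro V h hV
    have h1 : (V \ v1).card + v1.card = V.card := Finset.card_sdiff_add_card_eq_card h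
    omega
  obtain ⟨w, hw, hwc, g, hg1, hg2⟩ := Pool.Agent.Helper77.BG.ml E
    (G := T) (fun v v' h => π h) (fun h h' s => hπ h h' s) S v1
    (fun V h hV => hfin V h (hc V h hV)) (fun V h hV => hne V h (hc V h hV))
    (fun V h hV => hE V h (hc V h hV))
    (fun {U V} h hU hV s hs => hmap h hU (hc V (hU.trans h) hV) s hs)
  have hw1 : (w \ v1).card + v1.card = w.card := Finset.card_sdiff_add_card_eq_card hw
  have hd : ∀ V, w ⊆ V → V.card ≤ w.card + 2 → (V \ w).card ≤ 2 := by
    intro V h hV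
    have h1 : (V \ w).card + w.card = V.card := Finset.card_sdiff_add_card_eq_card h
    omega
  refine ⟨w, hw, by omega, fun V h h' => g V h (hd V h h'), ?_, ?_⟩
  · intro V h h'
    exact hg1 V h _
  · intro U V h h' h''
    exact hg2 U V h _ (h.trans h') _ h'

end Pool.Agent.Helper25.BG
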