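import Pool.Agent.Helper25.BG.Defs

/-! Module BG-Stab: stabilisation of a bounded monotone function.

By contradiction: by induction on `j ≤ Q + 1` there is `v ⊇ v0` with `v.card ≤ s + j * A` and
`j ≤ Φ v`. For `j = Q + 1` this contradicts `hb`. -/

set_option autoImplicit false
set_option linter.all false

namespace Pool.Agent.Helper25.BG

theorem stab {J : Type} (Φ : Finset J → ℕ) (Q A s : ℕ) (v0 : Finset J) (hv0 : v0.card ≤ s)
    (hmono : ∀ v v', v0 ⊆ v → v ⊆ v' → v'.card ≤ s + (Q + 1) * A → Φ v ≤ Φ v')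
    (hb : ∀ v, v0 ⊆ v → v.card ≤ s + (Q + 1) * A → Φ v ≤ Q) :
    ∃ v1, v0 ⊆ v1 ∧ v1.card ≤ s + Q * A ∧
      ∀ v, v1 ⊆ v → v.card ≤ v1.card + A → Φ v = Φ v1 := by
  by_contra hcon
  push Not at hcon
  have key : ∀ j : ℕ, j ≤ Q + 1 → ∃ v : Finset J, v0 ⊆ v ∧ v.card ≤ s + j * A ∧ j ≤ Φ v := by
    intro j
    induction j with
    | zero =>
      intro _
      exact ⟨v0, subset_rfl, by omega, Nat.zero_le _⟩
    | succ j ih =>
      intro hj
      obtain ⟨v, hv, hc, hΦ⟩ := ih (by omega)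
      have h1 : j * A ≤ Q * A := Nat.mul_le_mul_right A (by omega)
      obtain ⟨w, hw, hwc, hne⟩ := hcon v hv (by omega)
      have h2 : (j + 1) * A = j * A + A := by ring
      have h3 : (Q + 1) * A = Q * A + A := by ring
      have hm := hmono v w hv hw (by omega)
      refine ⟨w, hv.trans hw, by omega, ?_⟩
      have : Φ v ≠ Φ w := fun h => hne h.symm
      omega
  obtain ⟨v, hv, hc, hΦ⟩ := key (Q + 1) le_rfl
  have := hb v hv hc
  omega

end Pool.Agent.Helper25.BG
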