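import Pool.Agent.Helper25.BG.BlkB
import Pool.Agent.Helper25.BG.HitC
import Pool.Agent.Helper25.BG.Stab
import Pool.Agent.Helper25.BG.ML
import Pool.Agent.Helper25.BG.Extr

/-! Module BG-StepB: the second case of the step.

`G = D + 2`, `bb i = c (p * G + i)`, `b' = bb G = c ((p+1) * G)`. For `v ⊇ v0` with `v.card ≤ c 1` let
`T i v` = least `g.card` with `Hit S n h v u b' g` for some `u ⊇ v` with `u.card ≤ bb i` (`Nat.find` or
`sInf`). `T i v ≤ D` (`hwin`, `bb 0 ≤ bb i`); `1 ≤ T i v` for `i < G` (an empty `g` is not hitting, by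
`hgood` at `p * G + i` and `good_up`); `T (i+1) v ≤ T i v`; `T i v ≤ T i v'` for `v ⊆ v'`
(`hit_up`, `Finset.card_image_le`). `Φ v = ∑ i < G, T i v ≤ D * G`; `stab` with `Q = D * G`,
`A = mlA EE`, `EE = (B (bs n h) + 1) ^ D`, `s = c 0` (`c 0 + (Q+1) * A ≤ c 1` by `hC`) gives
`v1`; so `T i v = T i v1` for all `i < G` and `v ⊇ v1` with `v.card ≤ v1.card + A`. Pigeonhole: `T i v1 =
T (i+1) v1 =: T0` for some `i` with `i + 1 < G` (values in `[1, D]`, decreasing, `G = D + 2`).
`SS v` = set of the finsets `g` of `P.F v` with `g.card = T0` and `Hit S n h v u b' g` for some `u ⊇ v`,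
`u.card ≤ bb i`. Apply `ml` with `T V = Finset (P.F V)`, `π h = Finset.image (P.res h)`,
`E = EE`, `S = SS`: nonempty (definition of `T i v`); `hmap`: the image is hitting (`hit_up`), and has
exactly `T0` elements (at most `T0`, and at least `T i U = T0`); `hE`: otherwise take `EE + 1` elements of
`SS v` and the union `u` of their sets `u`, `u.card ≤ (EE+1) * bb i ≤ bb (i+1)`; by `hit_mono` they are all
hitting for `u`, and `hit_count` for the family of the sets `L v X`, `X` a block above `u` with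
sizes `≤ b'` (each has at most `B (bs n h)` elements, `blk_card`), and `T = T0` (`hmin` because
`T (i+1) v = T0`) gives at most `(B (bs n h)) ^ T0 ≤ EE` of them. Then `extract`. -/

set_option autoImplicit false
set_option linter.all false

namespace Pool.Agent.Helper25.BG

/-- the bound for the number of minimum hitting sets -/
def cE (B : ℕ → ℕ) (n D h : ℕ) : ℕ := (B (bs n h) + 1) ^ D

section

variable {J : Type} {P : Psh J} {r K : ℕ} {B : ℕ → ℕ} (S : Lab P r K B) (n : ℕ)

/-- least size of a hitting set -/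
noncomputable def stepb_T (h b a : ℕ) (v : Finset J) : ℕ :=
  sInf {k | ∃ u, v ⊆ u ∧ u.card ≤ a ∧ ∃ g : Finset (P.F v), g.card = k ∧ Hit S n h v u b g}

theorem stepb_le {h b a : ℕ} {v u : Finset J} (hu : v ⊆ u) (ha : u.card ≤ a)
    {g : Finset (P.F v)} (hg : Hit S n h v u b g) : stepb_T S n h b a v ≤ g.card :=
  Nat.sInf_le ⟨u, hu, ha, g, rfl, hg⟩

theorem stepb_mem {D h b a : ℕ} {v : Finset J} (hW : Win S n D h v a b) :
    ∃ u, v ⊆ u ∧ u.card ≤ a ∧ ∃ g : Finset (P.F v),
      g.card = stepb_T S n h b a v ∧ Hit S n h v u b g := by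
  obtain ⟨u, hu, ha, g, _, hg⟩ := hW
  have hne : {k | ∃ u, v ⊆ u ∧ u.card ≤ a ∧ ∃ g : Finset (P.F v), g.card = k ∧
      Hit S n h v u b g}.Nonempty := ⟨g.card, u, hu, ha, g, rfl, hg⟩
  exact Nat.sInf_mem hne

theorem stepb_leD {D h b a : ℕ} {v : Finset J} (hW : Win S n D h v a b) :
    stepb_T S n h b a v ≤ D := by
  obtain ⟨u, hu, ha, g, hc, hg⟩ := hW
  exact (stepb_le S n hu ha hg).trans hc

theorem stepb_win {D h b a a' : ℕ} (haa : a ≤ a') {v : Finset J} (hW : Win S n D h v a b) :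
    Win S n D h v a' b := by
  obtain ⟨u, hu, ha, g, hc, hg⟩ := hW
  exact ⟨u, hu, ha.trans haa, g, hc, hg⟩

theorem stepb_anti {D h b a a' : ℕ} (haa : a ≤ a') {v : Finset J} (hW : Win S n D h v a b) :
    stepb_T S n h b a' v ≤ stepb_T S n h b a v := by
  obtain ⟨u, hu, ha, g, hc, hg⟩ := stepb_mem S n hW
  rw [← hc]
  exact stepb_le S n hu (ha.trans haa) hg

theorem stepb_mono {D h b a : ℕ} {v v' : Finset J} (hv : v ⊆ v') (hW : Win S n D h v' a b) :
    stepb_T S n h b a v ≤ stepb_T S n h b a v' := by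
  classical
  obtain ⟨u, hu, ha, g, hc, hg⟩ := stepb_mem S n hW
  rw [← hc]
  exact (stepb_le S n (hv.trans hu) ha (hit_up S n hv hu hg)).trans Finset.card_image_le

theorem stepb_pos {D h b b0 a : ℕ} {v : Finset J} (hG : Good S n h v a b0) (hb : b0 ≤ b)
    (hW : Win S n D h v a b) : 1 ≤ stepb_T S n h b a v := by
  obtain ⟨u, hu, ha, g, hc, hg⟩ := stepb_mem S n hW
  rw [← hc]
  obtain ⟨X, hX, hX'⟩ := hG u hu ha
  obtain ⟨q, hq, _⟩ := hg X hX fun U hU => ⟨(hX' U hU).1, (hX' U hU).2.trans hb⟩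
  exact Finset.card_pos.2 ⟨q, hq⟩

theorem stepb_E {D h b a a' T0 : ℕ} (hB : Monotone B) {v : Finset J}
    (hT : stepb_T S n h b a' v = T0) (hTD : T0 ≤ D) (haa : (cE B n D h + 1) * a ≤ a') :
    {g : Finset (P.F v) | g.card = T0 ∧ ∃ u, v ⊆ u ∧ u.card ≤ a ∧ Hit S n h v u b g}.ncard ≤
      cE B n D h := by
  classical
  by_contra hlt
  rw [not_le] at hlt
  have hfin : {g : Finset (P.F v) | g.card = T0 ∧ ∃ u, v ⊆ u ∧ u.card ≤ a ∧
      Hit S n h v u b g}.Finite := Set.toFinite _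
  rw [Set.ncard_eq_toFinset_card _ hfin] at hlt
  obtain ⟨t, ht, htc⟩ := Finset.exists_subset_card_eq hlt
  have hex : ∀ g : Finset (P.F v), g ∈ t → ∃ u, v ⊆ u ∧ u.card ≤ a ∧ Hit S n h v u b g := by
    intro g hg
    have := ht hg
    rw [Set.Finite.mem_toFinset] at this
    exact this.2
  have hcd : ∀ g : Finset (P.F v), g ∈ t → g.card = T0 := by
    intro g hg
    have := ht hg
    rw [Set.Finite.mem_toFinset] at this
    exact this.1
  choose! U hU1 hU2 hU3 using hex
  have htne : t.Nonempty := by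
    rw [← Finset.card_pos, htc]
    omega
  have hvu : v ⊆ t.biUnion U := by
    obtain ⟨g, hg⟩ := htne
    exact (hU1 g hg).trans (Finset.subset_biUnion_of_mem U hg)
  have huc : (t.biUnion U).card ≤ a' := by
    refine (Finset.card_biUnion_le_card_mul t U a hU2).trans ?_
    rw [htc]
    exact haa
  have hcount := hit_count (α := P.F v)
    {F | ∃ X, Blk S n v h X ∧ Abv (t.biUnion U) b X ∧ F = S.L v X} (B (bs n h)) T0
    (by
      rintro F ⟨X, hX, _, rfl⟩
      exact (S.bound v X).trans (hB (blk_card S n hX)))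
    (by
      intro g hg
      by_contra hcon
      have hh : Hit S n h v (t.biUnion U) b g := by
        intro X hX hX'
        by_contra hno
        apply hcon
        refine ⟨S.L v X, ⟨X, hX, hX', rfl⟩, fun q hq hqL => hno ⟨q, hq, hqL⟩⟩
      have := stepb_le S n hvu huc hh
      rw [hT] at this
      omega)
  have hsub : (t : Set (Finset (P.F v))) ⊆ {g : Finset (P.F v) | g.card = T0 ∧
      ∀ F ∈ {F | ∃ X, Blk S n v h X ∧ Abv (t.biUnion U) b X ∧ F = S.L v X}, ∃ q ∈ g, q ∈ F} := by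
    intro g hg
    refine ⟨hcd g hg, ?_⟩
    rintro F ⟨X, hX, hX', rfl⟩
    exact hit_mono S n (Finset.subset_biUnion_of_mem U hg) le_rfl (hU3 g hg) X hX hX'
  have h1 := Set.ncard_le_ncard hsub (Set.toFinite _)
  rw [Set.ncard_coe_finset, htc] at h1
  have h2 : B (bs n h) ^ T0 ≤ cE B n D h :=
    (Nat.pow_le_pow_left (Nat.le_succ _) T0).trans (Nat.pow_le_pow_right (Nat.succ_pos _) hTD)
  omega

end

theorem step_b {J : Type} [Finite J] {P : Psh J} {r K : ℕ} {B : ℕ → ℕ} (S : Lab P r K B)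
    (n D h C : ℕ) (hB : Monotone B)
    (hC : cE B n D h + 1 + (1 + (D * (D + 2) + 1) * mlA (cE B n D h)) ≤ C) (c : ℕ → ℕ)
    (hc : ∀ i, C * (c i + 1) ≤ c (i + 1)) (v0 : Finset J) (hv0 : v0.card ≤ c 0) (p : ℕ)
    (hp : 1 ≤ p)
    (hgood : ∀ i, i < (p + 1) * (D + 2) → Good S n h v0 (c i) (c (i + 1)))
    (hwin : ∀ v', v0 ⊆ v' → v'.card ≤ c 1 →
      Win S n D h v' (c (p * (D + 2))) (c ((p + 1) * (D + 2)))) : Cons P := by
  classical
  have hC1 : 1 ≤ C := by omega
  have hcs : ∀ i, c i + 1 ≤ c (i + 1) := fun i =>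
    (Nat.le_mul_of_pos_left _ hC1).trans (hc i)
  have hcm : Monotone c := monotone_nat_of_le_succ fun i => (Nat.le_succ _).trans (hcs i)
  have hw : ∀ v, v0 ⊆ v → v.card ≤ c 1 → ∀ i,
      Win S n D h v (c (p * (D + 2) + i)) (c ((p + 1) * (D + 2))) := fun v hv hv1 i =>
    stepb_win S n (hcm (Nat.le_add_right _ _)) (hwin v hv hv1)
  have hc1 : c 0 + (D * (D + 2) + 1) * mlA (cE B n D h) ≤ c 1 := by
    have h1 := hc 0
    have h2 : (cE B n D h + 1 + (1 + (D * (D + 2) + 1) * mlA (cE B n D h))) * (c 0 + 1) ≤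
        c (0 + 1) := (Nat.mul_le_mul_right _ hC).trans h1
    simp only [Nat.zero_add] at h2
    nlinarith
  obtain ⟨v1, h01, hv1, hst⟩ := stab
    (fun v => ∑ i ∈ Finset.range (D + 2),
      stepb_T S n h (c ((p + 1) * (D + 2))) (c (p * (D + 2) + i)) v)
    (D * (D + 2)) (mlA (cE B n D h)) (c 0) v0 hv0
    (fun v v' hv hvv hv' => Finset.sum_le_sum fun i _ =>
      stepb_mono S n hvv (hw v' (hv.trans hvv) (hv'.trans hc1) i))
    (fun v hv hv' => by
      refine (Finset.sum_le_card_nsmul _ _ D fun i _ =>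
        stepb_leD S n (hw v hv (hv'.trans hc1) i)).trans ?_
      rw [Finset.card_range, smul_eq_mul, mul_comm])
  have hA : v1.card + mlA (cE B n D h) ≤ c 1 := by
    have : (D * (D + 2) + 1) * mlA (cE B n D h) = D * (D + 2) * mlA (cE B n D h) +
        mlA (cE B n D h) := by ring
    omega
  have hv1c : v1.card ≤ c 1 := by omega
  have hTeq : ∀ v, v1 ⊆ v → v.card ≤ v1.card + mlA (cE B n D h) → ∀ i < D + 2,
      stepb_T S n h (c ((p + 1) * (D + 2))) (c (p * (D + 2) + i)) v =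
      stepb_T S n h (c ((p + 1) * (D + 2))) (c (p * (D + 2) + i)) v1 := by
    intro v hv hvc i hi
    have h1 := hst v hv hvc
    have h2 := (Finset.sum_eq_sum_iff_of_le (s := Finset.range (D + 2)) fun i _ =>
      stepb_mono S n (b := c ((p + 1) * (D + 2))) (a := c (p * (D + 2) + i)) hv
        (hw v (h01.trans hv) (hvc.trans hA) i)).1 h1.symm
    exact (h2 i (Finset.mem_range.2 hi)).symm
  have hpos : ∀ i < D + 2,
      1 ≤ stepb_T S n h (c ((p + 1) * (D + 2))) (c (p * (D + 2) + i)) v1 := by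
    intro i hi
    have h1 : p * (D + 2) + i < (p + 1) * (D + 2) := by
      rw [add_mul, one_mul]; omega
    refine stepb_pos S n (good_up S n h01 (hgood _ h1)) (hcm ?_) (hw v1 h01 hv1c i)
    exact h1
  have hanti : ∀ i, stepb_T S n h (c ((p + 1) * (D + 2))) (c (p * (D + 2) + (i + 1))) v1 ≤
      stepb_T S n h (c ((p + 1) * (D + 2))) (c (p * (D + 2) + i)) v1 := fun i =>
    stepb_anti S n (hcm (by omega)) (hw v1 h01 hv1c i)
  obtain ⟨i, hi, hTi⟩ : ∃ i, i + 1 < D + 2 ∧
      stepb_T S n h (c ((p + 1) * (D + 2))) (c (p * (D + 2) + i)) v1 =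
      stepb_T S n h (c ((p + 1) * (D + 2))) (c (p * (D + 2) + (i + 1))) v1 := by
    by_contra hcon
    have hstr : ∀ j, j ≤ D + 1 →
        stepb_T S n h (c ((p + 1) * (D + 2))) (c (p * (D + 2) + j)) v1 + j ≤
        stepb_T S n h (c ((p + 1) * (D + 2))) (c (p * (D + 2) + 0)) v1 := by
      intro j
      induction j with
      | zero => intro _; omega
      | succ j ih =>
        intro hj
        have h1 := ih (by omega)
        have h2 := hanti j
        have h3 : stepb_T S n h (c ((p + 1) * (D + 2))) (c (p * (D + 2) + j)) v1 ≠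
          stepb_T S n h (c ((p + 1) * (D + 2))) (c (p * (D + 2) + (j + 1))) v1 :=
          fun h => hcon ⟨j, by omega, h⟩
        omega
    have h1 := hstr (D + 1) le_rfl
    have h2 := stepb_leD S n (hw v1 h01 hv1c 0)
    omega
  obtain ⟨T0, hT0⟩ : ∃ T0, T0 = stepb_T S n h (c ((p + 1) * (D + 2)))
    (c (p * (D + 2) + i)) v1 := ⟨_, rfl⟩
  have hT0D : T0 ≤ D := hT0 ▸ stepb_leD S n (hw v1 h01 hv1c i)
  have hT0p : 1 ≤ T0 := hT0 ▸ hpos i (by omega)
  have hTa : ∀ v, v1 ⊆ v → v.card ≤ v1.card + mlA (cE B n D h) →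
      stepb_T S n h (c ((p + 1) * (D + 2))) (c (p * (D + 2) + i)) v = T0 := fun v hv hvc => by
    rw [hTeq v hv hvc i (by omega), hT0]
  have hTb : ∀ v, v1 ⊆ v → v.card ≤ v1.card + mlA (cE B n D h) →
      stepb_T S n h (c ((p + 1) * (D + 2))) (c (p * (D + 2) + (i + 1))) v = T0 := fun v hv hvc => by
    rw [hTeq v hv hvc (i + 1) hi, hT0, hTi]
  obtain ⟨w, hw1, hw2, g, hg1, hg2⟩ := ml (fun V => Finset (P.F V))
    (fun {U V} hUV g => g.image (P.res hUV))
    (fun {V} s => by
      have : P.res (Finset.Subset.refl V) = id := by funext x; exact P.res_self x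
      simp only [this, Finset.image_id])
    (fun {U V W} h h' s => by
      simp only [Finset.image_image]
      congr 1
      funext x
      exact P.res_res h h' x)
    (cE B n D h) v1
    (fun v => {g : Finset (P.F v) | g.card = T0 ∧ ∃ u, v ⊆ u ∧
      u.card ≤ c (p * (D + 2) + i) ∧ Hit S n h v u (c ((p + 1) * (D + 2))) g})
    (fun V _ _ => Set.toFinite _)
    (fun V hV hVc => by
      obtain ⟨u, hu, ha, g, hgc, hg⟩ := stepb_mem S n (hw V (h01.trans hV) (hVc.trans hA) i)
      rw [hTa V hV hVc] at hgc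
      exact ⟨g, hgc, u, hu, ha, hg⟩)
    (fun V hV hVc => by
      refine stepb_E S n hB (hTb V hV hVc) hT0D ?_
      refine le_trans ?_ (hc (p * (D + 2) + i))
      exact Nat.mul_le_mul (by omega) (Nat.le_succ _))
    (by
      rintro U V hUV hU hVc g ⟨hgc, u, hu, ha, hg⟩
      have hUc : U.card ≤ v1.card + mlA (cE B n D h) := (Finset.card_le_card hUV).trans hVc
      have hhit := hit_up S n hUV hu hg
      refine ⟨le_antisymm (Finset.card_image_le.trans hgc.le) ?_, u, hUV.trans hu, ha, hhit⟩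
      rw [← hTa U hU hUc]
      exact stepb_le S n (hUV.trans hu) ha hhit)
  refine extract P T0 hT0p w g (fun V h h' => (hg1 V h h').1) ?_
  intro U V h1 h2 h3
  have := hg2 U V h1 h2 h3
  convert this

end Pool.Agent.Helper25.BG
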