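import Pool.Agent.Helper25.BG.NoBlk
import Pool.Agent.Helper25.BG.StepA
import Pool.Agent.Helper25.BG.StepB

/-! Module BG-Comb: the combinatorial theorem -/

set_option autoImplicit false
set_option linter.all false

namespace Pool.Agent.Helper25.BG

/-- many good scales for blocks of height `h` -/
def Ih (r : ℕ) (B : ℕ → ℕ) (n h : ℕ) : Prop :=
  ∀ L, ∃ N C : ℕ, ∀ (J : Type) [Finite J] (P : Psh J) (K : ℕ) (S : Lab P r K B), ¬ Cons P →
    ∀ c : ℕ → ℕ, (∀ i, C * (c i + 1) ≤ c (i + 1)) → (∀ i, c i + 1 ≤ c (i + 1)) →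
      c N < Nat.card J →
      ∃ (v : Finset J) (ι : ℕ → ℕ), StrictMono ι ∧ ι L ≤ N ∧ v.card ≤ c (ι 0) ∧
        ∀ j, j < L → Good S n h v (c (ι j)) (c (ι (j + 1)))

theorem ih_zero (r : ℕ) (B : ℕ → ℕ) (n : ℕ) : Ih r B n 0 := by
  intro L
  refine ⟨L, 0, fun J _ P K S _ c _ hc hJ => ⟨∅, id, strictMono_id, le_rfl, by simp, ?_⟩⟩
  intro j hj u _ hu
  classical
  have := Fintype.ofFinite J
  have hmono : Monotone c := monotone_nat_of_le_succ fun i => by have := hc i; omega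
  have h1 : u.card < Fintype.card J := by
    have h2 := hmono hj.le
    rw [Nat.card_eq_fintype_card] at hJ
    simp only [id] at hu
    omega
  obtain ⟨x, hx⟩ : ∃ x, x ∉ u := by
    by_contra hcon
    push Not at hcon
    rw [Finset.eq_univ_of_forall hcon, Finset.card_univ] at h1
    omega
  refine ⟨{insert x u}, ⟨insert x u, ?_, rfl⟩, ?_⟩
  · exact lt_of_le_of_lt (Finset.empty_subset u) (Finset.ssubset_insert hx)
  · intro U hU
    rw [Finset.mem_singleton] at hU
    subst hU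
    refine ⟨Finset.ssubset_insert hx, ?_⟩
    rw [Finset.card_insert_of_notMem hx]
    have := hc j
    simp only [id] at hu ⊢
    omega

theorem ih_succ (r : ℕ) (B : ℕ → ℕ) (hB : Monotone B) (n h : ℕ) (ih : Ih r B n h) :
    Ih r B n (h + 1) := by
  intro L
  set D : ℕ := (n - 1) * B (bs n h) with hD
  set G : ℕ := D + 2 with hG
  set Wn : ℕ := 1 + L * (n + 1) with hWn
  obtain ⟨N, C, hNC⟩ := ih ((Wn + 1) * G)
  set C' : ℕ := cE B n D h + 1 + (1 + (D * (D + 2) + 1) * mlA (cE B n D h)) with hC'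
  refine ⟨N, C + C' + Wn, fun J _ P K S hno c hc hc1 hJ => ?_⟩
  have hmono : Monotone c := monotone_nat_of_le_succ fun i => by have := hc1 i; omega
  obtain ⟨v0, ι, hι, hιN, hv0, hgood⟩ := hNC J P K S hno c
    (fun i => (Nat.mul_le_mul_right _ (by omega)).trans (hc i)) hc1 hJ
  -- the new scale sequence
  set d : ℕ → ℕ := fun i => c (ι i) with hd
  have hdc : ∀ i, (C + C' + Wn) * (d i + 1) ≤ d (i + 1) := fun i =>
    (hc (ι i)).trans (hmono (Nat.succ_le_of_lt (hι (Nat.lt_succ_self i))))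
  have hdc1 : ∀ i, d i + 1 ≤ d (i + 1) := fun i =>
    (hc1 (ι i)).trans (hmono (Nat.succ_le_of_lt (hι (Nat.lt_succ_self i))))
  by_cases hcase : ∀ p, 1 ≤ p → p ≤ Wn → ∃ v', v0 ⊆ v' ∧ v'.card ≤ d 1 ∧
      ¬ Win S n D h v' (d (p * G)) (d ((p + 1) * G))
  · have hJ' : d (Wn * G) < Nat.card J := by
      refine lt_of_le_of_lt (hmono ((hι.monotone ?_).trans hιN)) hJ
      exact Nat.mul_le_mul_right _ (by omega)
    obtain ⟨v, hv, hv2⟩ := step_a S n D h L G (C + C' + Wn) hB le_rfl (by omega) (by omega) d hdc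
      hJ' v0 hcase
    refine ⟨v, fun j => ι ((1 + j * (n + 1)) * G), ?_, ?_, ?_, hv2⟩
    · intro i j hij
      refine hι ?_
      refine Nat.mul_lt_mul_of_pos_right ?_ (by omega)
      have := Nat.mul_lt_mul_of_pos_right hij (Nat.succ_pos n)
      exact Nat.add_lt_add_left this 1
    · refine (hι.monotone ?_).trans hιN
      exact Nat.mul_le_mul_right _ (by omega)
    · have : (1 + 0 * (n + 1)) * G = 1 * G := by ring
      simp only [this]
      exact hv
  · exfalso
    push Not at hcase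
    obtain ⟨p, hp1, hp2, hp3⟩ := hcase
    apply hno
    refine step_b S n D h (C + C' + Wn) hB (by omega) d hdc v0 hv0 p hp1 ?_ hp3
    intro i hi
    refine hgood i (lt_of_lt_of_le hi ?_)
    exact Nat.mul_le_mul_right _ (by omega)

theorem ih_all (r : ℕ) (B : ℕ → ℕ) (hB : Monotone B) (n : ℕ) : ∀ h, Ih r B n h
  | 0 => ih_zero r B n
  | h + 1 => ih_succ r B hB n h (ih_all r B hB n h)

/-- an explicit scale sequence -/
def sc (C : ℕ) : ℕ → ℕ
  | 0 => 0
  | i + 1 => C * (sc C i + 1) + (sc C i + 1)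

/-- **The combinatorial theorem.** -/
theorem comb (r : ℕ) (hr : 2 ≤ r) (B : ℕ → ℕ) (hB : Monotone B) : ∃ K : ℕ,
    ∀ (J : Type) [Finite J] (P : Psh J) (S : Lab P r K B), K < Nat.card J → Cons P := by
  obtain ⟨k, hk⟩ := chain r hr (B (r - 1))
  set n : ℕ := 2 ^ (k + 1) * B (r - 1) + 1 with hn
  obtain ⟨N, C, hNC⟩ := ih_all r B hB n k 1
  refine ⟨sc C N, fun J _ P S hJ => ?_⟩
  by_contra hno
  have hc1 : ∀ i, sc C i + 1 ≤ sc C (i + 1) := fun i => Nat.le_add_left _ _
  obtain ⟨v, ι, hι, hιN, hv, hgood⟩ := hNC J P (sc C N) S hno (sc C)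
    (fun i => Nat.le_add_right _ _) hc1 hJ
  have hmono : Monotone (sc C) := monotone_nat_of_le_succ fun i => by have := hc1 i; omega
  obtain ⟨X, hX, hX2⟩ := hgood 0 one_pos v (Finset.Subset.refl v) hv
  exact no_blk S hr k n (by omega) (hk J P _ B le_rfl S) v X hX
    fun U hU => (hX2 U hU).2.trans (hmono hιN)

end Pool.Agent.Helper25.BG
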