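import Pool.Agent.Helper25.PT.Defs

/-!
# Project BG: definitions
-/

set_option autoImplicit false
set_option linter.all false

namespace Pool.Agent.Helper25.BG

open Pool.Agent.Helper25.PH (IsHom HomTo Valid)

/-! ## Averages and noise operators -/

/-- the average of a function on a finite type -/
noncomputable def av {α : Type} (f : α → ℝ) : ℝ := (∑ᶠ a, f a) / Nat.card α

open Classical in
/-- the shift by `η` on the set `U` -/
noncomputable def bsh {A : Type} {M : ℕ} (U : Set A) (η : A → Bool) (a : A) : ZMod M :=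
  if a ∈ U ∧ η a = true then 1 else 0

/-- the noise operator on the set `U` of coordinates -/
noncomputable def Tn {A : Type} {M : ℕ} (U : Set A) (g : (A → ZMod M) → ℝ) (ω : A → ZMod M) : ℝ :=
  av fun η : A → Bool => g (ω + bsh U η)

open Classical in
/-- full average over the coordinates in `U` -/
noncomputable def En {A : Type} {M : ℕ} (U : Set A) (g : (A → ZMod M) → ℝ) (ω : A → ZMod M) : ℝ :=
  av fun ζ : A → ZMod M => g (ω + fun a => if a ∈ U then ζ a else 0)

/-- the square of the `L²` norm -/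
noncomputable def sq {A : Type} {M : ℕ} (g : (A → ZMod M) → ℝ) : ℝ := av fun ω => g ω ^ 2

/-- the influence of the block `S` -/
noncomputable def Wt {A : Type} {M : ℕ} (g : (A → ZMod M) → ℝ) (U S : Set A) : ℝ :=
  sq (Tn (U \ S) g) - sq (Tn U g)

/-! ## Presheaves of partial solutions, families of functions, labels -/

/-- thick adjacency -/
def Thk (M R : ℕ) (x y : ZMod M) : Prop := ∃ d : ℤ, Odd d ∧ |d| ≤ R ∧ y = x + (d : ZMod M)

/-- presheaf of finite sets on the finite subsets of `J` -/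
structure Psh (J : Type) where
  F : Finset J → Type
  fin : ∀ V, Finite (F V)
  res : ∀ {U V : Finset J}, U ⊆ V → F V → F U
  res_self : ∀ {V : Finset J} (s : F V), res (Finset.Subset.refl V) s = s
  res_res : ∀ {U V W : Finset J} (h : U ⊆ V) (h' : V ⊆ W) (s : F W),
    res h (res h' s) = res (h.trans h') s

attribute [instance] Psh.fin

/-- a compatible family of functions `(F V → ZMod M) → H` -/
structure Fam {J : Type} (P : Psh J) (M R K : ℕ) {H : Type} (E : H → H → Prop) where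
  f : ∀ V : Finset J, (P.F V → ZMod M) → H
  compat : ∀ {U V : Finset J} (h : U ⊆ V), V.card ≤ K →
    ∀ (y : P.F U → ZMod M) (z : P.F V → ZMod M), (∀ s, Thk M R (y (P.res h s)) (z s)) →
      E (f U y) (f V z)

/-- copies -/
abbrev Cp (r : ℕ) := Fin r → Bool

/-- all partial solutions -/
abbrev Pt {J : Type} (P : Psh J) := Σ U : Finset J, P.F U

/-- the index set of the samples -/
abbrev Ix {J : Type} (P : Psh J) (r : ℕ) := Cp r × Fin r × Pt P

open Classical in
/-- the location -/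
noncomputable def loc {J : Type} (P : Psh J) {M r : ℕ} (V : Fin r → Finset J)
    (σ : Finset (Fin r)) (l : Cp r → Fin r → ℕ) (ω : Ix P r → ZMod M) (m : Fin r)
    (s : P.F (V m)) : ℕ :=
  ∑ c, ∑ j ∈ σ, if h : V j ⊆ V m then min (l c j) (ω (c, j, ⟨V j, P.res h s⟩)).val else 0

open Classical in
/-- indicator function of the value `u` -/
noncomputable def gv {J : Type} {P : Psh J} {M R K r : ℕ} {H : Type} {E : H → H → Prop}
    (Φ : Fam P M R K E) (V : Fin r → Finset J) (σ : Finset (Fin r)) (l : Cp r → Fin r → ℕ)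
    (m : Fin r) (u : H) (ω : Ix P r → ZMod M) : ℝ :=
  if Φ.f (V m) (fun s => ((2 * loc P V σ l ω m s : ℕ) : ZMod M)) = u then 1 else 0

/-- the coordinates of the copy `c` and the top `V i` -/
def Us {J : Type} (P : Psh J) {r : ℕ} (V : Fin r → Finset J) (c : Cp r) (i : Fin r) :
    Set (Ix P r) := {a | ∃ t : P.F (V i), a = (c, i, ⟨V i, t⟩)}

/-- the block of `q` -/
def Ss {J : Type} (P : Psh J) {r : ℕ} (V : Fin r → Finset J) (c : Cp r) (i : Fin r)
    {v : Finset J} (h : v ⊆ V i) (q : P.F v) : Set (Ix P r) :=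
  {a | ∃ t : P.F (V i), P.res h t = q ∧ a = (c, i, ⟨V i, t⟩)}

/-- `q` is relevant for the tops `V j`, `j ∈ σ` -/
def Tin {J : Type} {P : Psh J} {M R K r : ℕ} {H : Type} {E : H → H → Prop}
    (Φ : Fam P M R K E) (τ : ℝ) (v : Finset J) (V : Fin r → Finset J) (σ : Finset (Fin r))
    (q : P.F v) : Prop :=
  ∃ (m : Fin r) (l : Cp r → Fin r → ℕ) (c : Cp r) (i : Fin r) (u : H) (h : v ⊆ V i),
    m ∈ σ ∧ (∀ j ∈ σ, j ≤ m) ∧ (∀ c j, l c j ≤ M) ∧ i ∈ σ ∧ l c i = M ∧
      τ ≤ Wt (gv Φ V σ l m u) (Us P V c i) (Ss P V c i h q)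

/-- the set of values that are attained close to the location -/
def Val {J : Type} {P : Psh J} {M R K r : ℕ} {H : Type} {E : H → H → Prop}
    (Φ : Fam P M R K E) (V : Fin r → Finset J) (σ : Finset (Fin r)) (l : Cp r → Fin r → ℕ)
    (m : Fin r) {v : Finset J} (h : v ⊆ V m) (x : P.F v → Bool) (ω : Ix P r → ZMod M) (u : H) :
    Prop :=
  ∃ η : P.F (V m) → Bool, Φ.f (V m) (fun s =>
    (((x (P.res h s)).toNat + 2 * loc P V σ l ω m s + 2 * (η s).toNat : ℕ) : ZMod M)) = u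

/-- a system of labels -/
structure Lab {J : Type} (P : Psh J) (r K : ℕ) (B : ℕ → ℕ) where
  L : ∀ v : Finset J, Finset (Finset J) → Set (P.F v)
  mono : ∀ v X Y, X ⊆ Y → L v X ⊆ L v Y
  bound : ∀ v X, (L v X).ncard ≤ B X.card
  func : ∀ {v v' : Finset J} (h : v ⊆ v') X, ∀ q ∈ L v' X, P.res h q ∈ L v X
  join : ∀ (v : Finset J) (V : Fin r → Finset J), StrictMono V → (∀ i, v ⊆ V i) →
    (∀ i, (V i).card ≤ K) →
      ∃ q : P.F v, ∀ (i : Fin r) (X : Finset (Finset J)), (∀ j, j ≠ i → V j ∈ X) → q ∈ L v X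

/-! ## The combinatorial part -/

section

variable {J : Type} {P : Psh J} {r K : ℕ} {B : ℕ → ℕ} (S : Lab P r K B) (n : ℕ)

/-- blocks -/
def Blk (v : Finset J) : ℕ → Finset (Finset J) → Prop
  | 0, X => ∃ U, v ⊂ U ∧ X = {U}
  | h + 1, X => ∃ (Y : Fin n → Finset (Finset J)) (W : Finset J), v ⊂ W ∧ (∀ i, Blk v h (Y i)) ∧
      (∀ i j, i < j → ∀ U ∈ Y i, ∀ U' ∈ Y j, U ⊂ U') ∧ (∀ i, ∀ U ∈ Y i, U ⊂ W) ∧
      (∀ i j, i ≠ j → Disjoint (S.L v (Y i)) (S.L v (Y j))) ∧
      ∀ U, U ∈ X ↔ U = W ∨ ∃ i, U ∈ Y i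

/-- all elements of `X` are proper supersets of `u` and have size at most `b` -/
def Abv (u : Finset J) (b : ℕ) (X : Finset (Finset J)) : Prop := ∀ U ∈ X, u ⊂ U ∧ U.card ≤ b

/-- above every small `u` there is a block -/
def Good (h : ℕ) (v : Finset J) (a b : ℕ) : Prop :=
  ∀ u, v ⊆ u → u.card ≤ a → ∃ X, Blk S n v h X ∧ Abv u b X

/-- `g` meets the label sets of all the blocks above `u` -/
def Hit (h : ℕ) (v u : Finset J) (b : ℕ) (g : Finset (P.F v)) : Prop :=
  ∀ X, Blk S n v h X → Abv u b X → ∃ q ∈ g, q ∈ S.L v X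

/-- some small set is hitting above some small `u` -/
def Win (D h : ℕ) (v : Finset J) (a b : ℕ) : Prop :=
  ∃ u, v ⊆ u ∧ u.card ≤ a ∧ ∃ g : Finset (P.F v), g.card ≤ D ∧ Hit S n h v u b g

end

/-- the conclusion -/
def Cons {J : Type} (P : Psh J) : Prop :=
  ∃ s : J → Σ V : Finset J, P.F V, (∀ x, x ∈ (s x).1) ∧
    ∀ x y, ∃ (W : Finset J) (hx : (s x).1 ⊆ W) (hy : (s y).1 ⊆ W) (t : P.F W),
      P.res hx t = (s x).2 ∧ P.res hy t = (s y).2

/-- size of a block of height `h` -/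
def bs (n : ℕ) : ℕ → ℕ
  | 0 => 1
  | h + 1 => n * bs n h + 1

/-! ## The boundary of the cube -/

/-- the boundary of the cube -/
def CubV (r N : ℕ) := {ξ : Fin r → ℤ // (∀ i, |ξ i| ≤ N) ∧ ∃ i, |ξ i| = N}

/-- almost antipodal points -/
def Cub (r N : ℕ) (ξ ξ' : CubV r N) : Prop := ∀ i, |ξ.1 i + ξ'.1 i| ≤ 1

end Pool.Agent.Helper25.BG
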