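import Pool.Agent.Helper25.BG.Defs
import Pool.Agent.Helper25.PH.Sound

/-! Module BG-GapFam: from the gap graph to a compatible family (compare PH/Sound.lean).

Fix `j0 : J`. `P.F V = {s : {x // x = j0 ∨ x ∈ V} → Λ // ∀ x y, R0 x (s x) y (s y)}`, `res` = restriction. For `V` with
`V.card ≤ K` the set `{x | x = j0 ∨ x ∈ V}` has between 1 and `K + 1` elements, so it is the range of some
`a V : Fin (K+1) → J` (`PH.exists_tuple`). `Φ.f V y = h (a V, fun s' => y (the element of P.F V with values s') if s' is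
Valid for a V, else 0)` where `s'` valid means `s' i = s' j` if `a V i = a V j`, so it comes from a unique element of
`P.F V`. (For `V.card > K` let `Φ.f V` be anything, e.g. the value of `h` at some point; use `U.card ≤ V.card ≤ K`.)
`compat`: the definition of `PT.Gap`. If `Cons P` holds then `σ x` = value at `x` of `(s x).2`; for `x, y` the
element `t` restricts to both, and `R0 x (t x) y (t y)`. -/

set_option autoImplicit false
set_option linter.all false

namespace Pool.Agent.Helper25.BG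

open Pool.Agent.Helper25.PH (IsHom HomTo Valid)

/-- the partial solutions -/
def GapFam_F {J Λ : Type} (R0 : J → Λ → J → Λ → Prop) (j0 : J) (V : Finset J) : Type :=
  {s : {x : J // x = j0 ∨ x ∈ V} → Λ //
    ∀ x y : {x : J // x = j0 ∨ x ∈ V}, R0 x.1 (s x) y.1 (s y)}

/-- the presheaf of partial solutions -/
def GapFam_psh {J Λ : Type} [Finite J] [Finite Λ] (R0 : J → Λ → J → Λ → Prop) (j0 : J) :
    Psh J where
  F V := GapFam_F R0 j0 V
  fin V := by
    unfold GapFam_F
    infer_instance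
  res h s := ⟨fun x => s.1 ⟨x.1, x.2.imp id fun hx => h hx⟩, fun x y =>
    s.2 ⟨x.1, x.2.imp id fun hx => h hx⟩ ⟨y.1, y.2.imp id fun hx => h hx⟩⟩
  res_self s := rfl
  res_res h h' s := rfl

theorem gap_fam {J Λ : Type} [Finite J] [Nonempty J] [Finite Λ] (R0 : J → Λ → J → Λ → Prop)
    (M R K : ℕ) {H : Type} {E : H → H → Prop}
    (h : HomTo (Pool.Agent.Helper25.PT.Gap R0 (Thk M R) (K + 1)) E) :
    ∃ P : Psh J, Nonempty (Fam P M R K E) ∧
      (Cons P → ∃ σ : J → Λ, ∀ x y, R0 x (σ x) y (σ y)) := by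
  classical
  obtain ⟨j0⟩ := (inferInstance : Nonempty J)
  obtain ⟨h, hh⟩ := h
  have ha : ∀ V : Finset J, ∃ a : Fin (K + 1) → J, V.card ≤ K →
      Set.range a = {x | x = j0 ∨ x ∈ V} := by
    intro V
    by_cases hV : V.card ≤ K
    · obtain ⟨b, hb⟩ := Pool.Agent.Helper25.PH.exists_tuple (K := K + 1)
        ({x | x = j0 ∨ x ∈ V} : Set J) ⟨j0, Or.inl rfl⟩ (by
          have h1 : ({x | x = j0 ∨ x ∈ V} : Set J) = ((insert j0 V : Finset J) : Set J) := by
            ext x
            simp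
          rw [h1, Set.ncard_coe_finset]
          exact (Finset.card_insert_le _ _).trans (Nat.succ_le_succ hV))
      exact ⟨b, fun _ => hb⟩
    · exact ⟨fun _ => j0, fun hc => absurd hc hV⟩
  choose a ha using ha
  -- the matching of words and partial solutions
  set Mt : ∀ V : Finset J, (Fin (K + 1) → Λ) → (GapFam_psh R0 j0).F V → Prop :=
    fun V s' s => ∀ (i : Fin (K + 1)) (hi : a V i = j0 ∨ a V i ∈ V), s.1 ⟨a V i, hi⟩ = s' i with hMt
  have huniq : ∀ (V : Finset J), V.card ≤ K → ∀ (s' : Fin (K + 1) → Λ)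
      (s t : (GapFam_psh R0 j0).F V), Mt V s' s → Mt V s' t → s = t := by
    intro V hV s' s t hs ht
    apply Subtype.ext
    funext x
    have hx : x.1 ∈ Set.range (a V) := by
      rw [ha V hV]
      exact x.2
    obtain ⟨i, hi⟩ := hx
    have h1 : a V i = j0 ∨ a V i ∈ V := by
      rw [hi]
      exact x.2
    have h2 : x = ⟨a V i, h1⟩ := Subtype.ext hi.symm
    rw [h2]
    exact (hs i h1).trans (ht i h1).symm
  set ext : ∀ V : Finset J, ((GapFam_psh R0 j0).F V → ZMod M) → (Fin (K + 1) → Λ) → ZMod M :=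
    fun V y s' => if hv : ∃ s, Mt V s' s then y hv.choose else 0 with hext
  have hext' : ∀ (V : Finset J), V.card ≤ K → ∀ (y : (GapFam_psh R0 j0).F V → ZMod M)
      (s' : Fin (K + 1) → Λ) (s : (GapFam_psh R0 j0).F V), Mt V s' s → ext V y s' = y s := by
    intro V hV y s' s hs
    have hv : ∃ s, Mt V s' s := ⟨s, hs⟩
    have h1 : ext V y s' = y hv.choose := dif_pos hv
    rw [h1, huniq V hV s' hv.choose s hv.choose_spec hs]
  refine ⟨GapFam_psh R0 j0, ⟨⟨fun V y => h (a V, ext V y), ?_⟩⟩, ?_⟩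
  · intro U V hUV hV y z hyz
    have hU : U.card ≤ K := (Finset.card_le_card hUV).trans hV
    have hrange : ∀ i, ∃ j, a U i = a V j := by
      intro i
      have h1 : a U i ∈ Set.range (a U) := ⟨i, rfl⟩
      rw [ha U hU] at h1
      have h2 : a U i ∈ Set.range (a V) := by
        rw [ha V hV]
        exact h1.imp id fun hx => hUV hx
      obtain ⟨j, hj⟩ := h2
      exact ⟨j, hj.symm⟩
    refine hh _ _ ⟨hrange, fun s s' hs' hs hag => ?_⟩
    -- the partial solution
    have hsur : ∀ x : {x : J // x = j0 ∨ x ∈ V}, ∃ i, a V i = x.1 := by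
      intro x
      have hx : x.1 ∈ Set.range (a V) := by
        rw [ha V hV]
        exact x.2
      exact hx
    choose ix hix using hsur
    let t : (GapFam_psh R0 j0).F V := ⟨fun x => s (ix x), fun x y => by
      have h1 : R0 (a V (ix x)) (s (ix x)) (a V (ix y)) (s (ix y)) := (hs (ix x) (ix y)).2
      rw [hix x, hix y] at h1
      exact h1⟩
    have ht : Mt V s t := by
      intro i hi
      exact (hs _ _).1 (hix ⟨a V i, hi⟩)
    have ht' : Mt U s' ((GapFam_psh R0 j0).res hUV t) := by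
      intro i hi
      exact (hag i _ (hix ⟨a U i, hi.imp id fun hx => hUV hx⟩).symm).symm
    show Thk M R (ext U y s') (ext V z s)
    rw [hext' U hU y s' _ ht', hext' V hV z s t ht]
    exact hyz t
  · rintro ⟨s, hs, hcomp⟩
    refine ⟨fun x => (s x).2.1 ⟨x, Or.inr (hs x)⟩, fun x y => ?_⟩
    obtain ⟨W, hx, hy, t, htx, hty⟩ := hcomp x y
    have h1 : (s x).2.1 ⟨x, Or.inr (hs x)⟩ = t.1 ⟨x, Or.inr (hx (hs x))⟩ := by
      rw [← htx]
      rfl
    have h2 : (s y).2.1 ⟨y, Or.inr (hs y)⟩ = t.1 ⟨y, Or.inr (hy (hs y))⟩ := by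
      rw [← hty]
      rfl
    show R0 x ((s x).2.1 ⟨x, Or.inr (hs x)⟩) y ((s y).2.1 ⟨y, Or.inr (hs y)⟩)
    rw [h1, h2]
    exact t.2 ⟨x, Or.inr (hx (hs x))⟩ ⟨y, Or.inr (hy (hs y))⟩

/-- small instances: the set of all variables has a partial solution, since `E` has no loops -/
theorem cons_small {J : Type} [Finite J] {P : Psh J} {M R K : ℕ} {H : Type} {E : H → H → Prop}
    (hE' : ∀ u, ¬ E u u) (Φ : Fam P M R K E) (hJ : Nat.card J ≤ K) : Cons P := by
  classical
  haveI := Fintype.ofFinite J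
  have hV : (Finset.univ : Finset J).card ≤ K := by
    rw [Finset.card_univ, ← Nat.card_eq_fintype_card]
    exact hJ
  have hne : Nonempty (P.F (Finset.univ : Finset J)) := by
    by_contra hcon
    rw [not_nonempty_iff] at hcon
    have h1 := Φ.compat (Finset.Subset.refl (Finset.univ : Finset J)) hV (fun _ => 0) (fun _ => 0)
      (fun s => (hcon.false s).elim)
    exact hE' _ h1
  obtain ⟨t⟩ := hne
  exact ⟨fun _ => ⟨Finset.univ, t⟩, fun x => Finset.mem_univ x, fun x y =>
    ⟨Finset.univ, Finset.Subset.refl _, Finset.Subset.refl _, t, P.res_self t, P.res_self t⟩⟩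

end Pool.Agent.Helper25.BG
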