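import Pool.Agent.Helper25.BG.An2

/-! Module BG-TinB: relevance depends only on the tops in `σ`, and is functorial.

`tin_congr`: introduce versions of `loc`, `gv`, `Us`, `Ss` that take the finsets `V m`, `V i` as explicit
arguments (`loc' P V σ l ω U s` for `s : P.F U`; `Us' P c i U`, …; they are equal to the given ones by `rfl`);
`loc'` depends on `V` only through `V j`, `j ∈ σ` (`Finset.sum_congr`; generalise `V j`, `V' j`
and `subst`), then rewrite `V' m = V m`, `V' i = V i`.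
`tin_mono`: same `m l c i u`; `Ss P V c i h' q' ⊆ Ss P V c i _ (P.res hv q')` by `P.res_res`, and `Wt_mono`.
(`[NeZero M]`, `[Finite J]` are there for `Wt_mono`: `Ix P r` is finite.) -/

set_option autoImplicit false
set_option linter.all false

namespace Pool.Agent.Helper25.BG

section

variable {J : Type} {P : Psh J} {M R K r : ℕ} {H : Type} {E : H → H → Prop} (Φ : Fam P M R K E)
  {τ : ℝ}

open Classical in
/-- `loc` with the finset `V m` as an argument -/
private noncomputable def tinB_loc (P : Psh J) {M r : ℕ} (V : Fin r → Finset J)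
    (σ : Finset (Fin r)) (l : Cp r → Fin r → ℕ) (ω : Ix P r → ZMod M) (U : Finset J)
    (s : P.F U) : ℕ :=
  ∑ c, ∑ j ∈ σ, if h : V j ⊆ U then min (l c j) (ω (c, j, ⟨V j, P.res h s⟩)).val else 0

open Classical in
/-- `gv` with the finset `V m` as an argument -/
private noncomputable def tinB_gv (V : Fin r → Finset J) (σ : Finset (Fin r))
    (l : Cp r → Fin r → ℕ) (U : Finset J) (u : H) (ω : Ix P r → ZMod M) : ℝ :=
  if Φ.f U (fun s => ((2 * tinB_loc P V σ l ω U s : ℕ) : ZMod M)) = u then 1 else 0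

private def tinB_Us (P : Psh J) {r : ℕ} (c : Cp r) (i : Fin r) (U : Finset J) :
    Set (Ix P r) := {a | ∃ t : P.F U, a = (c, i, ⟨U, t⟩)}

private def tinB_Ss (P : Psh J) {r : ℕ} (c : Cp r) (i : Fin r) {v : Finset J} (q : P.F v)
    (U : Finset J) (h : v ⊆ U) : Set (Ix P r) :=
  {a | ∃ t : P.F U, P.res h t = q ∧ a = (c, i, ⟨U, t⟩)}

private theorem tinB_loc_congr {V V' : Fin r → Finset J} {σ : Finset (Fin r)}
    (h : ∀ j ∈ σ, V j = V' j) (l : Cp r → Fin r → ℕ) (ω : Ix P r → ZMod M) (U : Finset J)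
    (s : P.F U) : tinB_loc P V σ l ω U s = tinB_loc P V' σ l ω U s := by
  classical
  unfold tinB_loc
  refine Finset.sum_congr rfl fun c _ => Finset.sum_congr rfl fun j hj => ?_
  have key : ∀ A B : Finset J, A = B →
      (if h : A ⊆ U then min (l c j) (ω (c, j, ⟨A, P.res h s⟩)).val else 0) =
      (if h : B ⊆ U then min (l c j) (ω (c, j, ⟨B, P.res h s⟩)).val else 0) := by
    rintro A B rfl
    rfl
  exact key _ _ (h j hj)

private theorem tinB_gv_congr {V V' : Fin r → Finset J} {σ : Finset (Fin r)}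
    (h : ∀ j ∈ σ, V j = V' j) (l : Cp r → Fin r → ℕ) {m : Fin r} (hm : m ∈ σ) (u : H) :
    gv Φ V σ l m u = gv Φ V' σ l m u := by
  classical
  have e1 : gv Φ V σ l m u = tinB_gv Φ V σ l (V m) u := rfl
  have e2 : gv Φ V' σ l m u = tinB_gv Φ V' σ l (V' m) u := rfl
  rw [e1, e2, h m hm]
  funext ω
  unfold tinB_gv
  simp only [tinB_loc_congr h]

private theorem tinB_Ss_congr {c : Cp r} {i : Fin r} {v : Finset J} (q : P.F v)
    {A B : Finset J} (e : A = B) (hA : v ⊆ A) (hB : v ⊆ B) :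
    tinB_Ss P c i q A hA = tinB_Ss P c i q B hB := by
  subst e
  rfl

theorem tin_congr {v : Finset J} {V V' : Fin r → Finset J} {σ : Finset (Fin r)} {q : P.F v}
    (h : ∀ j ∈ σ, V j = V' j) (hq : Tin Φ τ v V σ q) : Tin Φ τ v V' σ q := by
  obtain ⟨m, l, c, i, u, hv, hm, hmax, hl, hi, hfull, hW⟩ := hq
  have hv' : v ⊆ V' i := by rw [← h i hi]; exact hv
  refine ⟨m, l, c, i, u, hv', hm, hmax, hl, hi, hfull, ?_⟩
  have e1 : gv Φ V σ l m u = gv Φ V' σ l m u := tinB_gv_congr Φ h l hm u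
  have e2 : Us P V c i = Us P V' c i := by
    have a1 : Us P V c i = tinB_Us P c i (V i) := rfl
    have a2 : Us P V' c i = tinB_Us P c i (V' i) := rfl
    rw [a1, a2, h i hi]
  have e3 : Ss P V c i hv q = Ss P V' c i hv' q := tinB_Ss_congr q (h i hi) hv hv'
  rw [← e1, ← e2, ← e3]
  exact hW

theorem tin_mono [Finite J] [NeZero M] {v v' : Finset J} (hv : v ⊆ v') {V : Fin r → Finset J}
    {σ : Finset (Fin r)} {q' : P.F v'} (hq : Tin Φ τ v' V σ q') :
    Tin Φ τ v V σ (P.res hv q') := by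
  obtain ⟨m, l, c, i, u, hv', hm, hmax, hl, hi, hfull, hW⟩ := hq
  refine ⟨m, l, c, i, u, hv.trans hv', hm, hmax, hl, hi, hfull, hW.trans ?_⟩
  refine Wt_mono _ ?_ ?_
  · rintro a ⟨t, ht, rfl⟩
    exact ⟨t, by rw [← ht, P.res_res], rfl⟩
  · rintro a ⟨t, ht, rfl⟩
    exact ⟨t, rfl⟩

end

end Pool.Agent.Helper25.BG
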