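import Pool.Agent.Helper25.BG.An2

/-! Module BG-TinC: the number of relevant elements.

For given `m l c i u` (and `v ⊆ V i`): the blocks `Ss P V c i _ q` are pairwise disjoint subsets of `Us P V c i`, so
`Wt_sum` gives `∑ q ∈ T, Wt .. ≤ sq (gv ..) ≤ 1` (`gv` has values in `{0, 1}`); hence at most
`1 / τ ≤ ⌈1/τ⌉₊` elements `q` have `τ ≤ Wt ..`. The number of quintuples with `l ≤ M` is at most
`r * (M + 1) ^ (r * 2 ^ r) * 2 ^ r * r * Nat.card H` (`l` is a function `Cp r → Fin r → Fin (M + 1)`). Union bound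
(`Set.ncard` of a finite union). -/

set_option autoImplicit false
set_option linter.all false

namespace Pool.Agent.Helper25.BG

/-- the bound -/
noncomputable def Bt (r M : ℕ) (τ : ℝ) : ℕ :=
  r * (M + 1) ^ (r * 2 ^ r) * 2 ^ r * r * r * ⌈1 / τ⌉₊

/-- the block of `q` lies in `Us` -/
private theorem tinC_sub {J : Type} {P : Psh J} {r : ℕ} (V : Fin r → Finset J) (c : Cp r)
    (i : Fin r) {v : Finset J} (h : v ⊆ V i) (q : P.F v) : Ss P V c i h q ⊆ Us P V c i := by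
  rintro a ⟨t, -, rfl⟩
  exact ⟨t, rfl⟩

/-- different blocks are disjoint -/
private theorem tinC_disj {J : Type} {P : Psh J} {r : ℕ} (V : Fin r → Finset J) (c : Cp r)
    (i : Fin r) {v : Finset J} (h : v ⊆ V i) (q q' : P.F v) (hqq : q ≠ q') :
    Disjoint (Ss P V c i h q) (Ss P V c i h q') := by
  rw [Set.disjoint_left]
  rintro a ⟨t, ht, rfl⟩ ⟨t', ht', he⟩
  apply hqq
  have h1 : (⟨V i, t⟩ : Pt P) = ⟨V i, t'⟩ := (Prod.mk.inj (Prod.mk.inj he).2).2
  have h2 : t = t' := eq_of_heq (Sigma.mk.inj h1).2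
  rw [← ht, ← ht', h2]

/-- the square norm of an indicator function is at most 1 -/
private theorem tinC_sq {J : Type} [Finite J] {P : Psh J} {M R K r : ℕ} [NeZero M] {H : Type}
    {E : H → H → Prop} (Φ : Fam P M R K E) (V : Fin r → Finset J) (σ : Finset (Fin r))
    (l : Cp r → Fin r → ℕ) (m : Fin r) (u : H) : sq (gv Φ V σ l m u) ≤ 1 := by
  have h1 : sq (gv Φ V σ l m u) ≤ av (fun _ : Ix P r → ZMod M => (1 : ℝ)) := by
    unfold sq
    apply av_mono
    intro ω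
    unfold gv
    split_ifs <;> norm_num
  rwa [av_const] at h1

/-- the number of relevant elements for one quintuple -/
private theorem tinC_one {J : Type} [Finite J] {P : Psh J} {M R K r : ℕ} [NeZero M] {H : Type}
    {E : H → H → Prop} (Φ : Fam P M R K E) {τ : ℝ} (hτ : 0 < τ) (v : Finset J)
    (V : Fin r → Finset J) (σ : Finset (Fin r)) (l : Cp r → Fin r → ℕ) (m : Fin r) (c : Cp r)
    (i : Fin r) (u : H) :
    {q : P.F v | ∃ h : v ⊆ V i,
      τ ≤ Wt (gv Φ V σ l m u) (Us P V c i) (Ss P V c i h q)}.ncard ≤ ⌈1 / τ⌉₊ := by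
  classical
  by_cases hv : v ⊆ V i
  · set S : Set (P.F v) := {q : P.F v | ∃ h : v ⊆ V i,
      τ ≤ Wt (gv Φ V σ l m u) (Us P V c i) (Ss P V c i h q)} with hS
    have hfin : S.Finite := Set.toFinite S
    rw [Set.ncard_eq_toFinset_card S hfin]
    have h1 := Wt_sum (gv Φ V σ l m u) (U := Us P V c i) (fun q => Ss P V c i hv q)
      (fun q => tinC_sub V c i hv q) (fun q q' hqq => tinC_disj V c i hv q q' hqq)
      hfin.toFinset
    have h2 := tinC_sq Φ V σ l m u
    have h3 : ∑ q ∈ hfin.toFinset, τ ≤ ∑ q ∈ hfin.toFinset,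
        Wt (gv Φ V σ l m u) (Us P V c i) (Ss P V c i hv q) := by
      apply Finset.sum_le_sum
      intro q hq
      rw [Set.Finite.mem_toFinset] at hq
      obtain ⟨_, hq⟩ := hq
      exact hq
    rw [Finset.sum_const, nsmul_eq_mul] at h3
    have h4 : (hfin.toFinset.card : ℝ) ≤ 1 / τ := by
      rw [le_div_iff₀ hτ]
      linarith
    have h5 : (hfin.toFinset.card : ℝ) ≤ (⌈1 / τ⌉₊ : ℝ) := h4.trans (Nat.le_ceil _)
    exact_mod_cast h5
  · have : {q : P.F v | ∃ h : v ⊆ V i,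
      τ ≤ Wt (gv Φ V σ l m u) (Us P V c i) (Ss P V c i h q)} = ∅ := by
      rw [Set.eq_empty_iff_forall_notMem]
      rintro q ⟨h, -⟩
      exact hv h
    rw [this, Set.ncard_empty]
    exact Nat.zero_le _

theorem tin_card {J : Type} [Finite J] {P : Psh J} {M R K r : ℕ} [NeZero M] {H : Type} [Finite H]
    (hH : Nat.card H ≤ r) {E : H → H → Prop} (Φ : Fam P M R K E) {τ : ℝ} (hτ : 0 < τ)
    (v : Finset J) (V : Fin r → Finset J) (σ : Finset (Fin r)) :
    {q : P.F v | Tin Φ τ v V σ q}.ncard ≤ Bt r M τ := by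
  classical
  have := Fintype.ofFinite H
  let I := Fin r × (Cp r → Fin r → Fin (M + 1)) × Cp r × Fin r × H
  let S : I → Set (P.F v) := fun x => {q : P.F v | ∃ h : v ⊆ V x.2.2.2.1,
      τ ≤ Wt (gv Φ V σ (fun c j => (x.2.1 c j : ℕ)) x.1 x.2.2.2.2) (Us P V x.2.2.1 x.2.2.2.1)
        (Ss P V x.2.2.1 x.2.2.2.1 h q)}
  have hsub : {q : P.F v | Tin Φ τ v V σ q} ⊆ ⋃ x ∈ (Finset.univ : Finset I), S x := by
    rintro q ⟨m, l, c, i, u, h, hm, hmax, hl, hi, hfull, hW⟩
    rw [Set.mem_iUnion₂]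
    refine ⟨(m, fun c j => ⟨l c j, Nat.lt_succ_of_le (hl c j)⟩, c, i, u), Finset.mem_univ _, ?_⟩
    exact ⟨h, hW⟩
  have h1 := Set.ncard_le_ncard hsub (Set.toFinite _)
  have h2 := Finset.set_ncard_biUnion_le (Finset.univ : Finset I) S
  have h3 : ∑ x ∈ (Finset.univ : Finset I), (S x).ncard ≤
      (Finset.univ : Finset I).card * ⌈1 / τ⌉₊ := by
    rw [← smul_eq_mul]
    apply Finset.sum_le_card_nsmul
    intro x _
    exact tinC_one Φ hτ v V σ _ _ _ _ _
  have h4 : (Finset.univ : Finset I).card ≤ r * (M + 1) ^ (r * 2 ^ r) * 2 ^ r * r * r := by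
    have hc : (Finset.univ : Finset I).card =
        r * (((M + 1) ^ r) ^ (2 ^ r) * (2 ^ r * (r * Fintype.card H))) := by
      rw [Finset.card_univ]
      simp only [I, Cp, Fintype.card_prod, Fintype.card_fin, Fintype.card_fun, Fintype.card_bool]
    rw [hc, ← pow_mul]
    have hH' : Fintype.card H ≤ r := by
      rwa [Nat.card_eq_fintype_card] at hH
    calc r * ((M + 1) ^ (r * 2 ^ r) * (2 ^ r * (r * Fintype.card H)))
        ≤ r * ((M + 1) ^ (r * 2 ^ r) * (2 ^ r * (r * r))) := by gcongr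
      _ = r * (M + 1) ^ (r * 2 ^ r) * 2 ^ r * r * r := by ring
  calc {q : P.F v | Tin Φ τ v V σ q}.ncard
      ≤ (Finset.univ : Finset I).card * ⌈1 / τ⌉₊ := h1.trans (h2.trans h3)
    _ ≤ (r * (M + 1) ^ (r * 2 ^ r) * 2 ^ r * r * r) * ⌈1 / τ⌉₊ := Nat.mul_le_mul_right _ h4
    _ = Bt r M τ := rfl

end Pool.Agent.Helper25.BG
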