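import Pool.Agent.Helper25.BG.Join
import Pool.Agent.Helper25.BG.TinB
import Pool.Agent.Helper25.BG.TinC

/-! Module BG-LabEx: the system of labels.

`L v X = {q | ∃ V σ, Monotone V ∧ (∀ j, V j ∈ X) ∧ (∀ j, v ⊆ V j) ∧ σ.Nonempty ∧ Tin Φ τ v V σ q}`,
`B s = s ^ r * 2 ^ r * Bt r M τ`. `mono` trivial; `bound`: at most `X.card ^ r * 2 ^ r` pairs `(V, σ)` and `tin_card`;
`func`: `tin_mono` (`v ⊆ v' ⊆ V j`). `join`: theorem `join` gives `q`; for `i` and `X` take the `σ` of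
`join` and `V' j = V j` for `j ≠ i`, `V' i = V (i - 1)` (`V' 0 = V 1` if `i = 0`; `2 ≤ r`): `V'` is monotone with
values in `X`, and equal to `V` on `σ` (`tin_congr`). -/

set_option autoImplicit false
set_option linter.all false

namespace Pool.Agent.Helper25.BG

theorem exists_tau (r M : ℕ) : ∃ τ : ℝ, 0 < τ ∧ Sm r M τ := by
  set C : ℝ := (2 : ℝ) ^ r * 2 ^ r * ((M : ℝ) + 1) ^ (r * 2 ^ r) *
    ((r : ℝ) ^ 3 * 2 ^ r * (8 * (r : ℝ) ^ 2 * (M : ℝ) ^ 2)) * (2 * 2 ^ r) ^ (2 ^ r) with hC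
  have hC0 : 0 ≤ C := by positivity
  refine ⟨1 / (C + 1), by positivity, ?_⟩
  unfold Sm
  have h1 : (2 : ℝ) ^ r * 2 ^ r * ((M : ℝ) + 1) ^ (r * 2 ^ r) *
    ((r : ℝ) ^ 3 * 2 ^ r * (8 * (r : ℝ) ^ 2 * (M : ℝ) ^ 2 * (1 / (C + 1)))) *
      (2 * 2 ^ r) ^ (2 ^ r) = C / (C + 1) := by
    rw [hC]
    ring
  rw [h1, div_lt_one (by positivity)]
  linarith

/-- replacing the entry `i` by a neighbour -/
private def labEx_p {r : ℕ} (hr : 2 ≤ r) (i j : Fin r) : Fin r :=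
  if j = i then (if (i : ℕ) = 0 then ⟨1, by omega⟩ else ⟨(i : ℕ) - 1, by omega⟩) else j

private theorem labEx_p_val {r : ℕ} (hr : 2 ≤ r) (i j : Fin r) :
    ((labEx_p hr i j : Fin r) : ℕ) =
      if (j : ℕ) = i then (if (i : ℕ) = 0 then 1 else (i : ℕ) - 1) else j := by
  unfold labEx_p
  by_cases h : j = i
  · subst h
    by_cases h' : (j : ℕ) = 0
    · simp [h']
    · simp [h']
  · have h2 : (j : ℕ) ≠ i := fun h3 => h (Fin.ext h3)
    simp [h, h2]

private theorem labEx_p_mono {r : ℕ} (hr : 2 ≤ r) (i : Fin r) : Monotone (labEx_p hr i) := by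
  intro j k hjk
  have hjk' : (j : ℕ) ≤ k := hjk
  show ((labEx_p hr i j : Fin r) : ℕ) ≤ (labEx_p hr i k : Fin r)
  rw [labEx_p_val, labEx_p_val]
  split_ifs <;> omega

private theorem labEx_p_ne {r : ℕ} (hr : 2 ≤ r) (i j : Fin r) : labEx_p hr i j ≠ i := by
  intro h
  have h1 : ((labEx_p hr i j : Fin r) : ℕ) = i := by rw [h]
  rw [labEx_p_val] at h1
  split_ifs at h1 <;> omega

private theorem labEx_p_of_ne {r : ℕ} (hr : 2 ≤ r) {i j : Fin r} (h : j ≠ i) :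
    labEx_p hr i j = j := by
  unfold labEx_p
  rw [if_neg h]

/-- union bound -/
private theorem labEx_ncard {α ι : Type} [Finite α] [Fintype ι] (S : Set α) (T : ι → Set α)
    (N b : ℕ) (hN : Fintype.card ι ≤ N) (hS : ∀ a ∈ S, ∃ i, a ∈ T i)
    (hT : ∀ i, (T i).ncard ≤ b) : S.ncard ≤ N * b := by
  classical
  have hα : Fintype α := Fintype.ofFinite α
  have h1 : S.ncard ≤ (Finset.univ.biUnion fun i => (T i).toFinset).card := by
    rw [Set.ncard_eq_toFinset_card' S]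
    refine Finset.card_le_card ?_
    intro a ha
    obtain ⟨i, hi⟩ := hS a (Set.mem_toFinset.1 ha)
    exact Finset.mem_biUnion.2 ⟨i, Finset.mem_univ _, Set.mem_toFinset.2 hi⟩
  refine h1.trans (Finset.card_biUnion_le.trans ?_)
  have h2 : ∀ i ∈ (Finset.univ : Finset ι), (T i).toFinset.card ≤ b := by
    intro i _
    rw [← Set.ncard_eq_toFinset_card' (T i)]
    exact hT i
  refine (Finset.sum_le_card_nsmul _ _ _ h2).trans ?_
  rw [smul_eq_mul, Finset.card_univ]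
  exact Nat.mul_le_mul_right _ hN

theorem exists_lab (r M : ℕ) (hr : 2 ≤ r) (hM : Odd M) : ∃ B : ℕ → ℕ, Monotone B ∧
    ∀ (J : Type) [Finite J] (P : Psh J) (K : ℕ) (H : Type) [Finite H] (hH : Nat.card H ≤ r)
      (E : H → H → Prop) (hE : ∀ u v, E u v → E v u) (hE' : ∀ u, ¬ E u u)
      (Φ : Fam P M (2 ^ (r + 2) * r + 3) K E), Nonempty (Lab P r K B) := by
  classical
  have hM0 : NeZero M := ⟨by
    rintro rfl
    exact absurd hM (by decide)⟩
  obtain ⟨τ, hτ, hsm⟩ := exists_tau r M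
  refine ⟨fun s => s ^ r * 2 ^ r * Bt r M τ, ?_, ?_⟩
  · intro a b hab
    exact Nat.mul_le_mul_right _ (Nat.mul_le_mul_right _ (Nat.pow_le_pow_left hab r))
  intro J _ P K H _ hH E hE hE' Φ
  refine ⟨{ L := fun v X => {q | ∃ (V : Fin r → Finset J) (σ : Finset (Fin r)), Monotone V ∧
              (∀ j, V j ∈ X) ∧ (∀ j, v ⊆ V j) ∧ σ.Nonempty ∧ Tin Φ τ v V σ q}
            mono := ?_
            bound := ?_
            func := ?_
            join := ?_ }⟩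
  · rintro v X Y hXY q ⟨V, σ, h1, h2, h3, h4, h5⟩
    exact ⟨V, σ, h1, fun j => hXY (h2 j), h3, h4, h5⟩
  · intro v X
    refine labEx_ncard (ι := (Fin r → {U // U ∈ X}) × Finset (Fin r)) _
      (fun i => {q | Tin Φ τ v (fun j => (i.1 j).1) i.2 q}) _ _ ?_ ?_ ?_
    · rw [Fintype.card_prod, Fintype.card_fun, Fintype.card_coe, Fintype.card_fin,
        Fintype.card_finset, Fintype.card_fin]
    · rintro q ⟨V, σ, h1, h2, h3, h4, h5⟩
      exact ⟨(fun j => ⟨V j, h2 j⟩, σ), h5⟩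
    · intro i
      exact tin_card hH Φ hτ v _ _
  · rintro v v' h X q ⟨V, σ, h1, h2, h3, h4, h5⟩
    exact ⟨V, σ, h1, h2, fun j => h.trans (h3 j), h4, tin_mono Φ h h5⟩
  · intro v V hV hv hK
    obtain ⟨q, hq⟩ := join hr hM rfl hH hE hE' Φ hτ.le hsm V hV.monotone hv hK
    refine ⟨q, fun i X hX => ?_⟩
    obtain ⟨σ, hσ, hi, hT⟩ := hq i
    refine ⟨fun j => V (labEx_p hr i j), σ, fun j k hjk => hV.monotone (labEx_p_mono hr i hjk),
      fun j => hX _ (labEx_p_ne hr i j), fun j => hv _, hσ, tin_congr Φ (fun j hj => ?_) hT⟩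
    have hji : j ≠ i := fun h => hi (h ▸ hj)
    rw [labEx_p_of_ne hr hji]

end Pool.Agent.Helper25.BG
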