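import Pool.Agent.Helper25.BG.Defs
import Pool.Agent.Helper25.PH.Slow

/-! Module BG-OddCyc: odd cycles in nonbipartite graphs, and slow walks.

`odd_cyc`: `SimpleGraph.two_colorable_iff_forall_loop_even` gives a closed walk of odd length `m`; the map
`ZMod m → V`, `x ↦ w.getVert x.val`. `thk_to_cyc`: as `PH.thick_to_cyc` (there `R = 7`), all lemmas about `kap` in
PH/Slow.lean are for general `R`. -/

set_option autoImplicit false
set_option linter.all false

namespace Pool.Agent.Helper25.BG

open Pool.Agent.Helper25.PH (IsHom HomTo Cyc)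

theorem odd_cyc {V : Type} (G : SimpleGraph V) (h : ¬ G.Colorable 2) :
    ∃ m : ℕ, Odd m ∧ HomTo (Cyc m) G.Adj := by
  rw [SimpleGraph.two_colorable_iff_forall_loop_even] at h
  push Not at h
  obtain ⟨u, w, hw⟩ := h
  have hodd : Odd w.length := by rwa [← Nat.not_even_iff_odd]
  have hpos : 0 < w.length := hodd.pos
  haveI : NeZero w.length := ⟨hpos.ne'⟩
  have key : ∀ x : ZMod w.length, G.Adj (w.getVert x.val) (w.getVert (x + 1).val) := by
    intro x
    have hx : x.val < w.length := ZMod.val_lt x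
    have h1 := w.adj_getVert_succ hx
    rcases Nat.lt_or_ge (x.val + 1) w.length with h2 | h2
    · have h3 : (x + 1).val = x.val + 1 := by
        have e : x + 1 = ((x.val + 1 : ℕ) : ZMod w.length) := by
          push_cast
          rw [ZMod.natCast_zmod_val]
        rw [e, ZMod.val_natCast, Nat.mod_eq_of_lt h2]
      rw [h3]
      exact h1
    · have h4 : x.val + 1 = w.length := by omega
      have h3 : (x + 1).val = 0 := by
        have e : x + 1 = ((x.val + 1 : ℕ) : ZMod w.length) := by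
          push_cast
          rw [ZMod.natCast_zmod_val]
        rw [e, ZMod.val_natCast, h4, Nat.mod_self]
      rw [h3, SimpleGraph.Walk.getVert_zero]
      rw [h4, SimpleGraph.Walk.getVert_length] at h1
      exact h1
  refine ⟨w.length, hodd, fun x => w.getVert x.val, ?_⟩
  rintro x y (rfl | rfl)
  · exact key x
  · exact (key y).symm

theorem thk_to_cyc (m R : ℕ) (hm : Odd m) (hR : Odd R) : HomTo (Thk (m * R) R) (Cyc m) := by
  have hm0 : 0 < m := hm.pos
  have hR0 : 0 < R := hR.pos
  haveI : NeZero (m * R) := ⟨(Nat.mul_pos hm0 hR0).ne'⟩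
  have hRz : (0 : ℤ) < (R : ℤ) := by exact_mod_cast hR0
  have hRo : Odd (R : ℤ) := by exact_mod_cast hR
  have hmo : Odd (m : ℤ) := by exact_mod_cast hm
  refine ⟨fun x => ((PH.kap R (x.val : ℤ) : ℤ) : ZMod m), ?_⟩
  rintro x y ⟨d, hd, hd7, hy⟩
  have h1 : ((y.val : ℤ) : ZMod (m * R)) = (((x.val : ℤ) + d : ℤ) : ZMod (m * R)) := by
    push_cast
    rw [ZMod.natCast_zmod_val, ZMod.natCast_zmod_val]
    exact hy
  rw [ZMod.intCast_eq_intCast_iff_dvd_sub] at h1
  obtain ⟨k, hk⟩ := h1
  have h2 : (y.val : ℤ) = ((x.val : ℤ) + d) + (-k) * ((m : ℤ) * R) := by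
    push_cast at hk
    linear_combination -hk
  have h3 := PH.kap_period_iter (R : ℤ) (m : ℤ) hRz hRo hmo (-k) ((x.val : ℤ) + d)
  rw [← h2] at h3
  have h4 := PH.kap_step (R : ℤ) (x.val : ℤ) ((x.val : ℤ) + d) hRz (by simpa using hd)
    (by simpa using hd7)
  have h5 : ((PH.kap R (y.val : ℤ) : ℤ) : ZMod m) =
      ((PH.kap R ((x.val : ℤ) + d) : ℤ) : ZMod m) := by
    rw [h3]
    push_cast
    simp
  show Cyc m _ _
  rw [Cyc]
  simp only
  rw [h5]
  rcases (abs_eq (by norm_num : (0 : ℤ) ≤ 1)).1 h4 with h6 | h6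
  · left
    have : PH.kap R ((x.val : ℤ) + d) = PH.kap R (x.val : ℤ) + 1 := by omega
    rw [this]
    push_cast
    ring
  · right
    have : PH.kap R (x.val : ℤ) = PH.kap R ((x.val : ℤ) + d) + 1 := by omega
    rw [this]
    push_cast
    ring

end Pool.Agent.Helper25.BG
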