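import Pool.Agent.Helper25.BG.Comb
import Pool.Agent.Helper25.BG.LabEx
import Pool.Agent.Helper25.BG.GapFam
import Pool.Agent.Helper25.BG.OddCyc
import Pool.Agent.Helper25.PT.Final

/-! Module BG-Final: the hardness theorem -/

set_option autoImplicit false
set_option linter.all false

namespace Pool.Agent.Helper25.BG

open Pool.Agent.Helper96
open Pool.Agent.Helper25.PH (IsHom HomTo Valid code Rb items Lab cnf_iff NPHardPCSP Yes No Cyc)

/-- Soundness of the gap graph. -/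
theorem soundness (r M : ℕ) (hr : 2 ≤ r) (hM : Odd M) : ∃ K : ℕ,
    ∀ (J Λ : Type) [Finite J] [Finite Λ] (R0 : J → Λ → J → Λ → Prop) (H : Type) [Finite H]
      (hH : Nat.card H ≤ r) (E : H → H → Prop) (hE : ∀ u v, E u v → E v u) (hE' : ∀ u, ¬ E u u),
      HomTo (Pool.Agent.Helper25.PT.Gap R0 (Thk M (2 ^ (r + 2) * r + 3)) (K + 1)) E →
        ∃ σ : J → Λ, ∀ x y, R0 x (σ x) y (σ y) := by
  obtain ⟨B, hB, hlab⟩ := exists_lab r M hr hM
  obtain ⟨K, hK⟩ := comb r hr B hB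
  refine ⟨K, fun J Λ _ _ R0 H _ hH E hE hE' h => ?_⟩
  rcases isEmpty_or_nonempty J with hJ | hJ
  · exact ⟨fun x => (hJ.false x).elim, fun x => (hJ.false x).elim⟩
  obtain ⟨P, ⟨Φ⟩, hP⟩ := gap_fam R0 M _ K h
  apply hP
  rcases le_or_gt (Nat.card J) K with hc | hc
  · exact cons_small hE' Φ hc
  · obtain ⟨S⟩ := hlab J P K H hH E hE hE' Φ
    exact hK J P S hc

/-- **The Brakensiek-Guruswami conjecture.** `PCSP(G, H)` is NP-hard for every graph `G` that is
not 2-colourable and every finite graph `H`. -/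
theorem hard {V W : Type} [Finite V] [Finite W] (G : SimpleGraph V) (H : SimpleGraph W)
    (hG : ¬ G.Colorable 2) : NPHardPCSP G H := by
  obtain ⟨m, hm, hGm⟩ := odd_cyc G hG
  set r : ℕ := Nat.card W + 2 with hr
  set R : ℕ := 2 ^ (r + 2) * r + 3 with hR
  have hRo : Odd R := by
    refine Even.add_odd ?_ (by decide)
    exact (Nat.even_pow.2 ⟨even_two, by omega⟩).mul_right _
  have hM : Odd (m * R) := hm.mul hRo
  obtain ⟨K, hK⟩ := soundness r (m * R) (by omega) hM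
  have hM0 : NeZero (m * R) := ⟨hM.pos.ne'⟩
  intro L hL
  obtain ⟨f1, hf1, -, hw⟩ := Pool.Agent.Helper99.SC.sl_cnf L hL
  obtain ⟨g, hg, hgs⟩ := Pool.Agent.Helper25.PT.gap_word (Thk (m * R) R) (K + 1)
  refine ⟨fun w => g (f1 w).2, (Pool.Agent.Helper69.polyTimeFun_iff _).2 ?_, ?_, ?_⟩
  · exact hg.comp (Poly.snd hf1)
  · intro w hwL
    obtain ⟨n', A, h1, h2, h3⟩ := hgs (f1 w).2
    refine ⟨n', A, h1, ?_⟩
    have h7 := h2.trans (Pool.Agent.Helper25.PT.gap_complete _ _ _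
      ((cnf_iff _).1 ((hw w).1 hwL)))
    exact (h7.trans (thk_to_cyc m R hm hRo)).trans hGm
  · intro w hwL
    obtain ⟨n', A, h1, h2, h3⟩ := hgs (f1 w).2
    refine ⟨n', A, h1, ?_⟩
    intro hcon
    apply hwL
    rw [hw w, cnf_iff]
    exact hK _ _ _ W (by omega) H.Adj (fun u v h => h.symm) (fun u h => H.loopless.irrefl u h)
      (h3.trans hcon)

end Pool.Agent.Helper25.BG
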