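import Pool.Agent.Helper25.BG.Defs

/-! Module BG-Grid: the grid of mesh `2 M` and its hat functions (elementary integer arithmetic).

`ver_count`: `ver a (cls k) = k` implies `a i = k i` or `a i + 1 = k i` for all `i`.
`hat_full`: take `c` so that `ver (cube M t) c i` is `a i` or `a i + 1`, whichever is nearer to
`t i / (2 M)` (`a = cube M t`, `c i` its parity); then `dst ≤ M`.
`hat_supp`: `dst < 2 M`, so `|t i - 2 M * k i| < 2 M` and `a i ≤ k i ≤ a i + 1`. -/

set_option autoImplicit false
set_option linter.all false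

namespace Pool.Agent.Helper25.BG

/-- distance of `t` to the grid point `h k` -/
def dst {r : ℕ} (h : ℕ) (k t : Fin r → ℕ) : ℕ :=
  Finset.univ.sup fun i => Int.natAbs ((t i : ℤ) - h * k i)

/-- hat function of the vertex `k` -/
def hat {r : ℕ} (M : ℕ) (k t : Fin r → ℕ) : ℕ := min M (2 * M - dst (2 * M) k t)

/-- the level -/
def lev {r : ℕ} (M κ : ℕ) (k t : Fin r → ℕ) (j : Fin r) : ℕ := min (hat M k t) (t j - κ)

/-- the cube of `t` -/
def cube {r : ℕ} (M : ℕ) (t : Fin r → ℕ) : Fin r → ℕ := fun i => t i / (2 * M)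

/-- the class of a vertex -/
def cls {r : ℕ} (k : Fin r → ℕ) : Cp r := fun i => decide (k i % 2 = 1)

/-- the vertex of class `c` of the cube `a` -/
def ver {r : ℕ} (a : Fin r → ℕ) (c : Cp r) : Fin r → ℕ := fun i =>
  if a i % 2 = (c i).toNat then a i else a i + 1

/-- `t` and `t'` are at distance at most 1 -/
def Nb {r : ℕ} (t t' : Fin r → ℕ) : Prop := ∀ i, t i ≤ t' i + 1 ∧ t' i ≤ t i + 1

section

variable {r M : ℕ}

theorem Nb.symm {t t' : Fin r → ℕ} (h : Nb t t') : Nb t' t := fun i => ⟨(h i).2, (h i).1⟩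

theorem cls_ver (a : Fin r → ℕ) (c : Cp r) : cls (ver a c) = c := by
  funext i
  unfold cls ver
  cases hc : c i
  · simp only [Bool.toNat_false, decide_eq_false_iff_not]
    split_ifs with h <;> omega
  · simp only [Bool.toNat_true, decide_eq_true_eq]
    split_ifs with h <;> omega

private theorem grid_ver_cls {a k : Fin r → ℕ} (h : ∀ i, a i ≤ k i ∧ k i ≤ a i + 1) :
    ver a (cls k) = k := by
  funext i
  have hi := h i
  have hval : ver a (cls k) i =
      if a i % 2 = (decide (k i % 2 = 1)).toNat then a i else a i + 1 := rfl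
  rw [hval]
  by_cases hk : k i % 2 = 1
  · rw [decide_eq_true hk, Bool.toNat_true]
    split_ifs with h1 <;> omega
  · rw [decide_eq_false hk, Bool.toNat_false]
    split_ifs with h1 <;> omega

private theorem grid_dst_le {h d : ℕ} {k t : Fin r → ℕ} :
    dst h k t ≤ d ↔ ∀ i, Int.natAbs ((t i : ℤ) - h * k i) ≤ d := by
  unfold dst
  rw [Finset.sup_le_iff]
  simp

private theorem grid_le_dst {h : ℕ} (k t : Fin r → ℕ) (i : Fin r) :
    Int.natAbs ((t i : ℤ) - h * k i) ≤ dst h k t :=
  Finset.le_sup (f := fun i => Int.natAbs ((t i : ℤ) - h * k i)) (Finset.mem_univ i)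

theorem ver_inj (a : Fin r → ℕ) : Function.Injective (ver a) :=
  Function.LeftInverse.injective (g := cls) (fun c => cls_ver a c)

theorem ver_count (k : Fin r → ℕ) : {a : Fin r → ℕ | ver a (cls k) = k}.Finite ∧
    {a : Fin r → ℕ | ver a (cls k) = k}.ncard ≤ 2 ^ r := by
  have hsub : {a : Fin r → ℕ | ver a (cls k) = k} ⊆
      (fun (s : Fin r → Bool) (i : Fin r) => if s i = true then k i else k i - 1) ''
        Set.univ := by
    intro a ha
    rw [Set.mem_setOf_eq] at ha
    refine ⟨fun i => decide (a i = k i), Set.mem_univ _, ?_⟩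
    funext i
    have hi := congrFun ha i
    unfold ver at hi
    simp only [decide_eq_true_eq]
    split_ifs at hi ⊢ with h1 h2 <;> omega
  have hfin : ((fun (s : Fin r → Bool) (i : Fin r) => if s i = true then k i else k i - 1) ''
        Set.univ).Finite := Set.toFinite _
  refine ⟨hfin.subset hsub, (Set.ncard_le_ncard hsub hfin).trans ?_⟩
  refine (Set.ncard_image_le (Set.toFinite _)).trans ?_
  rw [Set.ncard_univ, Nat.card_eq_fintype_card]
  simp

theorem hat_le (k t : Fin r → ℕ) : hat M k t ≤ M := min_le_left _ _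

theorem lev_le (κ : ℕ) (k t : Fin r → ℕ) (j : Fin r) : lev M κ k t j ≤ M :=
  (min_le_left _ _).trans (min_le_left _ _)

theorem hat_lip {t t' : Fin r → ℕ} (h : Nb t t') (k : Fin r → ℕ) :
    hat M k t ≤ hat M k t' + 1 := by
  have hd : dst (2 * M) k t' ≤ dst (2 * M) k t + 1 := by
    rw [grid_dst_le]
    intro i
    have h1 := grid_le_dst (h := 2 * M) k t i
    have h2 := h i
    omega
  unfold hat
  omega

theorem lev_lip {t t' : Fin r → ℕ} (h : Nb t t') (κ : ℕ) (k : Fin r → ℕ) (j : Fin r) :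
    lev M κ k t j ≤ lev M κ k t' j + 1 := by
  have h1 := hat_lip (M := M) h k
  have h2 := h j
  unfold lev
  omega

private theorem grid_cube (hM : 0 < M) (t : Fin r → ℕ) (i : Fin r) :
    2 * M * cube M t i ≤ t i ∧ t i < 2 * M * cube M t i + 2 * M := by
  unfold cube
  have h1 := Nat.div_add_mod (t i) (2 * M)
  have h2 := Nat.mod_lt (t i) (show 0 < 2 * M by omega)
  omega

theorem hat_supp (hM : 0 < M) {k t : Fin r → ℕ} (h : hat M k t ≠ 0) :
    ∃ c, k = ver (cube M t) c := by
  refine ⟨cls k, (grid_ver_cls ?_).symm⟩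
  intro i
  have hd : dst (2 * M) k t < 2 * M := by
    unfold hat at h
    omega
  have h1 := grid_le_dst (h := 2 * M) k t i
  have h2 := grid_cube hM t i
  have h3 : Int.natAbs ((t i : ℤ) - ((2 * M : ℕ) : ℤ) * k i) < 2 * M := lt_of_le_of_lt h1 hd
  have h4 : ((t i : ℤ) - ((2 * M : ℕ) : ℤ) * k i) < 2 * M ∧
      -(2 * M : ℤ) < ((t i : ℤ) - ((2 * M : ℕ) : ℤ) * k i) := by omega
  obtain ⟨h5, h6⟩ := h4
  push_cast at h5 h6
  have h7 : (2 * (M : ℤ)) * (cube M t i : ℤ) ≤ t i := by exact_mod_cast h2.1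
  have h8 : (t i : ℤ) < 2 * (M : ℤ) * (cube M t i : ℤ) + 2 * M := by exact_mod_cast h2.2
  have hM' : (0 : ℤ) < 2 * M := by exact_mod_cast (show 0 < 2 * M by omega)
  constructor
  · have : (2 * (M : ℤ)) * (cube M t i : ℤ) < 2 * M * ((k i : ℤ) + 1) := by linarith
    have := lt_of_mul_lt_mul_left this hM'.le
    omega
  · have : (2 * (M : ℤ)) * (k i : ℤ) < 2 * M * ((cube M t i : ℤ) + 2) := by linarith
    have := lt_of_mul_lt_mul_left this hM'.le
    omega

theorem hat_full (hM : 0 < M) (t : Fin r → ℕ) : ∃ c, hat M (ver (cube M t) c) t = M := by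
  classical
  let k : Fin r → ℕ := fun i => if t i ≤ 2 * M * cube M t i + M then cube M t i
    else cube M t i + 1
  have hk : ∀ i, k i = if t i ≤ 2 * M * cube M t i + M then cube M t i
    else cube M t i + 1 := fun i => rfl
  refine ⟨cls k, ?_⟩
  rw [grid_ver_cls (a := cube M t) (k := k) (fun i => by rw [hk]; split_ifs <;> omega)]
  have hd : dst (2 * M) k t ≤ M := by
    rw [grid_dst_le]
    intro i
    have h2 := grid_cube hM t i
    have h7 : (2 * (M : ℤ)) * (cube M t i : ℤ) ≤ t i := by exact_mod_cast h2.1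
    have h8 : (t i : ℤ) < 2 * (M : ℤ) * (cube M t i : ℤ) + 2 * M := by exact_mod_cast h2.2
    rw [hk]
    split_ifs with h3
    · have h9 : (t i : ℤ) ≤ 2 * (M : ℤ) * (cube M t i : ℤ) + M := by exact_mod_cast h3
      rw [← Int.ofNat_le, Int.natCast_natAbs, abs_le]
      push_cast
      constructor <;> linarith
    · have h9 : 2 * (M : ℤ) * (cube M t i : ℤ) + M < (t i : ℤ) := by
        exact_mod_cast (show 2 * M * cube M t i + M < t i by omega)
      rw [← Int.ofNat_le, Int.natCast_natAbs, abs_le]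
      push_cast
      constructor <;> linarith
  unfold hat
  omega

end

end Pool.Agent.Helper25.BG
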