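import Pool.Agent.Helper25.BG.Defs
import Pool.Agent.Helper25.PT.Conv
import Pool.Agent.Helper25.PH.Colour

/-! Module BG-NotCol: the boundary of the cube is not `r`-colourable.

`r = k + 2`. `cub_bor`: for `δ` small (depending on `r`, `N`) there is a homomorphism
`Bor (r - 1) δ → Cub r N`: `ξ ↦ round (N ξ / |ξ|_∞)` (coordinatewise; the coordinate with
`|ξ_i| = |ξ|_∞` goes to `±N`; if `‖ξ + ξ'‖ < δ` then `|N ξ_i / |ξ|_∞ + N ξ'_i / |ξ'|_∞| < 1/2` because
`|ξ|_∞ ≥ 1/√r`, and `|round a - a| ≤ 1/2`, so `|round a + round b| < 3/2`).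
`not_col`: PT.gmyc_bor k δ gives `gmyc qs (cyc l) → Bor (k + 1) δ`, PH.not_colour says that
`gmyc qs (cyc l)` is not `(k + 2)`-colourable. -/

set_option autoImplicit false
set_option linter.all false

namespace Pool.Agent.Helper25.BG

open Pool.Agent.Helper25.PH (IsHom HomTo)
open Pool.Agent.Helper25.PT (Bor Sp Eu)

/-- the maximum norm -/
private noncomputable def mx {n : ℕ} (x : Fin (n + 1) → ℝ) : ℝ := ‖x‖

private theorem mx_le {n : ℕ} (x : Fin (n + 1) → ℝ) (i : Fin (n + 1)) : |x i| ≤ mx x :=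
  norm_le_pi_norm x i

private theorem mx_ex {n : ℕ} (x : Fin (n + 1) → ℝ) : ∃ i, |x i| = mx x := by
  obtain ⟨i, _, hi⟩ := Finset.exists_max_image (Finset.univ : Finset (Fin (n + 1)))
    (fun i => |x i|) ⟨0, Finset.mem_univ 0⟩
  refine ⟨i, le_antisymm (mx_le x i) ?_⟩
  exact (pi_norm_le_iff_of_nonneg (abs_nonneg (x i))).2 fun j => hi j (Finset.mem_univ j)

private theorem mx_ge {n : ℕ} (x : Sp n) : 1 ≤ mx (fun i => (x : Eu n) i) * (n + 1) := by
  obtain ⟨i, hi⟩ := mx_ex (fun i => (x : Eu n) i)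
  have h1 : ∑ j, ((x : Eu n) j) ^ 2 = 1 := by
    have h2 := EuclideanSpace.real_norm_sq_eq (x : Eu n)
    rw [mem_sphere_zero_iff_norm.1 x.2] at h2
    rw [← h2]
    norm_num
  have hm0 : 0 ≤ mx (fun i => (x : Eu n) i) := norm_nonneg _
  have h3 : ∀ j, ((x : Eu n) j) ^ 2 ≤ mx (fun i => (x : Eu n) i) ^ 2 := by
    intro j
    rw [← sq_abs]
    exact pow_le_pow_left₀ (abs_nonneg _) (mx_le (fun i => (x : Eu n) i) j) 2
  have h4 : (1 : ℝ) ≤ (n + 1) * mx (fun i => (x : Eu n) i) ^ 2 := by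
    refine h1.symm.le.trans ((Finset.sum_le_sum fun j _ => h3 j).trans ?_)
    simp
  have h5 : mx (fun i => (x : Eu n) i) ≤ 1 := by
    rw [← hi]
    have h6 : ((x : Eu n) i) ^ 2 ≤ 1 := by
      rw [← h1]
      exact Finset.single_le_sum (f := fun j => ((x : Eu n) j) ^ 2)
        (fun j _ => sq_nonneg _) (Finset.mem_univ i)
    rw [← sq_abs] at h6
    exact (sq_le_one_iff₀ (abs_nonneg _)).1 h6
  nlinarith [mul_nonneg hm0 (sub_nonneg.2 h5)]

private theorem round_bd (a : ℝ) (N : ℕ) (ha : |a| ≤ N) : |round a| ≤ (N : ℤ) := by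
  have h1 := abs_sub_round a
  have h2 : ((|round a| : ℤ) : ℝ) < N + 1 := by
    push_cast
    have h3 : |(round a : ℝ)| ≤ |a| + |a - round a| := by
      have := abs_sub_abs_le_abs_sub (round a : ℝ) a
      rw [abs_sub_comm] at this
      linarith
    linarith
  have h3 : |round a| < (N : ℤ) + 1 := by exact_mod_cast h2
  omega

theorem cub_bor (k N : ℕ) (hN : 1 ≤ N) : ∃ δ : ℝ, 0 < δ ∧ HomTo (Bor (k + 1) δ) (Cub (k + 2) N) := by
  have hN0 : (0 : ℝ) < N := by exact_mod_cast hN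
  have hk0 : (0 : ℝ) < (k : ℝ) + 2 := by positivity
  have hpos : ∀ x : Sp (k + 1), 0 < mx (fun i => (x : Eu (k + 1)) i) := by
    intro x
    have h1 := mx_ge x
    by_contra hcon
    push Not at hcon
    have h2 : mx (fun i => (x : Eu (k + 1)) i) * (((k + 1 : ℕ) : ℝ) + 1) ≤ 0 :=
      mul_nonpos_of_nonpos_of_nonneg hcon (by positivity)
    linarith
  have hbd : ∀ (x : Sp (k + 1)) (i : Fin (k + 1 + 1)),
      |N * (x : Eu (k + 1)) i / mx (fun i => (x : Eu (k + 1)) i)| ≤ N := by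
    intro x i
    rw [abs_div, abs_of_pos (hpos x), div_le_iff₀ (hpos x), abs_mul, abs_of_pos hN0]
    exact mul_le_mul_of_nonneg_left (mx_le (fun i => (x : Eu (k + 1)) i) i) hN0.le
  refine ⟨1 / (4 * N * (k + 2)), by positivity, ?_⟩
  refine ⟨fun x => ⟨fun i => round (N * (x : Eu (k + 1)) i / mx (fun i => (x : Eu (k + 1)) i)),
    fun i => round_bd _ N (hbd x i), ?_⟩, ?_⟩
  · obtain ⟨i, hi⟩ := mx_ex (fun i => (x : Eu (k + 1)) i)
    refine ⟨i, ?_⟩
    have hi' : |(x : Eu (k + 1)) i| = mx (fun i => (x : Eu (k + 1)) i) := hi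
    rcases abs_choice ((x : Eu (k + 1)) i) with h | h
    · have h1 : N * (x : Eu (k + 1)) i / mx (fun i => (x : Eu (k + 1)) i) = ((N : ℤ) : ℝ) := by
        rw [← hi', h, mul_div_assoc, div_self, mul_one]
        · simp
        · rw [← h, hi']
          exact (hpos x).ne'
      show |round (N * (x : Eu (k + 1)) i / mx (fun i => (x : Eu (k + 1)) i))| = (N : ℤ)
      rw [h1, round_intCast]
      simp
    · have h1 : N * (x : Eu (k + 1)) i / mx (fun i => (x : Eu (k + 1)) i) = ((-(N : ℤ) : ℤ) : ℝ) := by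
        have h2 : (x : Eu (k + 1)) i = - mx (fun i => (x : Eu (k + 1)) i) := by
          rw [← hi', h, neg_neg]
        have h3 := (hpos x).ne'
        rw [h2]
        field_simp
        simp
      show |round (N * (x : Eu (k + 1)) i / mx (fun i => (x : Eu (k + 1)) i))| = (N : ℤ)
      rw [h1, round_intCast]
      simp
  · intro x y hxy i
    show |round (N * (x : Eu (k + 1)) i / mx (fun i => (x : Eu (k + 1)) i)) +
      round (N * (y : Eu (k + 1)) i / mx (fun i => (y : Eu (k + 1)) i))| ≤ 1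
    have hxy' : ‖(x : Eu (k + 1)) + (y : Eu (k + 1))‖ < 1 / (4 * N * (k + 2)) := hxy
    set X := mx (fun i => (x : Eu (k + 1)) i) with hX
    set Y := mx (fun i => (y : Eu (k + 1)) i) with hY
    set δ : ℝ := 1 / (4 * N * (k + 2)) with hδ
    have hX0 : 0 < X := hpos x
    have hY0 : 0 < Y := hpos y
    have hX1 : 1 ≤ X * (k + 2) := by
      have h := mx_ge x
      push_cast at h
      rw [← hX] at h
      linarith
    have hco : ∀ j, |(x : Eu (k + 1)) j + (y : Eu (k + 1)) j| ≤ δ := by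
      intro j
      have h1 := PiLp.norm_apply_le ((x : Eu (k + 1)) + (y : Eu (k + 1))) j
      have h2 : ‖((x : Eu (k + 1)) + (y : Eu (k + 1))) j‖ =
          |(x : Eu (k + 1)) j + (y : Eu (k + 1)) j| := rfl
      rw [h2] at h1
      exact h1.trans hxy'.le
    have hXY : |X - Y| ≤ δ := by
      have h1 := abs_norm_sub_norm_le (fun i => (x : Eu (k + 1)) i : Fin (k + 1 + 1) → ℝ)
        (-(fun i => (y : Eu (k + 1)) i : Fin (k + 1 + 1) → ℝ))
      rw [norm_neg] at h1
      refine h1.trans ?_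
      have hδ0 : 0 ≤ δ := by positivity
      refine (pi_norm_le_iff_of_nonneg hδ0).2 fun j => ?_
      have h2 : ‖((fun i => (x : Eu (k + 1)) i : Fin (k + 1 + 1) → ℝ) -
          (-(fun i => (y : Eu (k + 1)) i : Fin (k + 1 + 1) → ℝ))) j‖ =
          |(x : Eu (k + 1)) j + (y : Eu (k + 1)) j| := by
        rw [Pi.sub_apply, Pi.neg_apply, sub_neg_eq_add, Real.norm_eq_abs]
      rw [h2]
      exact hco j
    have hyY : |(y : Eu (k + 1)) i| ≤ Y := mx_le (fun i => (y : Eu (k + 1)) i) i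
    have hsum : |N * (x : Eu (k + 1)) i / X + N * (y : Eu (k + 1)) i / Y| ≤ 1 / 2 := by
      have h1 : N * (x : Eu (k + 1)) i / X + N * (y : Eu (k + 1)) i / Y =
          N * (((x : Eu (k + 1)) i + (y : Eu (k + 1)) i) * Y +
            (y : Eu (k + 1)) i * (X - Y)) / (X * Y) := by
        field_simp
        ring
      rw [h1, abs_div, abs_of_pos (mul_pos hX0 hY0), div_le_iff₀ (mul_pos hX0 hY0), abs_mul,
        abs_of_pos hN0]
      have h2 : |((x : Eu (k + 1)) i + (y : Eu (k + 1)) i) * Y +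
          (y : Eu (k + 1)) i * (X - Y)| ≤ 2 * δ * Y := by
        refine (abs_add_le _ _).trans ?_
        rw [abs_mul, abs_mul, abs_of_pos hY0]
        have h3 := mul_le_mul_of_nonneg_right (hco i) hY0.le
        have h4 := mul_le_mul hyY hXY (abs_nonneg _) hY0.le
        linarith
      have h5 : N * |((x : Eu (k + 1)) i + (y : Eu (k + 1)) i) * Y +
          (y : Eu (k + 1)) i * (X - Y)| ≤ N * (2 * δ * Y) := mul_le_mul_of_nonneg_left h2 hN0.le
      refine h5.trans ?_
      have h6 : N * (2 * δ * Y) = (1 / (2 * (k + 2))) * Y := by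
        rw [hδ]
        field_simp
        ring
      rw [h6]
      have h7 : 1 / (2 * ((k : ℝ) + 2)) ≤ 1 / 2 * X := by
        rw [div_le_iff₀ (by positivity)]
        nlinarith
      calc 1 / (2 * ((k : ℝ) + 2)) * Y ≤ (1 / 2 * X) * Y := mul_le_mul_of_nonneg_right h7 hY0.le
        _ = 1 / 2 * (X * Y) := by ring
    have hr1 := abs_sub_round (N * (x : Eu (k + 1)) i / X)
    have hr2 := abs_sub_round (N * (y : Eu (k + 1)) i / Y)
    rw [abs_le] at hr1 hr2 hsum
    have hfin : (((round (N * (x : Eu (k + 1)) i / X) + round (N * (y : Eu (k + 1)) i / Y) : ℤ)) : ℝ)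
        < 2 := by
      push_cast
      linarith [hr1.1, hr1.2, hr2.1, hr2.2, hsum.1, hsum.2]
    have hfin2 : (-2 : ℝ) < (((round (N * (x : Eu (k + 1)) i / X) +
        round (N * (y : Eu (k + 1)) i / Y) : ℤ)) : ℝ) := by
      push_cast
      linarith [hr1.1, hr1.2, hr2.1, hr2.2, hsum.1, hsum.2]
    have h8 : round (N * (x : Eu (k + 1)) i / X) + round (N * (y : Eu (k + 1)) i / Y) < 2 := by
      exact_mod_cast hfin
    have h9 : -2 < round (N * (x : Eu (k + 1)) i / X) + round (N * (y : Eu (k + 1)) i / Y) := by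
      exact_mod_cast hfin2
    rw [abs_le]
    constructor <;> omega

theorem not_col {r N : ℕ} (hr : 2 ≤ r) (hN : 1 ≤ N) :
    ¬ HomTo (Cub r N) (fun a b : Fin r => a ≠ b) := by
  obtain ⟨k, rfl⟩ : ∃ k, r = k + 2 := ⟨r - 2, by omega⟩
  rintro ⟨f, hf⟩
  obtain ⟨δ, hδ, h1⟩ := cub_bor k N hN
  obtain ⟨qs, l, hqs, hl, hl3, h2⟩ := Pool.Agent.Helper25.PT.gmyc_bor k δ hδ
  subst hqs
  exact Pool.Agent.Helper25.PH.not_colour qs l hl ((h2.trans h1).trans ⟨f, hf⟩)

end Pool.Agent.Helper25.BG
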