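import Pool.Agent.Helper25.BG.SelSmp
import Pool.Agent.Helper25.BG.NotCol

/-! Module BG-Join: the JOIN lemma -/

set_option autoImplicit false
set_option linter.all false

namespace Pool.Agent.Helper25.BG

open Pool.Agent.Helper25.PH (IsHom HomTo)

theorem nr_ctr {r M : ℕ} (hM : 0 < M) (a : Fin r → ℕ) : Nr M a (ctr M a) := by
  intro i
  unfold ctr
  have : (a i + 1) * (2 * M) = a i * (2 * M) + 2 * M := by ring
  omega

theorem join {J : Type} [Finite J] {P : Psh J} {M R K r : ℕ} (hr : 2 ≤ r) (hM : Odd M)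
    (hR : R = 2 ^ (r + 2) * r + 3) {H : Type} [Finite H] (hH : Nat.card H ≤ r) {E : H → H → Prop}
    (hE : ∀ u v, E u v → E v u) (hE' : ∀ u, ¬ E u u) (Φ : Fam P M R K E) {τ : ℝ} (hτ : 0 ≤ τ)
    (hsm : Sm r M τ) {v : Finset J} (V : Fin r → Finset J) (hV : Monotone V) (hv : ∀ i, v ⊆ V i)
    (hK : ∀ i, (V i).card ≤ K) :
    ∃ q : P.F v, ∀ i : Fin r, ∃ σ : Finset (Fin r), σ.Nonempty ∧ i ∉ σ ∧ Tin Φ τ v V σ q := by
  classical
  by_contra hcon
  push Not at hcon
  choose iq hiq using hcon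
  have hM0 : 0 < M := hM.pos
  obtain ⟨n, ⟨en⟩⟩ := Finite.exists_equiv_fin (P.F v)
  set e : P.F v → ℕ := fun q => (en q : ℕ) with hedef
  have he : Function.Injective e := fun q q' h => en.injective (Fin.ext h)
  have hen : ∀ q, e q < n := fun q => (en q).2
  obtain ⟨W, hW⟩ := sel_smp hM hH Φ hτ hsm V hV hv iq (fun q σ hσ h => hiq q σ hσ h) e he
  set κ : ℕ := kq M n with hκ
  set N : ℕ := κ + M with hN
  -- the data of a point
  set tt : CubV r N → Fin r → ℕ := fun ξ i => (ξ.1 i).natAbs with htt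
  set zz : CubV r N → Fin r → Bool := fun ξ i => decide (0 < ξ.1 i) with hzz
  have hbig : ∀ ξ : CubV r N, ∃ j, tt ξ j = N := by
    intro ξ
    obtain ⟨j, hj⟩ := ξ.2.2
    refine ⟨j, ?_⟩
    rw [Int.abs_eq_natAbs] at hj
    exact_mod_cast hj
  have hne : ∀ ξ, (sg κ (tt ξ)).Nonempty := by
    intro ξ
    obtain ⟨j, hj⟩ := hbig ξ
    refine ⟨j, ?_⟩
    unfold sg
    rw [Finset.mem_filter]
    exact ⟨Finset.mem_univ _, by omega⟩
  have key : ∀ ξ : CubV r N, ∃ u : H, ∀ x : P.F v → Bool,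
      (∀ q, q ∉ Ch M e iq (cube M (tt ξ)) →
        x q = zz ξ (asg M e iq (ctr M (cube M (tt ξ))) q)) →
      Val Φ V (sg κ (tt ξ)) (lv M κ (tt ξ)) ((sg κ (tt ξ)).max' (hne ξ)) (hv _) x
        (smp W (cube M (tt ξ))) u := by
    intro ξ
    refine hW _ (zz ξ) _ _ _ (Finset.max'_mem _ _) (fun j hj => Finset.le_max' _ _ hj) ?_ ?_ ?_
    · intro c j
      exact lev_le _ _ _ _
    · obtain ⟨c, hc⟩ := hat_full hM0 (tt ξ)
      obtain ⟨j, hj⟩ := hbig ξ
      refine ⟨c, j, ?_, ?_⟩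
      · unfold sg
        rw [Finset.mem_filter]
        exact ⟨Finset.mem_univ _, by omega⟩
      · unfold lv lev
        rw [hc, hj]
        omega
    · intro q hq h
      have h1 := ch_low hq (nr_cube hM0 _) (hen q)
      unfold sg at h
      rw [Finset.mem_filter] at h
      omega
  choose F hF using key
  have hhom : IsHom (Cub r N) E F := by
    intro ξ ξ' hadj
    have hnb : Nb (tt ξ) (tt ξ') := by
      intro i
      have h1 := hadj i
      simp only [htt]
      rw [abs_le] at h1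
      omega
    have hx1 := hF ξ (fun q => zz ξ (asg M e iq (tt ξ) q)) (by
      intro q hq
      have : asg M e iq (tt ξ) q = asg M e iq (ctr M (cube M (tt ξ))) q := by
        by_contra h
        exact hq ⟨_, _, nr_cube hM0 _, nr_ctr hM0 _, h⟩
      simp only [this])
    have hx2 := hF ξ' (fun q => zz ξ' (asg M e iq (tt ξ) q)) (by
      intro q hq
      have : asg M e iq (tt ξ) q = asg M e iq (ctr M (cube M (tt ξ'))) q := by
        by_contra h
        exact hq ⟨_, _, nr_cube' hM0 hnb, nr_ctr hM0 _, h⟩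
      simp only [this])
    refine adj hM0 hR hE Φ V hV hv hK W κ hnb (Finset.max'_mem _ _)
      (fun j hj => Finset.le_max' _ _ hj) (Finset.max'_mem _ _)
      (fun j hj => Finset.le_max' _ _ hj) ?_ hx1 hx2
    intro q
    have h2 : 2 ≤ tt ξ (asg M e iq (tt ξ) q) := by
      refine asg_big (hen q) ?_
      obtain ⟨j, hj⟩ := hbig ξ
      exact ⟨j, by omega⟩
    have h3 := hadj (asg M e iq (tt ξ) q)
    have h2' : 2 ≤ (ξ.1 (asg M e iq (tt ξ) q)).natAbs := h2
    generalize asg M e iq (tt ξ) q = j at h2' h3 ⊢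
    rw [abs_le] at h3
    intro h4
    have h5 : (0 < ξ.1 j) ↔ (0 < ξ'.1 j) := decide_eq_decide.1 h4
    omega
  -- colouring
  have hfin : Fintype H := Fintype.ofFinite H
  have hcard : Fintype.card H ≤ Fintype.card (Fin r) := by
    rw [Fintype.card_fin, ← Nat.card_eq_fintype_card]
    exact hH
  obtain ⟨φ⟩ := Function.Embedding.nonempty_of_card_le hcard
  have hN1 : 1 ≤ N := by omega
  refine not_col hr hN1 ⟨fun ξ => φ (F ξ), fun ξ ξ' h h' => ?_⟩
  have h1 := hhom ξ ξ' h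
  rw [φ.injective h'] at h1
  exact hE' _ h1

end Pool.Agent.Helper25.BG
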