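import Pool.Agent.Helper25.BG.An3

/-! Module BG-Locs: shifts of the samples and shifts of the location.

Full level `l c i = M`: the summand `(c, i)` of `loc` is `min M (ω ..).val = (ω ..).val`, whose cast
to `ZMod M` is `ω (c, i, ⟨V i, res s⟩)` itself; no other summand of `loc` reads a coordinate in
`Us P V c i`. -/

set_option autoImplicit false
set_option linter.all false

namespace Pool.Agent.Helper25.BG

open Classical in
/-- the shift of the sample that corresponds to the position `x` -/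
noncomputable def xh {J : Type} (P : Psh J) {M r : ℕ} (V : Fin r → Finset J) (c : Cp r) (i : Fin r)
    {v : Finset J} (h : v ⊆ V i) (x : P.F v → Bool) (a : Ix P r) : ZMod M :=
  if ∃ t : P.F (V i), a = (c, i, ⟨V i, t⟩) ∧ x (P.res h t) = true then (((M + 1) / 2 : ℕ) : ZMod M)
  else 0

section

variable {J : Type} {P : Psh J} {M R K r : ℕ} {H : Type} {E : H → H → Prop}

/-- shifting the sample by `a` (supported on `Us P V c i`) -/
theorem loc_shift [NeZero M] (V : Fin r → Finset J) (σ : Finset (Fin r)) (l : Cp r → Fin r → ℕ)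
    (m i : Fin r) (c : Cp r) (hi : i ∈ σ) (hfull : l c i = M) (him : V i ⊆ V m)
    (a : Ix P r → ZMod M) (ha : ∀ j, j ∉ Us P V c i → a j = 0) (ω : Ix P r → ZMod M)
    (s : P.F (V m)) :
    ((loc P V σ l (ω + a) m s : ℕ) : ZMod M) =
      ((loc P V σ l ω m s : ℕ) : ZMod M) + a (c, i, ⟨V i, P.res him s⟩) := by
  classical
  unfold loc
  rw [Nat.cast_sum, Nat.cast_sum]
  simp only [Nat.cast_sum]
  have key : ∀ (c' : Cp r) (j : Fin r),
      ((if h : V j ⊆ V m then min (l c' j) ((ω + a) (c', j, ⟨V j, P.res h s⟩)).val else 0 : ℕ)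
        : ZMod M) =
      ((if h : V j ⊆ V m then min (l c' j) (ω (c', j, ⟨V j, P.res h s⟩)).val else 0 : ℕ)
        : ZMod M) + (if c' = c then (if j = i then a (c, i, ⟨V i, P.res him s⟩) else 0) else 0) := by
    intro c' j
    by_cases hc : c' = c
    · by_cases hj : j = i
      · subst hc
        subst hj
        rw [dif_pos him, dif_pos him, if_pos rfl, if_pos rfl, hfull,
          min_eq_right (ZMod.val_lt _).le, min_eq_right (ZMod.val_lt _).le,
          ZMod.natCast_zmod_val, ZMod.natCast_zmod_val, Pi.add_apply]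
      · rw [if_pos hc, if_neg hj, add_zero]
        by_cases h : V j ⊆ V m
        · rw [dif_pos h, dif_pos h, Pi.add_apply, ha, add_zero]
          rintro ⟨t, ht⟩
          exact hj (congrArg (fun z => z.2.1) ht)
        · rw [dif_neg h, dif_neg h]
    · rw [if_neg hc, add_zero]
      by_cases h : V j ⊆ V m
      · rw [dif_pos h, dif_pos h, Pi.add_apply, ha, add_zero]
        rintro ⟨t, ht⟩
        exact hc (congrArg (fun z => z.1) ht)
      · rw [dif_neg h, dif_neg h]
  rw [Finset.sum_congr rfl fun c' _ => Finset.sum_congr rfl fun j _ => key c' j]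
  simp only [Finset.sum_add_distrib]
  congr 1
  rw [Finset.sum_eq_single c]
  · simp only [if_true]
    rw [Finset.sum_ite_eq' σ i, if_pos hi]
  · intro c' _ hc
    simp only [if_neg hc]
    exact Finset.sum_const_zero
  · intro h
    exact absurd (Finset.mem_univ c) h

private theorem xh_apply (V : Fin r → Finset J) (c : Cp r) (i : Fin r) {v : Finset J}
    (h : v ⊆ V i) (x : P.F v → Bool) (t : P.F (V i)) :
    (xh P V c i h x (c, i, ⟨V i, t⟩) : ZMod M) =
      if x (P.res h t) = true then (((M + 1) / 2 : ℕ) : ZMod M) else 0 := by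
  classical
  unfold xh
  have e : (∃ t' : P.F (V i), ((c, i, ⟨V i, t⟩) : Ix P r) = (c, i, ⟨V i, t'⟩) ∧
      x (P.res h t') = true) ↔ x (P.res h t) = true := by
    constructor
    · rintro ⟨t', ht, hx⟩
      have h1 : (⟨V i, t⟩ : Pt P) = ⟨V i, t'⟩ := congrArg (fun z => z.2.2) ht
      have h2 : t = t' := by
        have := (Sigma.mk.inj h1).2
        exact eq_of_heq this
      rw [h2]
      exact hx
    · intro hx
      exact ⟨t, rfl, hx⟩
  by_cases hx : x (P.res h t) = true
  · rw [if_pos (e.2 hx), if_pos hx]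
  · rw [if_neg (fun h' => hx (e.1 h')), if_neg hx]

/-- a positive value of the smoothed indicator function gives a value in `Val` -/
theorem val_of_pos [Finite J] (hM : Odd M) (Φ : Fam P M R K E) (V : Fin r → Finset J)
    (σ : Finset (Fin r)) (l : Cp r → Fin r → ℕ) (m i : Fin r) (c : Cp r) (hi : i ∈ σ)
    (hfull : l c i = M) (him : V i ⊆ V m) {v : Finset J} (hvi : v ⊆ V i) (hvm : v ⊆ V m)
    (x : P.F v → Bool) (u : H) (ω : Ix P r → ZMod M)
    (hpos : 0 < Tn (Us P V c i) (gv Φ V σ l m u) (ω + xh P V c i hvi x)) :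
    Val Φ V σ l m hvm x ω u := by
  classical
  have hM0 : NeZero M := ⟨by rintro rfl; simp at hM⟩
  obtain ⟨η, hη⟩ := av_pos_exists (α := Ix P r → Bool) hpos
  have hη' : Φ.f (V m) (fun s => ((2 * loc P V σ l
      (ω + xh P V c i hvi x + bsh (Us P V c i) η) m s : ℕ) : ZMod M)) = u := by
    by_contra hcon
    have : gv Φ V σ l m u (ω + xh P V c i hvi x + bsh (Us P V c i) η) = 0 := by
      unfold gv
      rw [if_neg hcon]
    rw [this] at hη
    exact lt_irrefl _ hη
  refine ⟨fun s => η (c, i, ⟨V i, P.res him s⟩), ?_⟩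
  rw [← hη']
  congr 1
  funext s
  rw [add_assoc ω, Nat.cast_mul, loc_shift V σ l m i c hi hfull him
    ((xh P V c i hvi x : Ix P r → ZMod M) + bsh (Us P V c i) η) ?_ ω s]
  · rw [Pi.add_apply, xh_apply, P.res_res hvi him s]
    have hb : (bsh (Us P V c i) η (c, i, ⟨V i, P.res him s⟩) : ZMod M) =
        (((η (c, i, ⟨V i, P.res him s⟩)).toNat : ℕ) : ZMod M) := by
      unfold bsh
      by_cases h1 : η (c, i, ⟨V i, P.res him s⟩) = true
      · rw [if_pos ⟨⟨_, rfl⟩, h1⟩, h1]
        simp
      · rw [if_neg (fun h' => h1 h'.2)]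
        rw [Bool.not_eq_true] at h1
        rw [h1]
        simp
    have hx : ((2 : ℕ) : ZMod M) * (if x (P.res hvm s) = true then (((M + 1) / 2 : ℕ) : ZMod M)
        else 0) = (((x (P.res hvm s)).toNat : ℕ) : ZMod M) := by
      by_cases h1 : x (P.res hvm s) = true
      · rw [if_pos h1, h1, ← Nat.cast_mul]
        have : 2 * ((M + 1) / 2) = M + 1 := by
          obtain ⟨k, hk⟩ := hM
          omega
        rw [this]
        simp
      · rw [if_neg h1]
        rw [Bool.not_eq_true] at h1
        rw [h1]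
        simp
    rw [hb]
    have e : (P.res (hvi.trans him) s) = P.res hvm s := rfl
    rw [e, mul_add, mul_add, hx]
    push_cast
    ring
  · intro j hj
    rw [Pi.add_apply]
    have h1 : (xh P V c i hvi x j : ZMod M) = 0 := by
      unfold xh
      rw [if_neg]
      rintro ⟨t, ht, _⟩
      exact hj ⟨t, ht⟩
    have h2 : (bsh (Us P V c i) η j : ZMod M) = 0 := by
      unfold bsh
      rw [if_neg (fun h' => hj h'.1)]
    rw [h1, h2, add_zero]

/-- some value is popular -/
theorem popular [Finite J] [NeZero M] [Finite H] (Φ : Fam P M R K E) (V : Fin r → Finset J)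
    (σ : Finset (Fin r)) (l : Cp r → Fin r → ℕ) (m : Fin r) (U : Set (Ix P r))
    (ω : Ix P r → ZMod M) : ∃ u : H, 1 / (Nat.card H : ℝ) ≤ Tn U (gv Φ V σ l m u) ω := by
  classical
  have hH : Nonempty H := ⟨Φ.f ∅ (fun _ => 0)⟩
  have := Fintype.ofFinite H
  by_contra hcon
  push Not at hcon
  have h1 : ∑ u : H, Tn U (gv Φ V σ l m u) ω < ∑ u : H, 1 / (Nat.card H : ℝ) :=
    Finset.sum_lt_sum_of_nonempty Finset.univ_nonempty fun u _ => hcon u
  have h2 : ∑ u : H, 1 / (Nat.card H : ℝ) = 1 := by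
    rw [Finset.sum_const, nsmul_eq_mul, Finset.card_univ, Nat.card_eq_fintype_card]
    have : (Fintype.card H : ℝ) ≠ 0 := by
      have := Fintype.card_pos (α := H)
      positivity
    field_simp
  have h3 : ∑ u : H, Tn U (gv Φ V σ l m u) ω = 1 := by
    unfold Tn
    rw [← av_sum Finset.univ (fun (u : H) (η : Ix P r → Bool) =>
      gv Φ V σ l m u (ω + bsh U η))]
    have e : (fun η : Ix P r → Bool => ∑ u : H, gv Φ V σ l m u (ω + bsh U η)) =
        fun _ => (1 : ℝ) := by
      funext η
      unfold gv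
      rw [Finset.sum_ite_eq]
      simp
    rw [e, av_const]
  rw [h2, h3] at h1
  exact lt_irrefl _ h1

/-- the difference of two positions -/
theorem xh_diff [NeZero M] (V : Fin r → Finset J) (c : Cp r) (i : Fin r) {v : Finset J}
    (h : v ⊆ V i) (q : P.F v) (x x' : P.F v → Bool) (hx : ∀ q', q' ≠ q → x q' = x' q')
    (a : Ix P r) (ha : a ∉ Ss P V c i h q) :
    (xh P V c i h x' - xh P V c i h x : Ix P r → ZMod M) a = 0 := by
  classical
  rw [Pi.sub_apply, sub_eq_zero]
  unfold xh
  have e : (∃ t : P.F (V i), a = (c, i, ⟨V i, t⟩) ∧ x' (P.res h t) = true) ↔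
      ∃ t : P.F (V i), a = (c, i, ⟨V i, t⟩) ∧ x (P.res h t) = true := by
    constructor
    · rintro ⟨t, ht, hxt⟩
      refine ⟨t, ht, ?_⟩
      rw [hx]
      · exact hxt
      · intro hq
        exact ha ⟨t, hq, ht⟩
    · rintro ⟨t, ht, hxt⟩
      refine ⟨t, ht, ?_⟩
      rw [← hx]
      · exact hxt
      · intro hq
        exact ha ⟨t, hq, ht⟩
  by_cases h1 : ∃ t : P.F (V i), a = (c, i, ⟨V i, t⟩) ∧ x (P.res h t) = true
  · rw [if_pos h1, if_pos (e.2 h1)]
  · rw [if_neg h1, if_neg (fun h' => h1 (e.1 h'))]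

theorem Ss_subset (V : Fin r → Finset J) (c : Cp r) (i : Fin r) {v : Finset J}
    (h : v ⊆ V i) (q : P.F v) : Ss P V c i h q ⊆ Us P V c i := by
  rintro a ⟨t, _, ht⟩
  exact ⟨t, ht⟩

end

end Pool.Agent.Helper25.BG
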