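import Pool.Agent.Helper25.BG.BlkB
import Pool.Agent.Helper25.BG.Chain

/-! Module BG-NoBlk: there are no blocks of height `k`.

Unrolling (induction on `h`): for `Blk S n v h X` there are `N : ℕ → (ℕ → Fin n) → Finset (Finset J)` and
`T : ℕ → (ℕ → Fin n) → Finset J` such that `N h λ = X` and for all `j ≤ h`: `N j λ`, `T j λ` depend only on
`λ i`, `i ≥ j`; `T j λ ∈ N j λ`; if `j < h` then `N j λ ⊆ N (j+1) λ`, `T j λ ⊂ T (j+1) λ`; and if
`λ, μ` agree at all `i > j` and `λ j ≠ μ j` (`j < h`), then `L v (N j λ)`, `L v (N j μ)` are disjoint.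
(Height `h+1`: `N (h+1) λ = X`, `T (h+1) λ = W`, `N j λ = N^{Y (λ h)} j λ` for `j ≤ h`; `T 0` is the single top.)
For a block of height `k` and an address `λ : Fin k → Fin n` (extended by anything): `hchain` for
`U j = T j λ` gives `Z λ`, `q λ`. If `Z λ = Z` with least element `p ≥ 1`, then `q λ ∈ L v (N (p-1) λ)`
(`U j ∈ N (p-1) λ` for `j < p`) and `q λ ∈ L v (image of Z)`, a set that does not depend on `λ (p-1)` and has at
most `B (r-1) ≤ b` elements (`image` has exactly `r-1` elements). For given `Z` and given `λ i`, `i ≠ p-1`, the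
`q λ` are different for different `λ (p-1)`. So at most `b * n^(k-1)` addresses have `Z λ = Z`, and there are at most
`2^(k+1)` sets `Z`: `n^k ≤ 2^(k+1) * b * n^(k-1)`, contradiction. (`k ≥ 1` because `Z` is nonempty.) -/

set_option autoImplicit false
set_option linter.all false

namespace Pool.Agent.Helper25.BG

private theorem unroll {J : Type} {P : Psh J} {r K : ℕ} {B : ℕ → ℕ} (S : Lab P r K B) (n : ℕ)
    (v : Finset J) : ∀ (h : ℕ) (X : Finset (Finset J)), Blk S n v h X →
    ∃ (N : ℕ → (ℕ → Fin n) → Finset (Finset J)) (T : ℕ → (ℕ → Fin n) → Finset J),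
      (∀ lam, N h lam = X) ∧
      (∀ j ≤ h, ∀ lam mu : ℕ → Fin n, (∀ i, j ≤ i → lam i = mu i) →
        N j lam = N j mu ∧ T j lam = T j mu) ∧
      (∀ j ≤ h, ∀ lam, T j lam ∈ N j lam) ∧
      (∀ j < h, ∀ lam, N j lam ⊆ N (j + 1) lam ∧ T j lam ⊂ T (j + 1) lam) ∧
      (∀ j < h, ∀ lam mu : ℕ → Fin n, (∀ i, j < i → lam i = mu i) → lam j ≠ mu j →
        Disjoint (S.L v (N j lam)) (S.L v (N j mu))) := by
  intro h
  induction h with
  | zero =>
    rintro X ⟨U, hU, rfl⟩
    refine ⟨fun _ _ => {U}, fun _ _ => U, fun _ => rfl, fun _ _ _ _ _ => ⟨rfl, rfl⟩,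
      fun _ _ _ => Finset.mem_singleton_self U, fun j hj => absurd hj (Nat.not_lt_zero j),
      fun j hj => absurd hj (Nat.not_lt_zero j)⟩
  | succ h ih =>
    rintro X ⟨Y, W, hvW, hY, hYY, hYW, hdis, hX⟩
    choose N T h1 h2 h3 h4 h5 using fun i => ih (Y i) (hY i)
    refine ⟨fun j lam => if j ≤ h then N (lam h) j lam else X,
      fun j lam => if j ≤ h then T (lam h) j lam else W, ?_, ?_, ?_, ?_, ?_⟩
    · intro lam
      exact if_neg (Nat.not_succ_le_self h)
    · intro j hj lam mu hag
      by_cases hjh : j ≤ h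
      · have e := hag h hjh
        have := h2 (mu h) j hjh lam mu hag
        simp only [if_pos hjh, e]
        exact this
      · simp only [if_neg hjh]
        exact ⟨trivial, trivial⟩
    · intro j hj lam
      by_cases hjh : j ≤ h
      · simp only [if_pos hjh]
        exact h3 (lam h) j hjh lam
      · simp only [if_neg hjh]
        exact (hX W).2 (Or.inl rfl)
    · intro j hj lam
      have hjh : j ≤ h := Nat.lt_succ_iff.1 hj
      rcases Nat.lt_or_eq_of_le hjh with hlt | rfl
      · have hj1 : j + 1 ≤ h := hlt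
        simp only [if_pos hjh, if_pos hj1]
        exact h4 (lam h) j hlt lam
      · have hn : ¬ (j + 1 ≤ j) := Nat.not_succ_le_self j
        simp only [if_pos le_rfl, if_neg hn]
        constructor
        · rw [h1]
          intro U hU
          exact (hX U).2 (Or.inr ⟨_, hU⟩)
        · have h6 := h3 (lam j) j le_rfl lam
          rw [h1] at h6
          exact hYW _ _ h6
    · intro j hj lam mu hag hne
      have hjh : j ≤ h := Nat.lt_succ_iff.1 hj
      rcases Nat.lt_or_eq_of_le hjh with hlt | rfl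
      · have e := hag h hlt
        have := h5 (mu h) j hlt lam mu hag hne
        simp only [if_pos hjh, e]
        exact this
      · simp only [if_pos le_rfl, h1]
        exact hdis _ _ hne

private theorem fiber_card {k' n b : ℕ} {α : Type} [Finite α] (i0 : Fin (k' + 1))
    (A : Finset (Fin (k' + 1) → Fin n)) (q : (Fin (k' + 1) → Fin n) → α)
    (G : (Fin (k' + 1) → Fin n) → Set α)
    (hG : ∀ a ∈ A, (G a).ncard ≤ b)
    (hmem : ∀ a ∈ A, ∀ a' ∈ A, (∀ i, i ≠ i0 → a i = a' i) → q a' ∈ G a)
    (hinj : ∀ a ∈ A, ∀ a' ∈ A, (∀ i, i ≠ i0 → a i = a' i) → a i0 ≠ a' i0 → q a ≠ q a') :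
    A.card ≤ b * n ^ k' := by
  classical
  have h := Finset.card_le_mul_card_image_of_maps_to (s := A)
    (t := (Finset.univ : Finset (Fin k' → Fin n))) (f := fun a j => a (i0.succAbove j))
    (fun a _ => Finset.mem_univ _) b ?_
  · rwa [Finset.card_univ, Fintype.card_fun, Fintype.card_fin, Fintype.card_fin] at h
  · intro c _
    have hag : ∀ a ∈ A.filter (fun a => (fun j => a (i0.succAbove j)) = c),
        ∀ a' ∈ A.filter (fun a => (fun j => a (i0.succAbove j)) = c),
        ∀ i, i ≠ i0 → a i = a' i := by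
      intro a ha a' ha' i hi
      obtain ⟨j, rfl⟩ := Fin.exists_succAbove_eq hi
      have e1 := congrFun (Finset.mem_filter.1 ha).2 j
      have e2 := congrFun (Finset.mem_filter.1 ha').2 j
      exact e1.trans e2.symm
    rcases (A.filter (fun a => (fun j => a (i0.succAbove j)) = c)).eq_empty_or_nonempty with
      he | ⟨a0, ha0⟩
    · rw [he, Finset.card_empty]
      exact Nat.zero_le _
    · have hA0 := (Finset.mem_filter.1 ha0).1
      refine le_trans ?_ (hG a0 hA0)
      rw [← Set.ncard_coe_finset]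
      refine Set.ncard_le_ncard_of_injOn q ?_ ?_ (Set.toFinite _)
      · intro a ha
        exact hmem a0 hA0 a (Finset.mem_filter.1 ha).1 (hag a0 ha0 a ha)
      · intro a ha a' ha' hq
        by_contra hne
        have h1 := hag a ha a' ha'
        have h2 : a i0 ≠ a' i0 := by
          intro h2
          apply hne
          funext i
          by_cases hi : i = i0
          · rw [hi, h2]
          · exact h1 i hi
        exact hinj a (Finset.mem_filter.1 ha).1 a' (Finset.mem_filter.1 ha').1 h1 h2 hq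

theorem no_blk {J : Type} {P : Psh J} {r K : ℕ} {B : ℕ → ℕ} (S : Lab P r K B) (hr : 2 ≤ r)
    (k n : ℕ) (hn : 2 ^ (k + 1) * B (r - 1) < n) (hchain : ChainP S k) (v : Finset J)
    (X : Finset (Finset J)) (hX : Blk S n v k X) (hK : ∀ U ∈ X, U.card ≤ K) : False := by
  classical
  obtain ⟨N, T, h1, h2, h3, h4, h5⟩ := unroll S n v k X hX
  have hn0 : 0 < n := lt_of_le_of_lt (Nat.zero_le _) hn
  -- monotonicity
  have hNm : ∀ lam, ∀ j i, i ≤ j → j ≤ k → N i lam ⊆ N j lam := by
    intro lam j
    induction j with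
    | zero =>
      intro i hi _
      rw [Nat.le_zero.1 hi]
    | succ j ih =>
      intro i hi hj
      rcases Nat.lt_or_eq_of_le hi with hlt | rfl
      · exact (ih i (Nat.lt_succ_iff.1 hlt) (by omega)).trans (h4 j (by omega) lam).1
      · exact Finset.Subset.refl _
  have hTm : ∀ lam, ∀ j i, i < j → j ≤ k → T i lam ⊂ T j lam := by
    intro lam j
    induction j with
    | zero => intro i hi _; omega
    | succ j ih =>
      intro i hi hj
      rcases Nat.lt_or_eq_of_le (Nat.lt_succ_iff.1 hi) with hlt | rfl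
      · exact (ih i hlt (by omega)).trans (h4 j (by omega) lam).2
      · exact (h4 i (by omega) lam).2
  have hTX : ∀ lam, ∀ j ≤ k, T j lam ∈ X := by
    intro lam j hj
    have := hNm lam k j hj le_rfl (h3 j hj lam)
    rwa [h1] at this
  -- the chain lemma for every address
  have hch : ∀ lam : ℕ → Fin n, ∃ (Z : Finset ℕ) (q : P.F v), Z.card = r - 1 ∧
      (∀ z ∈ Z, 1 ≤ z ∧ z ≤ k) ∧
      (∀ X : Finset (Finset J), (∀ z ∈ Z, T z lam ∈ X) → q ∈ S.L v X) ∧
      ∀ X : Finset (Finset J), (∀ j, (∀ z ∈ Z, j < z) → T j lam ∈ X) → q ∈ S.L v X := by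
    intro lam
    obtain ⟨Z, hZ1, hZ2, q, hq1, hq2⟩ := hchain v (fun j => T j lam)
      (fun i j hij hj => hTm lam j i hij hj)
      (blk_abv S n hX _ (hTX lam 0 (Nat.zero_le k))).subset
      (fun i hi => hK _ (hTX lam i hi))
    exact ⟨Z, q, hZ1, hZ2, hq1, hq2⟩
  choose Zf qf hZ1 hZ2 hq1 hq2 using hch
  have hk : 1 ≤ k := by
    have h6 := hZ1 (fun _ => ⟨0, hn0⟩)
    have h7 : (Zf (fun _ => ⟨0, hn0⟩)).Nonempty := by
      rw [← Finset.card_pos, h6]
      omega
    obtain ⟨z, hz⟩ := h7
    have := hZ2 _ z hz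
    omega
  obtain ⟨k', rfl⟩ : ∃ k', k = k' + 1 := ⟨k - 1, by omega⟩
  let ex : (Fin (k' + 1) → Fin n) → ℕ → Fin n :=
    fun a i => if h : i < k' + 1 then a ⟨i, h⟩ else ⟨0, hn0⟩
  -- one set
  have hone : ∀ Z : Finset ℕ,
      ((Finset.univ : Finset (Fin (k' + 1) → Fin n)).filter (fun a => Zf (ex a) = Z)).card ≤
        B (r - 1) * n ^ k' := by
    intro Z
    rcases ((Finset.univ : Finset (Fin (k' + 1) → Fin n)).filter
      (fun a => Zf (ex a) = Z)).eq_empty_or_nonempty with he | ⟨b0, hb0⟩
    · rw [he, Finset.card_empty]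
      exact Nat.zero_le _
    have hb0' := (Finset.mem_filter.1 hb0).2
    have hZc : Z.card = r - 1 := by rw [← hb0']; exact hZ1 _
    have hZr : ∀ z ∈ Z, 1 ≤ z ∧ z ≤ k' + 1 := by rw [← hb0']; exact hZ2 _
    have hZn : Z.Nonempty := by
      rw [← Finset.card_pos, hZc]
      omega
    set p := Z.min' hZn with hp
    have hpZ : p ∈ Z := Finset.min'_mem _ _
    have hpr := hZr p hpZ
    have hpm : ∀ z ∈ Z, p ≤ z := fun z hz => Finset.min'_le _ _ hz
    have hag : ∀ a a' : Fin (k' + 1) → Fin n,
        (∀ i, i ≠ (⟨p - 1, by omega⟩ : Fin (k' + 1)) → a i = a' i) →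
        ∀ i, p - 1 < i → ex a i = ex a' i := by
      intro a a' h i hi
      show (if h : i < k' + 1 then a ⟨i, h⟩ else ⟨0, hn0⟩) =
        (if h : i < k' + 1 then a' ⟨i, h⟩ else ⟨0, hn0⟩)
      by_cases hik : i < k' + 1
      · rw [dif_pos hik, dif_pos hik]
        refine h _ fun e => ?_
        have := congrArg Fin.val e
        simp only at this
        omega
      · rw [dif_neg hik, dif_neg hik]
    refine fiber_card (⟨p - 1, by omega⟩ : Fin (k' + 1)) _ (fun a => qf (ex a))
      (fun a => S.L v (Z.image (fun z => T z (ex a)))) ?_ ?_ ?_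
    · intro a ha
      refine (S.bound v _).trans (le_of_eq ?_)
      congr 1
      rw [Finset.card_image_of_injOn, hZc]
      intro z hz z' hz' he
      by_contra hne
      rcases Nat.lt_or_gt_of_ne hne with hlt | hlt
      · exact (hTm (ex a) z' z hlt (hZr z' hz').2).ne he
      · exact (hTm (ex a) z z' hlt (hZr z hz).2).ne he.symm
    · intro a ha a' ha' h
      have ha1 := (Finset.mem_filter.1 ha').2
      refine hq1 (ex a') _ fun z hz => ?_
      rw [ha1] at hz
      refine Finset.mem_image.2 ⟨z, hz, ?_⟩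
      refine (h2 z (hZr z hz).2 (ex a) (ex a') fun i hi => ?_).2
      refine hag a a' h i ?_
      have := hpm z hz
      omega
    · intro a ha a' ha' h hne heq
      have hmem : ∀ c ∈ (Finset.univ : Finset (Fin (k' + 1) → Fin n)).filter
          (fun a => Zf (ex a) = Z), qf (ex c) ∈ S.L v (N (p - 1) (ex c)) := by
        intro c hc
        have hc1 := (Finset.mem_filter.1 hc).2
        refine hq2 (ex c) _ fun j hj => ?_
        have hjp : j < p := hj p (by rw [hc1]; exact hpZ)
        exact hNm (ex c) (p - 1) j (by omega) (by omega) (h3 j (by omega) (ex c))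
      have hd := h5 (p - 1) (by omega) (ex a) (ex a') (hag a a' h) (by
        show (if h : p - 1 < k' + 1 then a ⟨p - 1, h⟩ else ⟨0, hn0⟩) ≠
          (if h : p - 1 < k' + 1 then a' ⟨p - 1, h⟩ else ⟨0, hn0⟩)
        have hik : p - 1 < k' + 1 := by omega
        rw [dif_pos hik, dif_pos hik]
        exact hne)
      have e1 := hmem a ha
      have e2 := hmem a' ha'
      have heq' : qf (ex a) = qf (ex a') := heq
      rw [← heq'] at e2
      exact Set.disjoint_left.1 hd e1 e2
  -- the count
  have hcount : n ^ (k' + 1) ≤ 2 ^ (k' + 1 + 1) * (B (r - 1) * n ^ k') := by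
    have h6 := Finset.card_eq_sum_card_fiberwise
      (s := (Finset.univ : Finset (Fin (k' + 1) → Fin n))) (f := fun a => Zf (ex a))
      (t := (Finset.range (k' + 1 + 1)).powerset) (by
        intro a _
        refine Finset.mem_coe.2 (Finset.mem_powerset.2 fun z hz => ?_)
        have := (hZ2 _ z hz).2
        exact Finset.mem_range.2 (by omega))
    rw [Finset.card_univ, Fintype.card_fun, Fintype.card_fin, Fintype.card_fin] at h6
    rw [h6]
    refine (Finset.sum_le_card_nsmul _ _ _ fun Z _ => hone Z).trans (le_of_eq ?_)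
    rw [Finset.card_powerset, Finset.card_range, smul_eq_mul]
  have h8 : n * n ^ k' ≤ (2 ^ (k' + 1 + 1) * B (r - 1)) * n ^ k' := by
    calc n * n ^ k' = n ^ (k' + 1) := by ring
      _ ≤ 2 ^ (k' + 1 + 1) * (B (r - 1) * n ^ k') := hcount
      _ = _ := by ring
  have h9 := Nat.le_of_mul_le_mul_right h8 (pow_pos hn0 k')
  omega

end Pool.Agent.Helper25.BG
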