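import Pool.Agent.Helper25.BG.Defs

/-! Module BG-Sel: selection of samples, class by class.

Induction on the number of classes (prove it first for `I = Fin m`, or by induction on `I` with
`Fintype.induction_empty_option`, then transfer). Step, classes `Option I` (or `Fin (m+1)`), new class
`none`: for every vertex `k` of class `none` choose `x_k ∈ Ω` such that for each of the at most `D`
events `e` with `s e none = k`: `#{ω : I → Ω | Bad e (none ↦ x_k, some c ↦ ω c)} * (2D)^|I| <
|Ω|^|I|`. It exists: for one event `e` the number `N` of bad `x` (violating this) satisfies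
`N * |Ω|^|I| ≤ (2D)^|I| * #Bad e`, so `N * 2D < |Ω|` by the hypothesis, and the union over at most
`D` events has less than `|Ω|` elements. -/

set_option autoImplicit false
set_option linter.all false

namespace Pool.Agent.Helper25.BG

open scoped Classical in
private theorem sel_sum {Ω : Type} [Fintype Ω] (n : ℕ) (B : (Fin (n+1) → Ω) → Prop) :
    ∑ x : Ω, (Finset.univ.filter (fun ω : Fin n → Ω => B (Fin.cons x ω))).card
      = (Finset.univ.filter B).card := by
  classical
  simp only [Finset.card_filter]
  rw [← Fintype.sum_prod_type' (f := fun (x : Ω) (ω : Fin n → Ω) => if B (Fin.cons x ω) then 1 else 0)]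
  exact Fintype.sum_equiv (Fin.consEquiv (fun _ : Fin (n+1) => Ω)) _ _ (fun p => rfl)

open scoped Classical in
private theorem sel_fin (D : ℕ) (hD0 : 1 ≤ D) {Ω : Type} [Fintype Ω] [Nonempty Ω] : ∀ (n : ℕ)
    {Γ Ev : Type} (s : Ev → Fin n → Γ)
    (hD : ∀ c k, ∃ E : Finset Ev, (∀ e, s e c = k → e ∈ E) ∧ E.card ≤ D)
    (Bad : Ev → (Fin n → Ω) → Prop)
    (hB : ∀ e, (Finset.univ.filter (Bad e)).card * (2 * D) ^ n < Fintype.card Ω ^ n),
    ∃ W : Fin n → Γ → Ω, ∀ e, ¬ Bad e (fun c => W c (s e c)) := by
  classical
  intro n
  induction n with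
  | zero =>
    intro Γ Ev s hD Bad hB
    obtain ⟨x0⟩ := (inferInstance : Nonempty Ω)
    refine ⟨fun _ _ => x0, fun e he => ?_⟩
    have h := hB e
    simp only [pow_zero, mul_one, Nat.lt_one_iff, Finset.card_eq_zero] at h
    have : (fun c => (fun (_ : Fin 0) (_ : Γ) => x0) c (s e c)) ∈ Finset.univ.filter (Bad e) := by
      simp only [Finset.mem_filter, Finset.mem_univ, true_and]
      exact he
    rw [h] at this
    exact absurd this (Finset.notMem_empty _)
  | succ n ih =>
    intro Γ Ev s hD Bad hB
    have hΩ : 0 < Fintype.card Ω := Fintype.card_pos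
    have key : ∀ k : Γ, ∃ x : Ω, ∀ e, s e 0 = k →
        (Finset.univ.filter (fun ω : Fin n → Ω => Bad e (Fin.cons x ω))).card * (2 * D) ^ n
          < Fintype.card Ω ^ n := by
      intro k
      obtain ⟨E, hE, hEc⟩ := hD 0 k
      -- bad x for an event
      let N : Ev → Finset Ω := fun e => Finset.univ.filter (fun x =>
        Fintype.card Ω ^ n ≤ (Finset.univ.filter (fun ω : Fin n → Ω => Bad e (Fin.cons x ω))).card
          * (2 * D) ^ n)
      have hN : ∀ e, (N e).card * (2 * D) < Fintype.card Ω := by
        intro e
        have h1 : (N e).card * Fintype.card Ω ^ n ≤ (Finset.univ.filter (Bad e)).card * (2 * D) ^ n := by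
          rw [← sel_sum n (Bad e), Finset.sum_mul]
          calc (N e).card * Fintype.card Ω ^ n = ∑ x ∈ N e, Fintype.card Ω ^ n := by
                rw [Finset.sum_const, smul_eq_mul]
            _ ≤ ∑ x ∈ N e, (Finset.univ.filter (fun ω : Fin n → Ω => Bad e (Fin.cons x ω))).card
                  * (2 * D) ^ n := by
                apply Finset.sum_le_sum
                intro x hx
                exact (Finset.mem_filter.mp hx).2
            _ ≤ ∑ x : Ω, (Finset.univ.filter (fun ω : Fin n → Ω => Bad e (Fin.cons x ω))).card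
                  * (2 * D) ^ n :=
                Finset.sum_le_sum_of_subset (Finset.subset_univ _)
        have h2 : (N e).card * (2 * D) * Fintype.card Ω ^ n < Fintype.card Ω * Fintype.card Ω ^ n := by
          calc (N e).card * (2 * D) * Fintype.card Ω ^ n
              = (N e).card * Fintype.card Ω ^ n * (2 * D) := by ring
            _ ≤ (Finset.univ.filter (Bad e)).card * (2 * D) ^ n * (2 * D) :=
                Nat.mul_le_mul_right _ h1
            _ = (Finset.univ.filter (Bad e)).card * (2 * D) ^ (n + 1) := by ring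
            _ < Fintype.card Ω ^ (n + 1) := hB e
            _ = Fintype.card Ω * Fintype.card Ω ^ n := by ring
        exact lt_of_mul_lt_mul_right h2 (Nat.zero_le _)
      -- union bound
      have hU : (E.biUnion N).card < Fintype.card Ω := by
        rcases Finset.eq_empty_or_nonempty E with hE0 | hE0
        · rw [hE0]; simpa using hΩ
        · have h3 : (E.biUnion N).card ≤ ∑ e ∈ E, (N e).card := Finset.card_biUnion_le
          have h4 : (∑ e ∈ E, (N e).card) * (2 * D) < E.card * Fintype.card Ω := by
            rw [Finset.sum_mul]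
            calc ∑ e ∈ E, (N e).card * (2 * D) < ∑ e ∈ E, Fintype.card Ω :=
                  Finset.sum_lt_sum_of_nonempty hE0 (fun e _ => hN e)
              _ = E.card * Fintype.card Ω := by rw [Finset.sum_const, smul_eq_mul]
          have h5 : E.card * Fintype.card Ω ≤ D * Fintype.card Ω := Nat.mul_le_mul_right _ hEc
          have h6 : (E.biUnion N).card * (2 * D) < D * Fintype.card Ω :=
            lt_of_le_of_lt (Nat.mul_le_mul_right _ h3) (lt_of_lt_of_le h4 h5)
          have h7 : D * ((E.biUnion N).card * 2) < D * Fintype.card Ω := by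
            calc D * ((E.biUnion N).card * 2) = (E.biUnion N).card * (2 * D) := by ring
              _ < _ := h6
          have h8 := lt_of_mul_lt_mul_left h7 (Nat.zero_le _)
          omega
      obtain ⟨x, hx⟩ : ∃ x, x ∉ E.biUnion N := by
        by_contra hcon
        push Not at hcon
        have : E.biUnion N = Finset.univ := Finset.eq_univ_iff_forall.mpr hcon
        rw [this, Finset.card_univ] at hU
        exact absurd hU (lt_irrefl _)
      refine ⟨x, fun e he => ?_⟩
      by_contra hcon
      apply hx
      rw [Finset.mem_biUnion]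
      exact ⟨e, hE e he, Finset.mem_filter.mpr ⟨Finset.mem_univ _, not_lt.mp hcon⟩⟩
    choose x hx using key
    obtain ⟨W, hW⟩ := ih (fun e c => s e c.succ) (fun c k => hD c.succ k)
      (fun e ω => Bad e (Fin.cons (x (s e 0)) ω)) (fun e => hx (s e 0) e rfl)
    refine ⟨Fin.cons (α := fun _ => Γ → Ω) x W, fun e he => hW e ?_⟩
    have : (fun c => (Fin.cons (α := fun _ => Γ → Ω) x W : Fin (n+1) → Γ → Ω) c (s e c))
        = Fin.cons (x (s e 0)) (fun c : Fin n => W c (s e c.succ)) := by
      funext c
      refine Fin.cases ?_ (fun c => ?_) c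
      · simp
      · simp
    rw [this] at he
    exact he

theorem select {I Γ Ev Ω : Type} [Fintype I] [Finite Ω] [Nonempty Ω] (cl : Γ → I)
    (s : Ev → I → Γ) (hs : ∀ e c, cl (s e c) = c) (D : ℕ) (hD0 : 1 ≤ D)
    (hD : ∀ k : Γ, {e | s e (cl k) = k}.Finite ∧ {e | s e (cl k) = k}.ncard ≤ D)
    (Bad : Ev → (I → Ω) → Prop)
    (hB : ∀ e, {ω | Bad e ω}.ncard * (2 * D) ^ Fintype.card I < Nat.card Ω ^ Fintype.card I) :
    ∃ W : Γ → Ω, ∀ e, ¬ Bad e fun c => W (s e c) := by
  classical
  haveI : Fintype Ω := Fintype.ofFinite Ω
  let σ : I ≃ Fin (Fintype.card I) := Fintype.equivFin I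
  obtain ⟨W, hW⟩ := sel_fin D hD0 (Ω := Ω) (Fintype.card I) (fun e c => s e (σ.symm c)) (by
      intro c k
      by_cases hc : cl k = σ.symm c
      · refine ⟨(hD k).1.toFinset, fun e he => ?_, ?_⟩
        · rw [Set.Finite.mem_toFinset, Set.mem_setOf_eq, hc]
          exact he
        · rw [← Set.ncard_eq_toFinset_card _ (hD k).1]
          exact (hD k).2
      · refine ⟨∅, fun e he => ?_, by simp⟩
        exfalso
        apply hc
        rw [← he]
        exact hs e _)
    (fun e ω => Bad e (fun c => ω (σ c))) (by
      intro e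
      have h := hB e
      rw [Nat.card_eq_fintype_card] at h
      refine lt_of_le_of_lt (Nat.mul_le_mul_right _ ?_) h
      rw [Set.ncard_eq_toFinset_card']
      refine Finset.card_le_card_of_injOn (fun (ω : Fin (Fintype.card I) → Ω) (c : I) => ω (σ c)) ?_ ?_
      · intro ω hω
        have := (Finset.mem_filter.mp (Finset.mem_coe.mp hω)).2
        simpa using this
      · intro ω _ ω' _ heq
        funext c
        have := congrFun heq (σ.symm c)
        simpa using this)
  refine ⟨fun k => W (σ (cl k)) k, fun e he => hW e ?_⟩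
  have : (fun c => W (σ (cl (s e c))) (s e c)) = (fun c => W (σ c) (s e (σ.symm (σ c)))) := by
    funext c
    rw [hs, Equiv.symm_apply_apply]
  rw [this] at he
  exact he

end Pool.Agent.Helper25.BG
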