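import Pool.Agent.Helper25.BG.Test
import Pool.Agent.Helper25.BG.Sel
import Pool.Agent.Helper25.BG.Asg
import Pool.Agent.Helper25.BG.Adj

/-! Module BG-SelSmp: the samples.

Apply `select` with `I = Cp r`, `Γ = Ev = Fin r → ℕ`, `Ω = Fin r × Pt P → ZMod M`, `cl = cls`,
`s = ver`, `D = 2 ^ r` (`cls_ver`, `ver_count`), and `Bad a ω` = some test of the cube `a` fails for
the sample `fun p => ω p.1 p.2` of `Ix P r = Cp r × (Fin r × Pt P)` (currying is a bijection). A test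
is given by `z`, `σ` (which determines `m`) and `l : Cp r → Fin r → {0, …, M}`: at most
`2^r * 2^r * (M+1)^(r 2^r)` tests, each fails with probability at most the bound of `test`
(`D = Ch M e iq a`, `XX = {x | ∀ q ∉ Ch, x q = z (asg (ctr M a) q)}`; `Nat.card H ≤ r`). `Sm` is exactly what
is needed. -/

set_option autoImplicit false
set_option linter.all false

namespace Pool.Agent.Helper25.BG

/-- `τ` is small -/
def Sm (r M : ℕ) (τ : ℝ) : Prop :=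
  (2 : ℝ) ^ r * 2 ^ r * ((M : ℝ) + 1) ^ (r * 2 ^ r) *
    ((r : ℝ) ^ 3 * 2 ^ r * (8 * (r : ℝ) ^ 2 * (M : ℝ) ^ 2 * τ)) * (2 * 2 ^ r) ^ (2 ^ r) < 1

/-- a corner of the cube `a` -/
def ctr {r : ℕ} (M : ℕ) (a : Fin r → ℕ) : Fin r → ℕ := fun i => a i * (2 * M)

theorem sel_smp {J : Type} [Finite J] {P : Psh J} {M R K r : ℕ} (hM : Odd M) {H : Type} [Finite H]
    (hH : Nat.card H ≤ r) {E : H → H → Prop} (Φ : Fam P M R K E) {τ : ℝ} (hτ : 0 ≤ τ)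
    (hsm : Sm r M τ) {v : Finset J} (V : Fin r → Finset J) (hV : Monotone V) (hv : ∀ i, v ⊆ V i)
    (iq : P.F v → Fin r)
    (hiq : ∀ (q : P.F v) (σ : Finset (Fin r)), σ.Nonempty → iq q ∉ σ → ¬ Tin Φ τ v V σ q)
    (e : P.F v → ℕ) (he : Function.Injective e) :
    ∃ W : (Fin r → ℕ) → (Fin r × Pt P → ZMod M), ∀ (a : Fin r → ℕ) (z : Fin r → Bool)
      (σ : Finset (Fin r)) (m : Fin r) (l : Cp r → Fin r → ℕ), m ∈ σ → (∀ j ∈ σ, j ≤ m) →
      (∀ c j, l c j ≤ M) → (∃ c, ∃ i ∈ σ, l c i = M) → (∀ q ∈ Ch M e iq a, iq q ∉ σ) →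
      ∃ u : H, ∀ x : P.F v → Bool,
        (∀ q, q ∉ Ch M e iq a → x q = z (asg M e iq (ctr M a) q)) →
          Val Φ V σ l m (hv m) x (smp W a) u := by
  classical
  have hM0 : NeZero M := ⟨by
    rintro rfl
    exact absurd hM (by decide)⟩
  let Okk : (Fin r → ℕ) → (Ix P r → ZMod M) → Prop := fun a ω =>
    ∀ (z : Fin r → Bool) (σ : Finset (Fin r)) (m : Fin r) (l : Cp r → Fin r → ℕ), m ∈ σ →
      (∀ j ∈ σ, j ≤ m) → (∀ c j, l c j ≤ M) → (∃ c, ∃ i ∈ σ, l c i = M) →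
      (∀ q ∈ Ch M e iq a, iq q ∉ σ) →
      ∃ u : H, ∀ x : P.F v → Bool,
        (∀ q, q ∉ Ch M e iq a → x q = z (asg M e iq (ctr M a) q)) →
          Val Φ V σ l m (hv m) x ω u
  have hr0 : (0 : ℝ) ≤ r := Nat.cast_nonneg r
  have hM1 : (0 : ℝ) ≤ M := Nat.cast_nonneg M
  have hN0 : (0 : ℝ) ≤ (Nat.card (Ix P r → ZMod M) : ℝ) := Nat.cast_nonneg _
  have hpos : (0 : ℝ) < (Nat.card (Ix P r → ZMod M) : ℝ) := by
    exact_mod_cast Nat.card_pos
  have hHr : (Nat.card H : ℝ) ≤ r := by exact_mod_cast hH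
  have hone : ∀ (a : Fin r → ℕ) (z : Fin r → Bool) (σ : Finset (Fin r))
      (l : Cp r → Fin r → ℕ), (∀ c j, l c j ≤ M) →
      (({ω : Ix P r → ZMod M | ∃ m : Fin r, m ∈ σ ∧ (∀ j ∈ σ, j ≤ m) ∧
        (∃ c, ∃ i ∈ σ, l c i = M) ∧ (∀ q ∈ Ch M e iq a, iq q ∉ σ) ∧
        ¬ ∃ u : H, ∀ x : P.F v → Bool,
          (∀ q, q ∉ Ch M e iq a → x q = z (asg M e iq (ctr M a) q)) →
            Val Φ V σ l m (hv m) x ω u}.ncard : ℕ) : ℝ) ≤
        ((r : ℝ) ^ 3 * 2 ^ r * (8 * (r : ℝ) ^ 2 * (M : ℝ) ^ 2 * τ)) *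
          Nat.card (Ix P r → ZMod M) := by
    intro a z σ l hl
    have hB0 : 0 ≤ ((r : ℝ) ^ 3 * 2 ^ r * (8 * (r : ℝ) ^ 2 * (M : ℝ) ^ 2 * τ)) *
        Nat.card (Ix P r → ZMod M) := by positivity
    by_cases hex : ∃ m : Fin r, m ∈ σ ∧ (∀ j ∈ σ, j ≤ m) ∧
        (∃ c, ∃ i ∈ σ, l c i = M) ∧ (∀ q ∈ Ch M e iq a, iq q ∉ σ)
    · obtain ⟨m, hm, hmax, ⟨c, i, hi, hfull⟩, hq⟩ := hex
      have h1 := test hM Φ hτ V hV hv σ m hm hmax l hl c i hi hfull (Ch M e iq a)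
        (ch_card he a) (fun q hq' => hiq q σ ⟨m, hm⟩ (hq q hq'))
        {x | ∀ q, q ∉ Ch M e iq a → x q = z (asg M e iq (ctr M a) q)}
        (fun x hx x' hx' q hqn => (hx q hqn).trans (hx' q hqn).symm)
      have h2 : {ω : Ix P r → ZMod M | ∃ m : Fin r, m ∈ σ ∧ (∀ j ∈ σ, j ≤ m) ∧
          (∃ c, ∃ i ∈ σ, l c i = M) ∧ (∀ q ∈ Ch M e iq a, iq q ∉ σ) ∧
          ¬ ∃ u : H, ∀ x : P.F v → Bool,
            (∀ q, q ∉ Ch M e iq a → x q = z (asg M e iq (ctr M a) q)) →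
              Val Φ V σ l m (hv m) x ω u} ⊆
          {ω : Ix P r → ZMod M | ¬ ∃ u, ∀ x ∈
            {x | ∀ q, q ∉ Ch M e iq a → x q = z (asg M e iq (ctr M a) q)},
            Val Φ V σ l m (hv m) x ω u} := by
        rintro ω ⟨m', hm', hmax', _, _, hn⟩
        have hmm : m' = m := le_antisymm (hmax m' hm') (hmax' m hm)
        subst hmm
        exact hn
      have h3 := Set.ncard_le_ncard h2 (Set.toFinite _)
      refine (Nat.cast_le.2 h3).trans (h1.trans ?_)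
      refine mul_le_mul_of_nonneg_right ?_ hN0
      have h4 : (Nat.card H : ℝ) ^ 3 ≤ (r : ℝ) ^ 3 :=
        pow_le_pow_left₀ (Nat.cast_nonneg _) hHr 3
      exact mul_le_mul_of_nonneg_right (mul_le_mul_of_nonneg_right h4 (by positivity))
        (by positivity)
    · have h2 : {ω : Ix P r → ZMod M | ∃ m : Fin r, m ∈ σ ∧ (∀ j ∈ σ, j ≤ m) ∧
          (∃ c, ∃ i ∈ σ, l c i = M) ∧ (∀ q ∈ Ch M e iq a, iq q ∉ σ) ∧
          ¬ ∃ u : H, ∀ x : P.F v → Bool,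
            (∀ q, q ∉ Ch M e iq a → x q = z (asg M e iq (ctr M a) q)) →
              Val Φ V σ l m (hv m) x ω u} = ∅ := by
        refine Set.eq_empty_of_forall_notMem ?_
        rintro ω ⟨m', hm', hmax', hc, hq, _⟩
        exact hex ⟨m', hm', hmax', hc, hq⟩
      rw [h2, Set.ncard_empty, Nat.cast_zero]
      exact hB0
  have key : ∀ a, (({ω | ¬ Okk a ω}.ncard : ℕ) : ℝ) ≤
      ((2 : ℝ) ^ r * 2 ^ r * ((M : ℝ) + 1) ^ (r * 2 ^ r)) *
        (((r : ℝ) ^ 3 * 2 ^ r * (8 * (r : ℝ) ^ 2 * (M : ℝ) ^ 2 * τ)) *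
          Nat.card (Ix P r → ZMod M)) := by
    intro a
    let T := (Fin r → Bool) × Finset (Fin r) × (Cp r → Fin r → Fin (M + 1))
    let S : T → Set (Ix P r → ZMod M) := fun t =>
      {ω : Ix P r → ZMod M | ∃ m : Fin r, m ∈ t.2.1 ∧ (∀ j ∈ t.2.1, j ≤ m) ∧
        (∃ c, ∃ i ∈ t.2.1, (t.2.2 c i : ℕ) = M) ∧ (∀ q ∈ Ch M e iq a, iq q ∉ t.2.1) ∧
        ¬ ∃ u : H, ∀ x : P.F v → Bool,
          (∀ q, q ∉ Ch M e iq a → x q = t.1 (asg M e iq (ctr M a) q)) →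
            Val Φ V t.2.1 (fun c j => (t.2.2 c j : ℕ)) m (hv m) x ω u}
    have hsub : {ω | ¬ Okk a ω} ⊆ ⋃ t : T, S t := by
      intro ω hω
      have hω' : ¬ Okk a ω := hω
      simp only [Okk] at hω'
      push Not at hω'
      obtain ⟨z, σ, m, l, hm, hmax, hl, hc, hq, hn⟩ := hω'
      refine Set.mem_iUnion.2 ⟨⟨z, σ, fun c j => ⟨l c j, Nat.lt_succ_of_le (hl c j)⟩⟩, ?_⟩
      refine ⟨m, hm, hmax, hc, hq, ?_⟩
      rintro ⟨u, hu⟩
      obtain ⟨x, hx1, hx2⟩ := hn u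
      exact hx2 (hu x hx1)
    have hcard : (Fintype.card T : ℝ) =
        (2 : ℝ) ^ r * 2 ^ r * ((M : ℝ) + 1) ^ (r * 2 ^ r) := by
      simp only [T, Cp, Fintype.card_prod, Fintype.card_fun, Fintype.card_bool,
        Fintype.card_fin, Fintype.card_finset]
      push_cast
      rw [← pow_mul]
      ring
    have h1 : ({ω | ¬ Okk a ω}.ncard : ℕ) ≤ ∑ t : T, (S t).ncard := by
      refine (Set.ncard_le_ncard hsub (Set.toFinite _)).trans ?_
      exact Set.ncard_iUnion_le_of_fintype S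
    calc (({ω | ¬ Okk a ω}.ncard : ℕ) : ℝ) ≤ ((∑ t : T, (S t).ncard : ℕ) : ℝ) :=
          Nat.cast_le.2 h1
      _ = ∑ t : T, ((S t).ncard : ℝ) := by push_cast; rfl
      _ ≤ ∑ _t : T, (((r : ℝ) ^ 3 * 2 ^ r * (8 * (r : ℝ) ^ 2 * (M : ℝ) ^ 2 * τ)) *
          Nat.card (Ix P r → ZMod M)) := Finset.sum_le_sum fun t _ =>
            hone a t.1 t.2.1 (fun c j => (t.2.2 c j : ℕ))
              (fun c j => Nat.le_of_lt_succ (t.2.2 c j).isLt)
      _ = _ := by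
          rw [Finset.sum_const, nsmul_eq_mul, Finset.card_univ, hcard]
  obtain ⟨W, hW⟩ := select (I := Cp r) (Γ := Fin r → ℕ) (Ev := Fin r → ℕ)
    (Ω := Fin r × Pt P → ZMod M) cls ver cls_ver (2 ^ r) Nat.one_le_two_pow
    (fun k => ver_count k) (fun a ω => ¬ Okk a (fun p => ω p.1 p.2)) (by
      intro a
      have hI : Fintype.card (Cp r) = 2 ^ r := by
        simp [Cp]
      have hcardN : Nat.card (Ix P r → ZMod M) =
          Nat.card (Fin r × Pt P → ZMod M) ^ Fintype.card (Cp r) := by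
        rw [Nat.card_congr (Equiv.curry (Cp r) (Fin r × Pt P) (ZMod M)), Nat.card_fun,
          Nat.card_eq_fintype_card (α := Cp r)]
      have h1 : {ω : Cp r → Fin r × Pt P → ZMod M | ¬ Okk a (fun p => ω p.1 p.2)}.ncard ≤
          {ω : Ix P r → ZMod M | ¬ Okk a ω}.ncard := by
        refine Set.ncard_le_ncard_of_injOn (fun ω p => ω p.1 p.2) (fun ω hω => hω) ?_
          (Set.toFinite _)
        intro ω _ ω' _ h
        funext c p
        exact congrFun h (c, p)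
      rw [← hcardN, hI]
      have h2 := key a
      have h3 : (({ω : Cp r → Fin r × Pt P → ZMod M | ¬ Okk a (fun p => ω p.1 p.2)}.ncard *
          (2 * 2 ^ r) ^ (2 ^ r) : ℕ) : ℝ) < (Nat.card (Ix P r → ZMod M) : ℝ) := by
        push_cast
        have h4 : (({ω : Cp r → Fin r × Pt P → ZMod M | ¬ Okk a (fun p => ω p.1 p.2)}.ncard :
            ℕ) : ℝ) ≤ ((2 : ℝ) ^ r * 2 ^ r * ((M : ℝ) + 1) ^ (r * 2 ^ r)) *
              (((r : ℝ) ^ 3 * 2 ^ r * (8 * (r : ℝ) ^ 2 * (M : ℝ) ^ 2 * τ)) *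
                Nat.card (Ix P r → ZMod M)) := (Nat.cast_le.2 h1).trans h2
        calc _ ≤ (((2 : ℝ) ^ r * 2 ^ r * ((M : ℝ) + 1) ^ (r * 2 ^ r)) *
              (((r : ℝ) ^ 3 * 2 ^ r * (8 * (r : ℝ) ^ 2 * (M : ℝ) ^ 2 * τ)) *
                Nat.card (Ix P r → ZMod M))) * (2 * 2 ^ r) ^ (2 ^ r) :=
              mul_le_mul_of_nonneg_right h4 (by positivity)
          _ = ((2 : ℝ) ^ r * 2 ^ r * ((M : ℝ) + 1) ^ (r * 2 ^ r) *
              ((r : ℝ) ^ 3 * 2 ^ r * (8 * (r : ℝ) ^ 2 * (M : ℝ) ^ 2 * τ)) *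
                (2 * 2 ^ r) ^ (2 ^ r)) * Nat.card (Ix P r → ZMod M) := by ring
          _ < 1 * Nat.card (Ix P r → ZMod M) := mul_lt_mul_of_pos_right hsm hpos
          _ = _ := one_mul _
      exact_mod_cast h3)
  refine ⟨W, fun a => ?_⟩
  have h := not_not.1 (hW a)
  exact h

end Pool.Agent.Helper25.BG
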