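import Pool.Agent.Helper25.BG.BlkB

/-! Module BG-Stack: stacking blocks.

Given `u ⊇ v`, `u.card ≤ a 0`. By induction on `i ≤ n` one finds blocks `Y 0, …, Y (i-1)` of height `h`
and `u_i ⊇ u` with `u_i.card ≤ a i`, all elements of all `Y j` proper supersets of `u` and subsets of
`u_i`, of card at most `a i`, every element of `Y j` a proper subset of every element of `Y j'` for `j < j'`, and pairwise
disjoint label sets. Step: `g` = union of the `L v (Y j)`, `j < i` (finite sets), `g.card ≤ (n-1) * B (bs n h)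
≤ D`; since `Win` fails for `u_i`, `g`, there is a block `Y i` above `u_i` with sizes `≤ a (i+1)` not hit
by `g`; `u_{i+1}` = its top (`blk_top`). At the end `W = insert x u_n` with `x ∉ u_n` (`a n < Nat.card J`). -/

set_option autoImplicit false
set_option linter.all false

namespace Pool.Agent.Helper25.BG

private theorem stack_labels {J : Type} {P : Psh J} {r K : ℕ} {B : ℕ → ℕ}
    (S : Lab P r K B) (n h i : ℕ) (hB : Monotone B) {v : Finset J} (Y : ℕ → Finset (Finset J))
    (hY : ∀ j, j < i → Blk S n v h (Y j)) :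
    ∃ g : Finset (P.F v), g.card ≤ i * B (bs n h) ∧
      ∀ j, j < i → ∀ q ∈ S.L v (Y j), q ∈ g := by
  classical
  refine ⟨(Finset.range i).biUnion fun j => (Set.toFinite (S.L v (Y j))).toFinset, ?_, ?_⟩
  · calc ((Finset.range i).biUnion fun j => (Set.toFinite (S.L v (Y j))).toFinset).card
        ≤ ∑ j ∈ Finset.range i, ((Set.toFinite (S.L v (Y j))).toFinset).card :=
          Finset.card_biUnion_le
      _ ≤ ∑ j ∈ Finset.range i, B (bs n h) := by
          apply Finset.sum_le_sum
          intro j hj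
          rw [← Set.ncard_eq_toFinset_card _ (Set.toFinite (S.L v (Y j)))]
          exact (S.bound v (Y j)).trans (hB (blk_card S n (hY j (Finset.mem_range.mp hj))))
      _ = i * B (bs n h) := by
          rw [Finset.sum_const, Finset.card_range, smul_eq_mul]
  · intro j hj q hq
    rw [Finset.mem_biUnion]
    exact ⟨j, Finset.mem_range.mpr hj, by rw [Set.Finite.mem_toFinset]; exact hq⟩

private theorem stack_aux {J : Type} [Finite J] {P : Psh J} {r K : ℕ} {B : ℕ → ℕ}
    (S : Lab P r K B) (n D h : ℕ) (hB : Monotone B) (hD : (n - 1) * B (bs n h) ≤ D) {v : Finset J}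
    (a : ℕ → ℕ) (hW : ∀ i, i < n → ¬ Win S n D h v (a i) (a (i + 1)))
    (u : Finset J) (hvu : v ⊆ u) (hu : u.card ≤ a 0) (i : ℕ) (hi : i ≤ n) :
    ∃ (Y : ℕ → Finset (Finset J)) (w : Finset J), u ⊆ w ∧ w.card ≤ a i ∧
      (∀ j, j < i → Blk S n v h (Y j)) ∧ (∀ j, j < i → ∀ U ∈ Y j, u ⊂ U ∧ U ⊆ w) ∧
      (∀ j j', j < j' → j' < i → ∀ U ∈ Y j, ∀ U' ∈ Y j', U ⊂ U') ∧
      (∀ j j', j < j' → j' < i → Disjoint (S.L v (Y j)) (S.L v (Y j'))) := by
  classical
  induction i with
  | zero =>
    exact ⟨fun _ => ∅, u, Finset.Subset.refl u, hu, fun j hj => absurd hj (Nat.not_lt_zero j),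
      fun j hj => absurd hj (Nat.not_lt_zero j),
      fun j j' _ hj => absurd hj (Nat.not_lt_zero j'),
      fun j j' _ hj => absurd hj (Nat.not_lt_zero j')⟩
  | succ i ih =>
    obtain ⟨Y, w, h1, h2, h3, h4, h5, h6⟩ := ih (by omega)
    obtain ⟨g, hg, hgq⟩ := stack_labels S n h i hB Y h3
    have hgD : g.card ≤ D := by
      refine hg.trans (le_trans (Nat.mul_le_mul_right _ (by omega)) hD)
    have hnot : ¬ Hit S n h v w (a (i + 1)) g := by
      intro hh
      exact hW i (by omega) ⟨w, hvu.trans h1, h2, g, hgD, hh⟩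
    unfold Hit at hnot
    push_neg at hnot
    obtain ⟨X, hX, hXa, hXg⟩ := hnot
    obtain ⟨W, hWX, hWtop⟩ := blk_top S n hX
    refine ⟨Function.update Y i X, W, ?_, ?_, ?_, ?_, ?_, ?_⟩
    · exact h1.trans (hXa W hWX).1.subset
    · exact (hXa W hWX).2
    · intro j hj
      by_cases hji : j = i
      · subst hji
        rw [Function.update_self]
        exact hX
      · rw [Function.update_of_ne hji]
        exact h3 j (by omega)
    · intro j hj U hU
      by_cases hji : j = i
      · subst hji
        rw [Function.update_self] at hU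
        exact ⟨lt_of_le_of_lt h1 (hXa U hU).1, hWtop U hU⟩
      · rw [Function.update_of_ne hji] at hU
        have := h4 j (by omega) U hU
        exact ⟨this.1, this.2.trans (hXa W hWX).1.subset⟩
    · intro j j' hjj' hj' U hU U' hU'
      have hji : j ≠ i := by omega
      rw [Function.update_of_ne hji] at hU
      by_cases hj'i : j' = i
      · subst hj'i
        rw [Function.update_self] at hU'
        exact lt_of_le_of_lt (h4 j (by omega) U hU).2 (hXa U' hU').1
      · rw [Function.update_of_ne hj'i] at hU'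
        exact h5 j j' hjj' (by omega) U hU U' hU'
    · intro j j' hjj' hj'
      have hji : j ≠ i := by omega
      rw [Function.update_of_ne hji]
      by_cases hj'i : j' = i
      · subst hj'i
        rw [Function.update_self, Set.disjoint_left]
        intro q hq hq'
        exact hXg q (hgq j (by omega) q hq) hq'
      · rw [Function.update_of_ne hj'i]
        exact h6 j j' hjj' (by omega)

theorem stack {J : Type} [Finite J] {P : Psh J} {r K : ℕ} {B : ℕ → ℕ} (S : Lab P r K B)
    (n D h : ℕ) (hB : Monotone B) (hD : (n - 1) * B (bs n h) ≤ D) {v : Finset J} (a : ℕ → ℕ)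
    (ha : ∀ i, a i ≤ a (i + 1)) (hW : ∀ i, i < n → ¬ Win S n D h v (a i) (a (i + 1)))
    (hJ : a n < Nat.card J) : Good S n (h + 1) v (a 0) (a n + 1) := by
  classical
  intro u hvu hu
  obtain ⟨Y, w, h1, h2, h3, h4, h5, h6⟩ := stack_aux S n D h hB hD a hW u hvu hu n le_rfl
  obtain ⟨x, hx⟩ : ∃ x, x ∉ w := by
    by_contra hcon
    push_neg at hcon
    haveI : Fintype J := Fintype.ofFinite J
    have : w = Finset.univ := by
      ext y
      simp [hcon y]
    rw [this, Finset.card_univ, ← Nat.card_eq_fintype_card] at h2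
    omega
  have hwW : w ⊂ insert x w := Finset.ssubset_insert hx
  refine ⟨insert (insert x w) ((Finset.range n).biUnion Y),
    ⟨fun i => Y i, insert x w, ?_, ?_, ?_, ?_, ?_, ?_⟩, ?_⟩
  · exact lt_of_le_of_lt (hvu.trans h1) hwW
  · intro i
    exact h3 i i.2
  · intro i j hij U hU U' hU'
    exact h5 i j hij j.2 U hU U' hU'
  · intro i U hU
    exact lt_of_le_of_lt (h4 i i.2 U hU).2 hwW
  · intro i j hij
    have hij' : (i : ℕ) ≠ j := fun h => hij (Fin.ext h)
    rcases lt_or_gt_of_ne hij' with hlt | hlt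
    · exact h6 i j hlt j.2
    · exact (h6 j i hlt i.2).symm
  · intro U
    rw [Finset.mem_insert, Finset.mem_biUnion]
    constructor
    · rintro (h | ⟨i, hi, hU⟩)
      · exact Or.inl h
      · exact Or.inr ⟨⟨i, Finset.mem_range.mp hi⟩, hU⟩
    · rintro (h | ⟨i, hU⟩)
      · exact Or.inl h
      · exact Or.inr ⟨i, Finset.mem_range.mpr i.2, hU⟩
  · intro U hU
    rw [Finset.mem_insert, Finset.mem_biUnion] at hU
    rcases hU with rfl | ⟨i, hi, hU⟩
    · refine ⟨lt_of_le_of_lt h1 hwW, ?_⟩
      rw [Finset.card_insert_of_notMem hx]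
      omega
    · have h7 := h4 i (Finset.mem_range.mp hi) U hU
      exact ⟨h7.1, (Finset.card_le_card h7.2).trans (h2.trans (Nat.le_succ _))⟩

end Pool.Agent.Helper25.BG
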