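import Pool.Agent.Helper25.BG.Locs

/-! Module BG-Test: one test fails with small probability.

Fix `x0 ∈ XX` (if `XX` is empty then `H` is nonempty, because of `Φ.f`, and nothing fails). For `x ∈ XX` join
`x0` to `x` by at most `r` changes at single elements `q ∈ D` (`x0 = y_0, …, y_k = x`, `k ≤ r`).
Each step: `av (Tn U g (ω + xh y_{e+1}) - Tn U g (ω + xh y_e))^2 ≤ 8 M^2 Wt g U (Ss q) ≤ 8 M^2 τ`
(`av_shift`, `xh_diff`, `Wt_gap`, `q` not relevant: `Tin` with the same `m l c i u`), so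
`av (Tn U g (ω + xh x) - Tn U g (ω + xh x0))^2 ≤ 8 r^2 M^2 τ` (Cauchy-Schwarz).
If `ω` is such that all these differences (for `x ∈ XX`, `u ∈ H`) are `< 1/|H|` in absolute value,
take `u` popular for `ω + xh x0` (`popular`); then `Tn U g (ω + xh x) > 0` for all `x ∈ XX` and
`val_of_pos` applies. Markov (`av_markov`) and the union bound: the number of other `ω` is at most
`|H| * |XX| * |H|^2 * 8 r^2 M^2 τ * |Ω|`, and `|XX| ≤ 2^r` (`x ∈ XX` is determined by `x|D`). -/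

set_option autoImplicit false
set_option linter.all false

namespace Pool.Agent.Helper25.BG

private theorem test_step {J : Type} [Finite J] {P : Psh J} {M R K r : ℕ} [NeZero M]
    {H : Type} [Finite H]
    {E : H → H → Prop} (Φ : Fam P M R K E) {τ : ℝ} (hτ : 0 ≤ τ) {v : Finset J}
    (V : Fin r → Finset J) (hv : ∀ i, v ⊆ V i) (σ : Finset (Fin r)) (m : Fin r)
    (hm : m ∈ σ) (hmax : ∀ j ∈ σ, j ≤ m) (l : Cp r → Fin r → ℕ) (hl : ∀ c j, l c j ≤ M)
    (c : Cp r) (i : Fin r) (hi : i ∈ σ) (hfull : l c i = M) (u : H) (q : P.F v)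
    (hq : ¬ Tin Φ τ v V σ q) (x y : P.F v → Bool) (hxy : ∀ q', q' ≠ q → x q' = y q') :
    av (fun ω : Ix P r → ZMod M =>
      (Tn (Us P V c i) (gv Φ V σ l m u) (ω + xh P V c i (hv i) y) -
        Tn (Us P V c i) (gv Φ V σ l m u) (ω + xh P V c i (hv i) x)) ^ 2) ≤
      8 * (M : ℝ) ^ 2 * τ := by
  classical
  set U := Us P V c i with hU
  set g := gv Φ V σ l m u with hg
  set a : Ix P r → ZMod M := xh P V c i (hv i) y - xh P V c i (hv i) x with ha
  have e1 : (fun ω : Ix P r → ZMod M =>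
      (Tn U g (ω + xh P V c i (hv i) y) - Tn U g (ω + xh P V c i (hv i) x)) ^ 2) =
      fun ω => (fun ω' => (Tn U g (ω' + a) - Tn U g ω') ^ 2) (ω + xh P V c i (hv i) x) := by
    funext ω
    have : ω + xh P V c i (hv i) x + a = ω + xh P V c i (hv i) y := by
      rw [ha]
      abel
    simp only [this]
  rw [e1, av_shift (fun ω' => (Tn U g (ω' + a) - Tn U g ω') ^ 2)]
  have h2 := Wt_gap g (Ss_subset V c i (hv i) q) (a := a)
    (fun j hj => xh_diff V c i (hv i) q x y hxy j hj)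
  have h3 : Wt g U (Ss P V c i (hv i) q) < τ := by
    by_contra hcon
    push Not at hcon
    exact hq ⟨m, l, c, i, u, hv i, hm, hmax, hl, hi, hfull, hcon⟩
  calc av (fun ω' => (Tn U g (ω' + a) - Tn U g ω') ^ 2) ≤
        8 * (M : ℝ) ^ 2 * Wt g U (Ss P V c i (hv i) q) := h2
    _ ≤ 8 * (M : ℝ) ^ 2 * τ := by
        apply mul_le_mul_of_nonneg_left h3.le
        positivity

private theorem test_path {J : Type} [Finite J] {P : Psh J} {M R K r : ℕ} [NeZero M]
    {H : Type} [Finite H]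
    {E : H → H → Prop} (Φ : Fam P M R K E) {τ : ℝ} (hτ : 0 ≤ τ) {v : Finset J}
    (V : Fin r → Finset J) (hv : ∀ i, v ⊆ V i) (σ : Finset (Fin r)) (m : Fin r)
    (hm : m ∈ σ) (hmax : ∀ j ∈ σ, j ≤ m) (l : Cp r → Fin r → ℕ) (hl : ∀ c j, l c j ≤ M)
    (c : Cp r) (i : Fin r) (hi : i ∈ σ) (hfull : l c i = M) (u : H) (T : Finset (P.F v)) :
    (∀ q ∈ T, ¬ Tin Φ τ v V σ q) → ∀ (x y : P.F v → Bool), (∀ q, q ∉ T → x q = y q) →
    av (fun ω : Ix P r → ZMod M =>
      (Tn (Us P V c i) (gv Φ V σ l m u) (ω + xh P V c i (hv i) y) -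
        Tn (Us P V c i) (gv Φ V σ l m u) (ω + xh P V c i (hv i) x)) ^ 2) ≤
      (T.card : ℝ) ^ 2 * (8 * (M : ℝ) ^ 2 * τ) := by
  classical
  induction T using Finset.induction_on with
  | empty =>
    intro _ x y hxy
    have : x = y := funext fun q => hxy q (Finset.notMem_empty q)
    subst this
    simp only [sub_self]
    have : av (fun ω : Ix P r → ZMod M => ((0 : ℝ)) ^ 2) = 0 := by
      have h0 : (fun ω : Ix P r → ZMod M => ((0 : ℝ)) ^ 2) = fun _ => (0 : ℝ) := by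
        funext ω
        norm_num
      rw [h0]
      unfold av
      simp
    rw [this]
    simp
  | insert q T hqT ih =>
    intro hT x y hxy
    set z := Function.update x q (y q) with hz
    have h1 : ∀ q', q' ∉ T → z q' = y q' := by
      intro q' hq'
      by_cases h : q' = q
      · rw [h, hz, Function.update_self]
      · rw [hz, Function.update_of_ne h]
        apply hxy
        rw [Finset.mem_insert]
        push Not
        exact ⟨h, hq'⟩
    have h2 : ∀ q', q' ≠ q → x q' = z q' := by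
      intro q' hq'
      rw [hz, Function.update_of_ne hq']
    have h3 := ih (fun q' hq' => hT q' (Finset.mem_insert_of_mem hq')) z y h1
    have h4 := test_step Φ hτ V hv σ m hm hmax l hl c i hi hfull u q
      (hT q (Finset.mem_insert_self q T)) x z h2
    set U := Us P V c i with hU
    set g := gv Φ V σ l m u with hg
    set G : (P.F v → Bool) → (Ix P r → ZMod M) → ℝ := fun x ω =>
      Tn U g (ω + xh P V c i (hv i) x) with hG
    set C : ℝ := 8 * (M : ℝ) ^ 2 * τ with hC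
    have hC0 : 0 ≤ C := by positivity
    change av (fun ω => (G y ω - G z ω) ^ 2) ≤ _ at h3
    change av (fun ω => (G z ω - G x ω) ^ 2) ≤ _ at h4
    change av (fun ω => (G y ω - G x ω) ^ 2) ≤ _
    rw [Finset.card_insert_of_notMem hqT]
    push_cast
    rcases Nat.eq_zero_or_pos T.card with h0 | h0
    · have hTe : T = ∅ := Finset.card_eq_zero.1 h0
      have : z = y := funext fun q' => h1 q' (by rw [hTe]; exact Finset.notMem_empty _)
      rw [this] at h4
      rw [h0]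
      norm_num
      exact h4
    · have hk : (0 : ℝ) < (T.card : ℝ) := by exact_mod_cast h0
      set k : ℝ := (T.card : ℝ) with hkdef
      have h5 : av (fun ω => (G y ω - G x ω) ^ 2) ≤
          av (fun ω => (1 + 1 / k) * (G y ω - G z ω) ^ 2 + (1 + k) * (G z ω - G x ω) ^ 2) := by
        apply av_mono
        intro ω
        set A := G y ω - G z ω with hA
        set B := G z ω - G x ω with hB
        have e : G y ω - G x ω = A + B := by rw [hA, hB]; ring
        rw [e]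
        have h6 : (1 + 1 / k) * A ^ 2 + (1 + k) * B ^ 2 - (A + B) ^ 2 =
            (A - k * B) ^ 2 / k := by
          field_simp
          ring
        have h7 : 0 ≤ (A - k * B) ^ 2 / k := by positivity
        linarith
      rw [av_add, av_mul_left, av_mul_left] at h5
      have h8 : (1 + 1 / k) * av (fun ω => (G y ω - G z ω) ^ 2) ≤ (1 + 1 / k) * (k ^ 2 * C) :=
        mul_le_mul_of_nonneg_left h3 (by positivity)
      have h9 : (1 + k) * av (fun ω => (G z ω - G x ω) ^ 2) ≤ (1 + k) * C :=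
        mul_le_mul_of_nonneg_left h4 (by positivity)
      have h10 : (1 + 1 / k) * (k ^ 2 * C) + (1 + k) * C = (k + 1) ^ 2 * C := by
        field_simp
        ring
      linarith

theorem test {J : Type} [Finite J] {P : Psh J} {M R K r : ℕ} (hM : Odd M) {H : Type} [Finite H]
    {E : H → H → Prop} (Φ : Fam P M R K E) {τ : ℝ} (hτ : 0 ≤ τ) {v : Finset J}
    (V : Fin r → Finset J) (hV : Monotone V) (hv : ∀ i, v ⊆ V i) (σ : Finset (Fin r)) (m : Fin r)
    (hm : m ∈ σ) (hmax : ∀ j ∈ σ, j ≤ m) (l : Cp r → Fin r → ℕ) (hl : ∀ c j, l c j ≤ M)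
    (c : Cp r) (i : Fin r) (hi : i ∈ σ) (hfull : l c i = M) (D : Set (P.F v)) (hD : D.ncard ≤ r)
    (hD' : ∀ q ∈ D, ¬ Tin Φ τ v V σ q) (XX : Set (P.F v → Bool))
    (hX : ∀ x ∈ XX, ∀ x' ∈ XX, ∀ q, q ∉ D → x q = x' q) :
    (({ω : Ix P r → ZMod M | ¬ ∃ u, ∀ x ∈ XX, Val Φ V σ l m (hv m) x ω u}.ncard : ℕ) : ℝ) ≤
      (Nat.card H : ℝ) ^ 3 * 2 ^ r * (8 * (r : ℝ) ^ 2 * (M : ℝ) ^ 2 * τ) *
        Nat.card (Ix P r → ZMod M) := by
  classical
  have hM0 : NeZero M := ⟨by rintro rfl; simp at hM⟩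
  have hH : Nonempty H := ⟨Φ.f ∅ (fun _ => 0)⟩
  have hRHS : 0 ≤ (Nat.card H : ℝ) ^ 3 * 2 ^ r * (8 * (r : ℝ) ^ 2 * (M : ℝ) ^ 2 * τ) *
        Nat.card (Ix P r → ZMod M) := by positivity
  rcases Set.eq_empty_or_nonempty XX with hX0 | ⟨x0, hx0⟩
  · have : {ω : Ix P r → ZMod M | ¬ ∃ u, ∀ x ∈ XX, Val Φ V σ l m (hv m) x ω u} = ∅ := by
      rw [Set.eq_empty_iff_forall_notMem]
      intro ω hω
      apply hω
      refine ⟨hH.some, ?_⟩
      rw [hX0]
      intro x hx
      exact absurd hx (Set.notMem_empty x)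
    rw [this]
    simpa using hRHS
  have hfH := Fintype.ofFinite H
  have hfF := Fintype.ofFinite (P.F v)
  set U := Us P V c i with hU
  set G : H → (P.F v → Bool) → (Ix P r → ZMod M) → ℝ := fun u x ω =>
      Tn U (gv Φ V σ l m u) (ω + xh P V c i (hv i) x) with hG
  set T : Finset (P.F v) := D.toFinite.toFinset with hT
  have hTD : ∀ q, q ∈ T ↔ q ∈ D := fun q => Set.Finite.mem_toFinset _
  have hTc : T.card ≤ r := by
    rw [← Set.ncard_eq_toFinset_card D] at *
    exact hD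
  set C : ℝ := 8 * (M : ℝ) ^ 2 * τ with hC
  have hC0 : 0 ≤ C := by positivity
  have hpath : ∀ (u : H), ∀ x ∈ XX, av (fun ω => (G u x ω - G u x0 ω) ^ 2) ≤ (r : ℝ) ^ 2 * C := by
    intro u x hx
    have h1 := test_path Φ hτ V hv σ m hm hmax l hl c i hi hfull u T
      (fun q hq => hD' q ((hTD q).1 hq)) x0 x
      (fun q hq => hX x0 hx0 x hx q (fun h => hq ((hTD q).2 h)))
    refine h1.trans ?_
    apply mul_le_mul_of_nonneg_right _ hC0
    have : (T.card : ℝ) ≤ r := by exact_mod_cast hTc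
    gcongr
  set n : ℝ := (Nat.card H : ℝ) with hn
  have hn0 : 0 < n := by
    rw [hn]
    exact_mod_cast Nat.card_pos (α := H)
  have hmark : ∀ (u : H), ∀ x ∈ XX,
      (({ω | (1 / n) ^ 2 ≤ (G u x ω - G u x0 ω) ^ 2}.ncard : ℕ) : ℝ) ≤
        n ^ 2 * ((r : ℝ) ^ 2 * C) * Nat.card (Ix P r → ZMod M) := by
    intro u x hx
    have h1 := av_markov (f := fun ω => (G u x ω - G u x0 ω) ^ 2) (fun ω => sq_nonneg _)
      ((1 / n) ^ 2)
    have h2 := hpath u x hx
    have h3 : (1 / n) ^ 2 * (({ω | (1 / n) ^ 2 ≤ (G u x ω - G u x0 ω) ^ 2}.ncard : ℕ) : ℝ) ≤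
        (r : ℝ) ^ 2 * C * Nat.card (Ix P r → ZMod M) :=
      h1.trans (mul_le_mul_of_nonneg_right h2 (Nat.cast_nonneg _))
    calc (({ω | (1 / n) ^ 2 ≤ (G u x ω - G u x0 ω) ^ 2}.ncard : ℕ) : ℝ) =
          n ^ 2 * ((1 / n) ^ 2 *
            (({ω | (1 / n) ^ 2 ≤ (G u x ω - G u x0 ω) ^ 2}.ncard : ℕ) : ℝ)) := by
          field_simp
      _ ≤ n ^ 2 * ((r : ℝ) ^ 2 * C * Nat.card (Ix P r → ZMod M)) :=
          mul_le_mul_of_nonneg_left h3 (by positivity)
      _ = _ := by ring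
  set XF : Finset (P.F v → Bool) := XX.toFinite.toFinset with hXF
  have hXm : ∀ x, x ∈ XF ↔ x ∈ XX := fun x => Set.Finite.mem_toFinset _
  have hXc : XF.card ≤ 2 ^ r := by
    have h1 : XF.card ≤ (Finset.univ : Finset (T → Bool)).card := by
      apply Finset.card_le_card_of_injOn (fun x => fun q : T => x q.1)
      · intro x _
        simp
      · intro x hx y hy hxy
        funext q
        by_cases hq : q ∈ T
        · exact congrFun hxy ⟨q, hq⟩
        · exact hX x ((hXm x).1 hx) y ((hXm y).1 hy) q (fun h => hq ((hTD q).2 h))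
    refine h1.trans ?_
    rw [Finset.card_univ, Fintype.card_fun, Fintype.card_bool, Fintype.card_coe]
    exact Nat.pow_le_pow_right (by norm_num) hTc
  have hsub : {ω : Ix P r → ZMod M | ¬ ∃ u, ∀ x ∈ XX, Val Φ V σ l m (hv m) x ω u} ⊆
      ⋃ p ∈ (Finset.univ : Finset H) ×ˢ XF,
        {ω | (1 / n) ^ 2 ≤ (G p.1 p.2 ω - G p.1 x0 ω) ^ 2} := by
    intro ω hω
    by_contra hcon
    apply hω
    simp only [Set.mem_iUnion, Finset.mem_product, Finset.mem_univ, true_and, not_exists,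
      Set.mem_setOf_eq, not_le] at hcon
    obtain ⟨u, hu⟩ := popular Φ V σ l m U (ω + xh P V c i (hv i) x0)
    refine ⟨u, fun x hx => ?_⟩
    apply val_of_pos hM Φ V σ l m i c hi hfull (hV (hmax i hi)) (hv i) (hv m) x u ω
    have h1 := hcon (u, x) ((hXm x).2 hx)
    have h2 : |G u x ω - G u x0 ω| < 1 / n := by
      have := abs_lt_of_sq_lt_sq h1 (by positivity)
      exact this
    have h3 : 1 / n ≤ G u x0 ω := hu
    have h4 := (abs_lt.1 h2).1
    change 0 < G u x ω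
    linarith
  have hcard : {ω : Ix P r → ZMod M | ¬ ∃ u, ∀ x ∈ XX, Val Φ V σ l m (hv m) x ω u}.ncard ≤
      ∑ p ∈ (Finset.univ : Finset H) ×ˢ XF,
        {ω | (1 / n) ^ 2 ≤ (G p.1 p.2 ω - G p.1 x0 ω) ^ 2}.ncard := by
    refine (Set.ncard_le_ncard hsub (Set.toFinite _)).trans ?_
    exact Finset.set_ncard_biUnion_le _ _
  have hcard' : (({ω : Ix P r → ZMod M | ¬ ∃ u, ∀ x ∈ XX, Val Φ V σ l m (hv m) x ω u}.ncard : ℕ)
      : ℝ) ≤ ∑ p ∈ (Finset.univ : Finset H) ×ˢ XF,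
        n ^ 2 * ((r : ℝ) ^ 2 * C) * Nat.card (Ix P r → ZMod M) := by
    calc (({ω : Ix P r → ZMod M | ¬ ∃ u, ∀ x ∈ XX, Val Φ V σ l m (hv m) x ω u}.ncard : ℕ)
      : ℝ) ≤ ((∑ p ∈ (Finset.univ : Finset H) ×ˢ XF,
        {ω | (1 / n) ^ 2 ≤ (G p.1 p.2 ω - G p.1 x0 ω) ^ 2}.ncard : ℕ) : ℝ) := by
          exact_mod_cast hcard
      _ = ∑ p ∈ (Finset.univ : Finset H) ×ˢ XF,
        (({ω | (1 / n) ^ 2 ≤ (G p.1 p.2 ω - G p.1 x0 ω) ^ 2}.ncard : ℕ) : ℝ) := by
          push_cast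
          rfl
      _ ≤ _ := by
          apply Finset.sum_le_sum
          intro p hp
          rw [Finset.mem_product] at hp
          exact hmark p.1 p.2 ((hXm p.2).1 hp.2)
  refine hcard'.trans ?_
  rw [Finset.sum_const, Finset.card_product, Finset.card_univ, nsmul_eq_mul]
  have hHc : (Fintype.card H : ℝ) = n := by
    rw [hn, Nat.card_eq_fintype_card]
  push_cast
  rw [hHc]
  have h1 : (XF.card : ℝ) ≤ 2 ^ r := by exact_mod_cast hXc
  have h2 : 0 ≤ n * (n ^ 2 * ((r : ℝ) ^ 2 * C) * Nat.card (Ix P r → ZMod M)) := by positivity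
  calc n * (XF.card : ℝ) * (n ^ 2 * ((r : ℝ) ^ 2 * C) * Nat.card (Ix P r → ZMod M)) =
        (XF.card : ℝ) * (n * (n ^ 2 * ((r : ℝ) ^ 2 * C) * Nat.card (Ix P r → ZMod M))) := by ring
    _ ≤ 2 ^ r * (n * (n ^ 2 * ((r : ℝ) ^ 2 * C) * Nat.card (Ix P r → ZMod M))) :=
        mul_le_mul_of_nonneg_right h1 h2
    _ = _ := by rw [hC]; ring

end Pool.Agent.Helper25.BG
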